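import Pool.Agent.H96.GEO.Cls
import Pool.Agent.H96.KN.Turn

/-!
# Types, shapes, coarse cells, and the data of the turning step

* the unit of length `qq l al`: a power of two times `l`, `qq ≤ l + al < 2 qq`;
* the type of a label: the unit, the sides and the height in this unit;
* the shape of a pair: the gains of the sides of the join of the two rounded bodies, and the
  difference of the sizes;
* the points of a line in a window, for a coarse cell: the window, a uniform number `n`, the maximal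
  minor `S` of the body along the line in the window, and the values of the `m` functions `S` of the
  body at the time `(t + n / 2 ^ k) / 2 ^ w`, at resolution `2 ^ (-k)`.
-/

set_option autoImplicit false

namespace Pool.GC

open Finset Real MvPolynomial
open Pool.LAT (Bd Sp exists_join grw)
open Pool.KNH (LA LB Ln GS ndc)
open Pool.SH (lpos)
open Pool.GEN (pnt)
open Pool.BJ (dM mnr jm JF)
open Pool.KNB (nJ mo cmb ev)
open Pool.TRN (TD TF)

/-! ### Bodies -/

section bodies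

variable {N : ℕ}

/-- The body with rounded sides. -/
def upB (A₀ q : ℕ) (B : Bd N) : Bd N where
  e := B.e
  r := fun j => q * (B.r j / q + 1 + A₀)
  anti := fun i j h => by
    rcases Nat.eq_zero_or_pos q with h0 | h0
    · simp [h0]
    have h1 : B.r j / (q : ℤ) ≤ B.r i / (q : ℤ) :=
      Int.ediv_le_ediv (by exact_mod_cast h0) (B.anti h)
    exact mul_le_mul_of_nonneg_left (by linarith) (Nat.cast_nonneg q)

/-- The body with bounded sides. -/
def trn (top : ℕ) (B : Bd N) : Bd N where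
  e := B.e
  r := fun j => min (B.r j) top
  anti := fun _ _ h => min_le_min_right _ (B.anti h)

/-- The multiple of a body. -/
def scl (a : ℤ) (B : Bd N) : Bd N where
  e := B.e
  r := fun j => B.r j + a
  anti := fun _ _ h => add_le_add_left (B.anti h) a

/-- The join. -/
noncomputable def jn (A B : Bd N) : Bd N := (exists_join A B).choose

end bodies

/-! ### Types and shapes -/

/-- The unit of length. -/
def qq (l al : ℕ) : ℕ := 2 ^ Nat.log 2 ((l + al) / l) * l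

/-- The types. -/
structure TyV (N : ℕ) where
  /-- the unit -/
  i : ℕ
  /-- the sides -/
  r : Fin N → ℤ
  /-- the height -/
  h : ℕ

/-- The shapes. -/
structure ShV (N : ℕ) where
  /-- the unit -/
  q : ℕ
  /-- the gains -/
  gu : Fin N → ℕ
  /-- the difference of the sizes -/
  dz : ℤ

/-- The constants: `A₀` for the rounding of the bodies, `A₁` and `A₂` for the ranges, `a₀` for the
inclusion of the bodies of the labels of the boxes in the body of the coarse cell, `c₁` for the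
resolution, `c₂` for the inclusion in the other direction, `g₀` for the cells, `c₃` for the sizes,
`c₄` for the body of the boxes, `c₅` for the gain, `cA` for the labels of the boxes: they are
at most `cA` times the resolution thinner than the body of the coarse cell. -/
structure BP where
  A₀ : ℕ
  A₁ : ℕ
  A₂ : ℕ
  a₀ : ℕ
  c₁ : ℕ
  c₂ : ℕ
  g₀ : ℕ
  c₃ : ℕ
  c₄ : ℕ
  c₅ : ℕ
  cA : ℕ

variable {m E : ℕ} (P : Par m E) (b : BP)

/-- The type of a label. -/
noncomputable def tyv (l : ℕ) (c : Cc m E) (v : Vl m E) : TyV (nJ m E) where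
  i := Nat.log 2 ((l + v.al) / l)
  r := fun j => v.c.B.r j / (qq l v.al : ℤ)
  h := P.hx c v / qq l v.al

/-- The shape of two labels. -/
noncomputable def shv (l : ℕ) (v₀ v₁ : Vl m E) : ShV (nJ m E) where
  q := qq l v₁.al
  gu := fun j => (((upB b.A₀ (qq l v₁.al) v₁.c.B).r j -
    (jn (upB b.A₀ (qq l v₁.al) v₀.c.B) (upB b.A₀ (qq l v₁.al) v₁.c.B)).r j) /
      (qq l v₁.al : ℤ) + 1).toNat
  dz := v₀.sz / (qq l v₁.al : ℤ) - v₁.sz / (qq l v₁.al : ℤ)

/-- The range of a shape. -/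
def rgv {N : ℕ} (s : ShV N) : ℕ := s.q * (b.A₁ + b.A₂ * ∑ j, s.gu j)

/-- The body of the coarse cell. -/
noncomputable def crB (a : ℕ) (C v : Bd (nJ m E)) (s : ShV (nJ m E)) : Bd (nJ m E) :=
  trn P.top (jn ((upB b.A₀ s.q v).crs (grw fun j => s.q * s.gu j)) (scl a C)).net

open Classical in
/-- A line of a label. -/
noncomputable def rln (J w : ℕ) (c : Cc m E) (k a : ℕ) (t : ℕ) (v : Vl m E) : Ln m :=
  if h : ∃ x, okv P J w c k a x t v then h.choose else 0

/-- The coarse cell. -/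
noncomputable def crv (J w l : ℕ) (c : Cc m E) (k a : ℕ) (t₀ : ℕ) (v₀ : Vl m E)
    (s : ShV (nJ m E)) : Cc m E where
  c := {
    B := crB P b a c.c.B v₀.c.B s
    cd := fun i a' => ⌊(crB P b a c.c.B v₀.c.B s).fn a'
      (phl E (rln P J (w + l) c k a t₀ v₀) (nod (dD m E) w (t₀ / 2 ^ l) i))⌋ }
  w := w
  t := t₀ / 2 ^ l
  mx := min (c.w + k) c.mx
  fl := c.fl + a
  sz := s.q * (v₀.sz / (s.q : ℤ))

/-- **Types, shapes and coarse cells of the class.** -/
noncomputable def Par.gs : GS P.cls.Cx P.cls.V where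
  Ty := TyV (nJ m E)
  Sh := ShV (nJ m E)
  ty := fun _ _ l c _ _ v => tyv P l c v
  sh := fun _ _ l _ _ _ _ _ v₀ v₁ => shv b l v₀ v₁
  rg := rgv b
  crs := fun J w l c k a t₀ v₀ s => crv P b J w l c k a t₀ v₀ s

/-! ### Points -/

/-- The size of a minor of a body along a line, in a window. -/
noncomputable def SS (B : Bd (nJ m E)) (w t : ℕ) (S : Fin m → Fin (nJ m E)) (l : Ln m) : ℝ :=
  sSup ((fun s => |mnr (dM (FB B) (pnt s (lpos l s))) S|) '' win w t)

open Classical in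
/-- The maximal minor. -/
noncomputable def Sm (B : Bd (nJ m E)) (w t : ℕ) (l : Ln m) : Option (Fin m → Fin (nJ m E)) :=
  if h : ∃ S, SS B w t S l = SJ B w t l then some h.choose else none

/-- The point of the line at the time with the number `n`. -/
noncomputable def ptc (B : Bd (nJ m E)) (S : Fin m → Fin (nJ m E)) (k w t : ℕ) (x : Ln m)
    (n : ℕ) : Fin m → ℤ :=
  fun i => ⌊(2 : ℝ) ^ k * B.fn (S i) (phl E x (((t : ℝ) + (n : ℝ) / 2 ^ k) / 2 ^ w))⌋

/-- The points: the window, the number, the minor, the cube. -/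
noncomputable def pYf (k w : ℕ) (B : Bd (nJ m E)) (x : Ln m) (t n : ℕ) :
    (ℕ × ℕ) × Option ((Fin m → Fin (nJ m E)) × (Fin m → ℤ)) :=
  ((t, n), (Sm B w t x).map fun S => (S, ptc B S k w t x n))

/-- The count of the points. -/
noncomputable def pU (J k w : ℕ) (B : Bd (nJ m E)) (x : Ln m) (t : ℕ) : ℝ :=
  ((k : ℝ) + m * k - m * J) * Real.log 2 + Real.log (SJ B w t x)

/-! ### The data -/

/-- **The domain of the boxes**: lines in the coarse cell, of known size up to `2 ^ (c₃ k)`. -/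
structure dmv (J w : ℕ) (c : Cc m E) (k : ℕ) (x : Ln m) (t : ℕ) : Prop where
  box : ∀ i, |x.1 i| ≤ 2 ∧ |x.2 i| ≤ 2
  cw : c.w ≤ w
  wJ : w ≤ J
  win : t / 2 ^ (w - c.w) = c.t
  tlt : t < 2 ^ w
  memc : c.c.mem (2 ^ b.g₀) c.w c.t x
  topc : ∀ i, c.c.B.r i ≤ P.top
  sz : (2 : ℝ) ^ (c.sz - b.c₃ * k) ≤ SJ c.c.B w t x
  sz' : SJ c.c.B w t x ≤ 2 ^ (c.sz + b.c₃ * k)

/-- **The labels of the boxes.** -/
structure bkv (w : ℕ) (c : Cc m E) (k : ℕ) (x : Ln m) (t : ℕ) (v : Vl m E) : Prop where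
  al : v.al = 0
  sb : v.sb = 0
  mem : v.c.mem 1 w t x
  le : v.c.B.le (2 ^ b.a₀) c.c.B
  ge : c.c.B.le (2 ^ (b.cA * k)) v.c.B
  top : ∀ i, v.c.B.r i ≤ P.top
  sz : (2 : ℝ) ^ v.sz ≤ SJ v.c.B w t x
  sz' : SJ v.c.B w t x < 2 ^ (v.sz + 1)

/-- The capacity. -/
noncomputable def capv (J : ℕ) (v : Vl m E) : ℝ := ((m : ℝ) * J - v.sz + m * v.al) * Real.log 2

/-- The gain. -/
noncomputable def gnv (s : ShV (nJ m E)) : ℝ :=
  max 0 (P.om * (Real.log 2 * ∑ i, P.M i * ((s.q : ℝ) * ((s.gu i : ℝ) - b.c₅))))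

/-- **The data of the boxes and of the turning step.** -/
noncomputable def Par.td (κ : ℝ) : TD P.cls (P.gs b) where
  ra := b.cA + 1
  cap := fun J _ _ _ v => capv J v
  h := fun v => P.vol v.c.B
  hc := fun c => P.vol c.c.B + P.cH
  gn := fun _ _ l _ _ _ _ _ v₀ v₁ => gnv P b (shv b l v₀ v₁)
  nd := fun J v => P.cls.dp J v < ndc m κ
  dom := fun J w c k x t => dmv P b J w c k x t
  bok := fun _ w c k x t v => bkv P b w c k x t v
  N := fun _ _ k => 2 ^ (k - b.c₁)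
  Γ := (ℕ × ℕ) × Option ((Fin m → Fin (nJ m E)) × (Fin m → ℤ))
  Yf := fun _ w c k x t n => pYf (k - b.c₁) w (scl b.c₄ c.c.B) x t n
  U := fun J w c k x t => pU J (k - b.c₁) w (scl b.c₄ c.c.B) x t

/-! ### Two statements for the class -/

/-- **(BOX)** The boxes of the class. -/
def TdBoxStmt (m E : ℕ) : Prop :=
  ∃ C : ℕ, ∀ (P : Par m E) (b : BP) (κ : ℝ), b.g₀ + C ≤ b.c₄ → b.c₄ + C ≤ b.a₀ →
    b.c₂ + C ≤ b.c₁ → C ≤ b.cA → C ≤ P.top → ∀ ε : ℝ, 0 < ε → ∃ k₀ : ℕ, (P.td b κ).Box ε k₀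

open Pool.Agent.H49.Ent Pool.Agent.H32.Dense Pool.STK Pool.KA in
/-- **(CNT)** The points of the lines of a label. The point is in the window `w, t`, at a time of the
window `W, TW`; the label is a cell of the window `w', t'` inside the window `W, TW`; `Bh` is the
body for the points, `B` is the body of the label, `z` and `sz` are the sizes, `V` is the
conditioning. -/
def CntW (m E : ℕ) : Prop :=
  ∀ C₁ : ℝ, ∃ C : ℝ, 0 ≤ C ∧ ∀ (Ω γ : Type) (_ : Fintype Ω) (p : Ω → ℝ), IsLaw p →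
    ∀ (J k w W r : ℕ) (x : Ω → Ln m) (t n TW w' t' : Ω → ℕ) (Bh B : Ω → Bd (nJ m E))
      (z sz : Ω → ℤ) (V : Ω → γ),
    (∀ ω ω', 0 < p ω → 0 < p ω' → V ω = V ω' → t ω = t ω' ∧ TW ω = TW ω' ∧ w' ω = w' ω' ∧
      t' ω = t' ω' ∧ Bh ω = Bh ω' ∧ B ω = B ω' ∧ z ω = z ω' ∧ sz ω = sz ω') →
    (∀ ω, 0 < p ω → (∀ i, |(x ω).1 i| ≤ 2 ∧ |(x ω).2 i| ≤ 2) ∧ n ω < 2 ^ k ∧ t ω < 2 ^ w ∧
      W ≤ w' ω ∧ t' ω / 2 ^ (w' ω - W) = TW ω ∧ TW ω < 2 ^ W ∧
      ((t ω : ℝ) + (n ω : ℝ) / 2 ^ k) / 2 ^ w ∈ win W (TW ω)) →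
    (∀ ω, 0 < p ω → (2 : ℝ) ^ sz ω ≤ SJ (B ω) (w' ω) (t' ω) (x ω) ∧
      (2 : ℝ) ^ (z ω - r) ≤ SJ (Bh ω) w (t ω) (x ω) ∧
      SJ (Bh ω) w (t ω) (x ω) ≤ 2 ^ (z ω + r) ∧
      (2 : ℝ) ^ sz ω ≤ C₁ * 2 ^ k * 2 ^ (m * (w' ω - W)) * SJ (Bh ω) w (t ω) (x ω)) →
    (∀ ω ω', 0 < p ω → 0 < p ω' → V ω = V ω' →
      (∀ s ∈ win W (TW ω), ∀ a,
        |(Bh ω).fn a (phl E (x ω) s) - (Bh ω).fn a (phl E (x ω') s)| ≤ 1) ∧
      (∀ s ∈ win (w' ω) (t' ω), ∀ a,
        |(B ω).fn a (phl E (x ω) s) - (B ω).fn a (phl E (x ω') s)| ≤ C₁)) →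
    CH p (fun ω => pYf k w (Bh ω) (x ω) (t ω) (n ω)) V ≤ CH p n V +
      Ex p (fun ω => pU J k w (Bh ω) (x ω) (t ω) - k * Real.log 2 +
        ((m : ℝ) * J - sz ω + m * ((w' ω : ℝ) - W)) * Real.log 2) + C * Real.log (2 + r)

end Pool.GC
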