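import Pool.Agent.H96.GEO.Gs

/-!
# Bodies: rounding, truncation, multiples, joins
-/

set_option autoImplicit false

namespace Pool.GC

open Finset Real
open Pool.LAT

variable {N : ℕ}

theorem two_zpow_pos (n : ℤ) : (0 : ℝ) < 2 ^ n := zpow_pos (by norm_num) _

theorem two_zpow_le {a b : ℤ} (h : a ≤ b) : (2 : ℝ) ^ a ≤ 2 ^ b :=
  zpow_le_zpow_right₀ (by norm_num) h

/-- Bodies with the same axes. -/
theorem mul_sub_of_r {A B : Bd N} (he : A.e = B.e) {n p : ℤ} (h : ∀ j, A.r j + n ≤ B.r j + p) :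
    A.mul (2 ^ n) ⊆ B.mul (2 ^ p) := by
  intro x hx a
  have h1 := hx a
  rw [he] at h1
  refine h1.trans ?_
  show (2 : ℝ) ^ n * (2 : ℝ) ^ A.r a ≤ (2 : ℝ) ^ p * (2 : ℝ) ^ B.r a
  rw [← zpow_add₀ (by norm_num), ← zpow_add₀ (by norm_num)]
  exact two_zpow_le (by linarith [h a])

theorem le_of_r {A B : Bd N} (he : A.e = B.e) {n : ℕ} (h : ∀ j, A.r j ≤ B.r j + n) :
    A.le (2 ^ n) B := by
  have h1 := mul_sub_of_r (A := A) (B := B) he (n := 0) (p := n) (fun j => by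
    have := h j
    linarith)
  rw [zpow_zero, Bd.mul_one, zpow_natCast] at h1
  exact h1

theorem s_le_r {A B : Bd N} {n : ℕ} (h : A.le (2 ^ n) B) (j : Fin N) :
    A.r j ≤ B.r j + n + N := by
  have h1 := Bd.s_le h j
  have h2 : (N : ℝ) ≤ 2 ^ N := by exact_mod_cast Nat.lt_two_pow_self.le
  have h3 : A.s j ≤ 2 ^ N * 2 ^ n * B.s j :=
    h1.trans (mul_le_mul_of_nonneg_right (mul_le_mul_of_nonneg_right h2 (by positivity))
      (B.s_pos j).le)
  have h4 : (2 : ℝ) ^ A.r j ≤ 2 ^ (B.r j + n + N) := by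
    refine h3.trans (le_of_eq ?_)
    show (2 : ℝ) ^ N * 2 ^ n * (2 : ℝ) ^ B.r j = 2 ^ (B.r j + n + N)
    rw [zpow_add₀ (by norm_num), zpow_add₀ (by norm_num), zpow_natCast, zpow_natCast]
    ring
  exact (zpow_le_zpow_iff_right₀ (by norm_num)).mp h4

/-! ### Rounding -/

theorem up_r_ge {A₀ q : ℕ} (hq : 0 < q) (B : Bd N) (j : Fin N) :
    B.r j + q * A₀ ≤ (upB A₀ q B).r j := by
  show B.r j + q * A₀ ≤ (q : ℤ) * (B.r j / q + 1 + A₀)
  have h1 := Int.lt_ediv_add_one_mul_self (B.r j) (by exact_mod_cast hq : (0 : ℤ) < q)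
  nlinarith

theorem up_r_le {A₀ q : ℕ} (hq : 0 < q) (B : Bd N) (j : Fin N) :
    (upB A₀ q B).r j ≤ B.r j + q * (1 + A₀) := by
  show (q : ℤ) * (B.r j / q + 1 + A₀) ≤ B.r j + q * (1 + A₀)
  have h1 := Int.ediv_mul_le (B.r j) (by exact_mod_cast hq.ne' : (q : ℤ) ≠ 0)
  nlinarith

theorem mul_up {A₀ q : ℕ} (hq : 0 < q) (B : Bd N) : B.mul (2 ^ (q * A₀)) ⊆ (upB A₀ q B).set := by
  have h1 := mul_sub_of_r (A := B) (B := upB A₀ q B) rfl (n := ((q * A₀ : ℕ) : ℤ)) (p := 0)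
    (fun j => by
      have := up_r_ge (A₀ := A₀) hq B j
      push_cast
      linarith)
  rw [zpow_zero, Bd.mul_one, zpow_natCast] at h1
  exact h1

theorem le_up {A₀ q : ℕ} (hq : 0 < q) (B : Bd N) : B.le 1 (upB A₀ q B) := by
  have h1 := le_of_r (A := B) (B := upB A₀ q B) rfl (n := 0) (fun j => by
    have := up_r_ge (A₀ := A₀) hq B j
    have h2 : (0 : ℤ) ≤ q * A₀ := by positivity
    simp only [Nat.cast_zero, add_zero]
    linarith)
  rwa [pow_zero] at h1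

theorem up_le {A₀ q : ℕ} (hq : 0 < q) (B : Bd N) : (upB A₀ q B).le (2 ^ (q * (1 + A₀))) B :=
  le_of_r (A := upB A₀ q B) (B := B) (n := q * (1 + A₀)) rfl fun j => by
    have := up_r_le (A₀ := A₀) hq B j
    push_cast
    linarith

/-! ### Truncation -/

theorem trn_le (top : ℕ) (B : Bd N) : (trn top B).le 1 B := by
  have h1 := le_of_r (A := trn top B) (B := B) rfl (n := 0) (fun j => by
    show min (B.r j) top ≤ B.r j + (0 : ℕ)
    simp)
  rwa [pow_zero] at h1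

/-- The norm of the points of a body. -/
theorem norm_le {B : Bd N} {top : ℕ} (h : ∀ j, B.r j ≤ top) {κ : ℝ} (hκ : 0 ≤ κ) {x : Sp N}
    (hx : x ∈ B.mul κ) : ‖x‖ ≤ N * (κ * 2 ^ top) := by
  rw [← B.e.sum_repr' x]
  refine (norm_sum_le _ _).trans ?_
  have h1 : ∀ a ∈ (univ : Finset (Fin N)), ‖inner ℝ (B.e a) x • B.e a‖ ≤ κ * 2 ^ top := by
    intro a _
    rw [norm_smul, B.e.norm_eq_one, mul_one, Real.norm_eq_abs]
    refine (hx a).trans (mul_le_mul_of_nonneg_left ?_ hκ)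
    have := two_zpow_le (h a)
    rwa [zpow_natCast] at this
  refine (sum_le_sum h1).trans ?_
  rw [sum_const, card_univ, Fintype.card_fin, nsmul_eq_mul]

/-- A body with bounded sides inside a body is inside its truncation. -/
theorem mul_trn {C B : Bd N} {top : ℕ} (h : ∀ j, C.r j ≤ top) {κ κ' : ℝ} (hκ : 0 ≤ κ)
    {x : Sp N} (hx : x ∈ C.mul κ) (hx' : x ∈ B.mul κ') (hκ' : N * κ ≤ κ') :
    x ∈ (trn top B).mul κ' := by
  intro a
  have hκ0 : 0 ≤ κ' := le_trans (by positivity) hκ'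
  show |inner ℝ (B.e a) x| ≤ κ' * (2 : ℝ) ^ (min (B.r a) (top : ℤ))
  rcases le_total (B.r a) (top : ℤ) with h1 | h1
  · rw [min_eq_left h1]
    exact hx' a
  · rw [min_eq_right h1, zpow_natCast]
    have h2 : |inner ℝ (B.e a) x| ≤ ‖B.e a‖ * ‖x‖ := abs_real_inner_le_norm _ _
    rw [B.e.norm_eq_one, one_mul] at h2
    refine (h2.trans (norm_le h hκ hx)).trans ?_
    rw [← mul_assoc]
    exact mul_le_mul_of_nonneg_right hκ' (by positivity)

theorem le_trn {C B : Bd N} {top : ℕ} (h : ∀ j, C.r j ≤ top) {κ : ℝ} (hκ : N ≤ κ)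
    (hB : C.le κ B) : C.le κ (trn top B) := by
  intro x hx
  rw [← Bd.mul_one] at hx
  refine mul_trn h zero_le_one hx ?_ (by rw [mul_one]; exact hκ)
  rw [Bd.mul_one] at hx
  exact hB hx

theorem trn_r_le (top : ℕ) (B : Bd N) (j : Fin N) : (trn top B).r j ≤ top := min_le_right _ _

theorem trn_r_le' (top : ℕ) (B : Bd N) (j : Fin N) : (trn top B).r j ≤ B.r j := min_le_left _ _

/-! ### Multiples -/

theorem scl_mul (a : ℤ) (B : Bd N) (κ : ℝ) : (scl a B).mul κ = B.mul (κ * 2 ^ a) := by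
  ext x
  refine forall_congr' fun j => ?_
  show |inner ℝ (B.e j) x| ≤ κ * (2 : ℝ) ^ (B.r j + a) ↔ |inner ℝ (B.e j) x| ≤ κ * 2 ^ a * 2 ^ B.r j
  rw [zpow_add₀ (by norm_num)]
  ring_nf

theorem scl_fn (a : ℤ) (B : Bd N) (j : Fin N) (x : Sp N) :
    (scl a B).fn j x = (2 : ℝ) ^ (-a) * B.fn j x := by
  rw [Bd.fn_apply, Bd.fn_apply]
  show ((2 : ℝ) ^ (B.r j + a))⁻¹ * inner ℝ (B.e j) x = 2 ^ (-a) * (((2 : ℝ) ^ B.r j)⁻¹ *
    inner ℝ (B.e j) x)
  rw [zpow_add₀ (by norm_num), mul_inv, zpow_neg]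
  ring

/-! ### Joins -/

theorem jn_le₁ (A B : Bd N) : (jn A B).le 1 A := (exists_join A B).choose_spec.1

theorem jn_le₂ (A B : Bd N) : (jn A B).le 1 B := (exists_join A B).choose_spec.2.1

theorem mul_jn (A B : Bd N) {κ : ℝ} (hκ : 0 ≤ κ) {x : Sp N} (hA : x ∈ A.mul κ) (hB : x ∈ B.mul κ) :
    x ∈ (jn A B).mul (4 * N * κ) := (exists_join A B).choose_spec.2.2 κ hκ ⟨hA, hB⟩

/-- A body is inside a multiple of a body inside it, if the sides are comparable. -/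
theorem le_of_gap {A J : Bd N} (h : J.le 1 A) {g : Fin N → ℕ} (hg : ∀ j, A.r j ≤ J.r j + g j) :
    A.le (2 ^ (cN N + ∑ j, g j)) J := by
  intro x hx b
  have hN : 0 < N := b.pos
  have hJA : Pool.LAT.Bx J.e J.s ⊆ Pool.LAT.Bx A.e A.s := by
    have := h
    rw [Bd.le, Bd.mul_one] at this
    exact this
  have h1 := coord_le A.e J.e (r := A.s) (s := J.s) A.s_pos A.s_anti J.s_pos hJA b hx b
  rw [if_neg (lt_irrefl _)] at h1
  refine h1.trans ?_
  have hr : ∀ j, A.s j / J.s j ≤ 2 ^ g j := fun j => by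
    rw [div_le_iff₀ (J.s_pos j)]
    have h2 := two_zpow_le (hg j)
    rw [zpow_add₀ (by norm_num), zpow_natCast] at h2
    rw [mul_comm]
    exact h2
  have h2 : (∏ j ∈ Iio b, A.s j / J.s j) ≤ 2 ^ (∑ j ∈ Iio b, g j) := by
    rw [← prod_pow_eq_pow_sum]
    exact prod_le_prod (fun j _ => (div_pos (A.s_pos j) (J.s_pos j)).le) fun j _ => hr j
  have h3 : A.s b ≤ 2 ^ g b * J.s b := by
    have := hr b
    rwa [div_le_iff₀ (J.s_pos b)] at this
  have h4 : (∑ j ∈ Iio b, g j) + g b ≤ ∑ j, g j := by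
    classical
    have h5 : (∑ j ∈ Iio b, g j) + g b = ∑ j ∈ Iic b, g j := by
      rw [← Iio_insert, sum_insert (by simp), add_comm]
    rw [h5]
    exact sum_le_sum_of_subset (subset_univ _)
  have h5 : (N : ℝ) ^ N * N.factorial ≤ 2 ^ cN N := by
    refine le_trans ?_ (cL_le N)
    unfold cL
    have h6 : (1 : ℝ) ≤ N := by exact_mod_cast hN
    have h7 : (0 : ℝ) ≤ (N : ℝ) ^ N * N.factorial := by positivity
    nlinarith
  calc (N : ℝ) ^ N * N.factorial * (∏ j ∈ Iio b, A.s j / J.s j) * A.s b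
      ≤ 2 ^ cN N * 2 ^ (∑ j ∈ Iio b, g j) * (2 ^ g b * J.s b) := by
        refine mul_le_mul (mul_le_mul h5 h2 ?_ (by positivity)) h3 (A.s_pos b).le (by positivity)
        exact prod_nonneg fun j _ => (div_pos (A.s_pos j) (J.s_pos j)).le
    _ = 2 ^ (cN N + (∑ j ∈ Iio b, g j + g b)) * J.s b := by
        rw [pow_add, pow_add]
        ring
    _ ≤ 2 ^ (cN N + ∑ j, g j) * J.s b := by
        refine mul_le_mul_of_nonneg_right ?_ (J.s_pos b).le
        exact pow_le_pow_right₀ (by norm_num) (by omega)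

/-! ### Nets -/

/-- The bodies of the net near a body. -/
theorem exists_net_fin (N : ℕ) (κ : ℝ) (hκ : 0 < κ) : ∃ M : ℕ, ∀ R : Bd N,
    ∃ 𝒩 : Finset (Bd N), 𝒩.card ≤ M ∧ ∀ A ∈ netS N, A.near κ R → A ∈ 𝒩 := by
  classical
  refine ⟨(Fintype.piFinset fun _ : Fin N × Fin N => Icc (-cdB N κ) (cdB N κ)).card, fun R => ?_⟩
  set T := {A : Bd N | A ∈ netS N ∧ A.near κ R} with hT
  have hinj : Set.InjOn (fun A => Bd.code κ R A) T := by
    intro A hA A' hA' h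
    exact net_code hκ hA.1 hA'.1 hA.2 hA'.2 h
  have hmaps : Set.MapsTo (fun A => Bd.code κ R A) T
      (Fintype.piFinset fun _ : Fin N × Fin N => Icc (-cdB N κ) (cdB N κ) : Finset _) := by
    intro A hA
    rw [mem_coe, Fintype.mem_piFinset]
    intro i
    exact Bd.code_le hκ.le hA.2.1 i
  have hfin : T.Finite := Set.Finite.of_injOn hmaps hinj (Finset.finite_toSet _)
  refine ⟨hfin.toFinset, ?_, fun A hA hAR => by simpa [hT] using ⟨hA, hAR⟩⟩
  refine card_le_card_of_injOn (fun A => Bd.code κ R A) (fun A hA => ?_) (fun A hA A' hA' h => ?_)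
  · exact hmaps (by simpa using hA)
  · exact hinj (by simpa using hA) (by simpa using hA') h

end Pool.GC
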