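import Pool.Agent.H15.KNH.Itf
import Pool.Agent.H58.KNB.Box
import Pool.Agent.H96.LAT.Coarse

/-!
# The class of the labels: bodies of the space of functions `V_E`

A cell: a body (a box of the dual of `V_E`, with dyadic sides and any axes) and the integer values of
its coordinates at the nodes of a window. A label at the window `w`: a cell of a sub-window (`al`
digits, the age; `sb` is the sub-window), and the size `sz` of the Jacobian of the body along the
line. A coarse cell: a cell of a window, the bound `mx` for the digits of the sub-windows, the floor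
`fl`, and a size.
-/

set_option autoImplicit false

namespace Pool.GC

open Finset Real MvPolynomial
open Pool.LAT (Bd Sp)
open Pool.KNH (LA LB Ln)
open Pool.SH (lpos)
open Pool.GEN (pnt)
open Pool.BJ (dM mnr jm JF)
open Pool.KNB (nJ mo cmb ev)

/-! ### Functions and lines -/

/-- The degree of the functions along a line. -/
def dD (m E : ℕ) : ℕ := (m + 1) * E

/-- The values of the monomials at a point. -/
noncomputable def phi {m : ℕ} (E : ℕ) (t : ℝ) (x : Fin m → ℝ) : Sp (nJ m E) :=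
  WithLp.toLp 2 fun a => eval (pnt t x) (mo a)

/-- The values of the monomials along a line. -/
noncomputable def phl {m : ℕ} (E : ℕ) (l : Ln m) (t : ℝ) : Sp (nJ m E) := phi E t (lpos l t)

/-- The window with `w` digits and the number `t`. -/
def win (w t : ℕ) : Set ℝ := Set.Icc ((t : ℝ) / 2 ^ w) (((t : ℝ) + 1) / 2 ^ w)

/-- The nodes of a window. -/
noncomputable def nod (D w t : ℕ) (i : Fin (D + 1)) : ℝ := ((t : ℝ) + (i : ℝ) / (D + 1)) / 2 ^ w

/-- The coefficients of the functions of a body. -/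
noncomputable def mB {N : ℕ} (B : Bd N) : Matrix (Fin N) (Fin N) ℝ :=
  Matrix.of fun a b => (B.s a)⁻¹ * B.e a b

/-- The functions of a body. -/
noncomputable def FB {m E : ℕ} (B : Bd (nJ m E)) :
    Fin (nJ m E) → MvPolynomial (Option (Fin m)) ℝ := cmb (mB B) mo

/-- The Jacobian of a body along a line, in a window. -/
noncomputable def SJ {m E : ℕ} (B : Bd (nJ m E)) (w t : ℕ) (l : Ln m) : ℝ :=
  sSup ((fun s => JF (FB B) (pnt s (lpos l s))) '' win w t)

/-- The depth of a body. -/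
def dep {N : ℕ} (B : Bd N) : ℕ := univ.sup fun i => (-B.r i).toNat

/-! ### Cells -/

/-- A body and the values of its coordinates at the nodes. -/
structure Cel (m E : ℕ) where
  /-- the body -/
  B : Bd (nJ m E)
  /-- the values -/
  cd : Fin (dD m E + 1) → Fin (nJ m E) → ℤ

/-- The line is in the cell, up to the factor `κ`. -/
def Cel.mem {m E : ℕ} (c : Cel m E) (κ : ℝ) (w t : ℕ) (l : Ln m) : Prop :=
  ∀ i a, |c.B.fn a (phl E l (nod (dD m E) w t i)) - c.cd i a| ≤ κ

/-- The values of the labels. -/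
structure Vl (m E : ℕ) where
  /-- the cell -/
  c : Cel m E
  /-- the age -/
  al : ℕ
  /-- the sub-window -/
  sb : ℕ
  /-- the size of the Jacobian -/
  sz : ℤ

/-- The coarse cells. -/
structure Cc (m E : ℕ) where
  /-- the cell -/
  c : Cel m E
  /-- the number of digits of the window -/
  w : ℕ
  /-- the window -/
  t : ℕ
  /-- the bound for the digits of the sub-windows -/
  mx : ℕ
  /-- the floor -/
  fl : ℕ
  /-- the size -/
  sz : ℤ

/-- The parameters of the class: `om` and `M` are the weights of the natural volume, `top` bounds the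
sides of the bodies, `fl` is the floor of the family of resolution `J`, `cd` the weight of the
depth, `cs` the weight of the size, `cH` a constant. -/
structure Par (m E : ℕ) where
  om : ℝ
  M : Fin (nJ m E) → ℝ
  top : ℕ
  fl : ℕ → ℕ
  cd : ℝ
  cs : ℕ
  cH : ℝ
  om_nonneg : 0 ≤ om
  M_nonneg : ∀ i, 0 ≤ M i
  cd_nonneg : 0 ≤ cd
  cs_pos : 1 ≤ cs
  fl_large : ∀ J : ℕ, 1 ≤ J → cd * (J : ℝ) ^ 2 ≤ fl J

/-! ### Labels -/

section

variable {m E : ℕ} (P : Par m E)

/-- The natural volume. -/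
noncomputable def Par.vol (B : Bd (nJ m E)) : ℝ := P.om * (Real.log 2 * ∑ i, P.M i * (B.r i : ℝ))

/-- The number of the sub-window of a label. -/
def Vl.sw (v : Vl m E) (t : ℕ) : ℕ := t * 2 ^ v.al + v.sb

/-- `v` is a label of the line `x` at the window `t` with `w` digits, inside the coarse cell `c`, of
range `k` and slack `a`. -/
structure okv (J w : ℕ) (c : Cc m E) (k a : ℕ) (x : Ln m) (t : ℕ) (v : Vl m E) : Prop where
  box : ∀ i, |x.1 i| ≤ 2 ∧ |x.2 i| ≤ 2
  cw : c.w ≤ w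
  win : t / 2 ^ (w - c.w) = c.t
  tlt : t < 2 ^ w
  sb : v.sb < 2 ^ v.al
  wJ : w + v.al ≤ J
  wk : w + v.al ≤ c.w + k
  wm : w + v.al ≤ c.mx
  mem : v.c.mem 1 (w + v.al) (v.sw t) x
  memc : c.c.mem (2 ^ a) c.w c.t x
  le : v.c.B.le (2 ^ a) c.c.B
  top : ∀ i, v.c.B.r i ≤ P.top
  topc : ∀ i, c.c.B.r i ≤ P.top
  fl : ∀ i, -((c.fl : ℤ) + a) ≤ v.c.B.r i
  flc : P.fl J ≤ c.fl
  sz : (2 : ℝ) ^ v.sz ≤ SJ v.c.B (w + v.al) (v.sw t) x
  sz' : SJ v.c.B (w + v.al) (v.sw t) x < 2 ^ (v.sz + 1)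

/-- The height: the bodies are comparable up to the factor `2 ^ r`, and so are the sizes. -/
def Nrr (c : Cc m E) (r : ℕ) (v : Vl m E) : Prop :=
  c.c.B.near (2 ^ r) v.c.B ∧ |c.sz - v.sz| ≤ P.cs * r

/-- The relation between two labels. -/
def subv (r : ℕ) (v v' : Vl m E) : Prop :=
  v.c.B.near (2 ^ r) v'.c.B ∧ |v.sz - v'.sz| ≤ P.cs * r ∧ dep v'.c.B ≤ dep v.c.B + r

/-- The same label at the window with `l` digits less. -/
def Vl.tr (l t : ℕ) (v : Vl m E) : Vl m E where
  c := v.c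
  al := v.al + l
  sb := t % 2 ^ l * 2 ^ v.al + v.sb
  sz := v.sz

theorem Vl.sw_tr (l t : ℕ) (v : Vl m E) : (v.tr l t).sw (t / 2 ^ l) = v.sw t := by
  unfold Vl.sw Vl.tr
  have h1 := Nat.div_add_mod t (2 ^ l)
  have h2 : t / 2 ^ l * 2 ^ (v.al + l) + (t % 2 ^ l * 2 ^ v.al + v.sb) =
      (2 ^ l * (t / 2 ^ l) + t % 2 ^ l) * 2 ^ v.al + v.sb := by
    rw [pow_add]
    ring
  show t / 2 ^ l * 2 ^ (v.al + l) + (t % 2 ^ l * 2 ^ v.al + v.sb) = t * 2 ^ v.al + v.sb
  rw [h2, h1]

theorem mem_mono {c : Cel m E} {κ κ' : ℝ} (h : κ ≤ κ') {w t : ℕ} {l : Ln m}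
    (hm : c.mem κ w t l) : c.mem κ' w t l := fun i a => (hm i a).trans h

theorem okv.mono {P : Par m E} {J w : ℕ} {c : Cc m E} {k a a' : ℕ} {x : Ln m} {t : ℕ}
    {v : Vl m E} (ha : a ≤ a') (h : okv P J w c k a x t v) : okv P J w c k a' x t v := by
  have h2 : (2 : ℝ) ^ a ≤ 2 ^ a' := pow_le_pow_right₀ (by norm_num) ha
  exact { h with
    memc := mem_mono h2 h.memc
    le := h.le.mono h2
    fl := fun i => le_trans (by omega) (h.fl i) }

theorem div_div_sub {t w l cw : ℕ} (h : cw ≤ w) : t / 2 ^ l / 2 ^ (w - cw) =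
    t / 2 ^ (w + l - cw) := by
  rw [Nat.div_div_eq_div_mul, ← pow_add]
  congr 2
  omega

/-- **The dead move.** -/
theorem okv.tr {P : Par m E} {J w l : ℕ} {c : Cc m E} {k a : ℕ} {x : Ln m} {t : ℕ}
    {v : Vl m E} (hc : c.w ≤ w) (h : okv P J (w + l) c k a x t v) :
    okv P J w c k a x (t / 2 ^ l) (v.tr l t) := by
  have hw : w + (v.tr l t).al = w + l + v.al := by
    show w + (v.al + l) = w + l + v.al
    omega
  have hs : (v.tr l t).sw (t / 2 ^ l) = v.sw t := Vl.sw_tr l t v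
  refine { box := h.box, cw := hc, win := ?_, tlt := ?_, sb := ?_, wJ := ?_, wk := ?_, wm := ?_,
           mem := ?_, memc := h.memc, le := h.le, top := h.top, topc := h.topc, fl := h.fl,
           flc := h.flc, sz := ?_, sz' := ?_ }
  · rw [div_div_sub hc]
    exact h.win
  · have h1 := h.tlt
    rw [pow_add] at h1
    exact Nat.div_lt_of_lt_mul (by rw [mul_comm]; exact h1)
  · show t % 2 ^ l * 2 ^ v.al + v.sb < 2 ^ (v.al + l)
    have h1 := h.sb
    have h2 : t % 2 ^ l < 2 ^ l := Nat.mod_lt _ (by positivity)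
    have h3 : (t % 2 ^ l + 1) * 2 ^ v.al ≤ 2 ^ l * 2 ^ v.al := Nat.mul_le_mul_right _ h2
    rw [pow_add, mul_comm (2 ^ v.al) (2 ^ l)]
    rw [add_mul, one_mul] at h3
    omega
  · rw [hw]
    exact h.wJ
  · rw [hw]
    exact h.wk
  · rw [hw]
    exact h.wm
  · rw [hw, hs]
    exact h.mem
  · rw [hw, hs]
    exact h.sz
  · rw [hw, hs]
    exact h.sz'

/-- The potential. -/
noncomputable def Par.pot (J : ℕ) (v : Vl m E) : ℝ :=
  ((m : ℝ) * J - v.sz + m * v.al) * Real.log 2 + P.vol v.c.B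

/-- Any two bodies are comparable. -/
theorem exists_near {N : ℕ} (A B : Bd N) : ∃ r : ℕ, A.near (2 ^ r) B := by
  have key : ∀ A B : Bd N, ∃ r : ℕ, A.le (2 ^ r) B := by
    intro A B
    obtain ⟨r, hr⟩ := exists_nat_gt (∑ b, ∑ a, A.s b / B.s a)
    refine ⟨r, fun x hx a => ?_⟩
    have h1 : |inner ℝ (B.e a) x| ≤ ∑ b, A.s b := by
      conv_lhs => rw [← A.e.sum_repr' x]
      rw [inner_sum]
      refine (abs_sum_le_sum_abs _ _).trans (sum_le_sum fun b _ => ?_)
      rw [inner_smul_right, abs_mul]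
      have h2 : |inner ℝ (B.e a) (A.e b)| ≤ 1 := by
        refine (abs_real_inner_le_norm _ _).trans ?_
        rw [B.e.norm_eq_one, A.e.norm_eq_one, _root_.mul_one]
      calc |inner ℝ (A.e b) x| * |inner ℝ (B.e a) (A.e b)| ≤ A.s b * 1 :=
            mul_le_mul (hx b) h2 (abs_nonneg _) (A.s_pos b).le
        _ = A.s b := _root_.mul_one _
    have h2 : (r : ℝ) ≤ 2 ^ r := by exact_mod_cast Nat.lt_two_pow_self.le
    have h3 : ∑ b, A.s b / B.s a ≤ ∑ b, ∑ a, A.s b / B.s a := by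
      refine sum_le_sum fun b _ => ?_
      exact single_le_sum (f := fun a => A.s b / B.s a)
        (fun a _ => (div_pos (A.s_pos b) (B.s_pos a)).le) (mem_univ a)
    have h4 : (∑ b, A.s b) / B.s a ≤ 2 ^ r := by
      rw [sum_div]
      linarith
    rw [div_le_iff₀ (B.s_pos a)] at h4
    exact h1.trans h4
  obtain ⟨r, hr⟩ := key A B
  obtain ⟨r', hr'⟩ := key B A
  refine ⟨max r r', hr.mono (pow_le_pow_right₀ (by norm_num) (le_max_left _ _)),
    hr'.mono (pow_le_pow_right₀ (by norm_num) (le_max_right _ _))⟩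

theorem Nrr.mono {P : Par m E} {c : Cc m E} {r r' : ℕ} {v : Vl m E} (h : Nrr P c r v)
    (hr : r ≤ r') : Nrr P c r' v := by
  refine ⟨h.1.mono (pow_le_pow_right₀ (by norm_num) hr), h.2.trans ?_⟩
  have : (P.cs : ℤ) * r ≤ P.cs * r' := by
    exact_mod_cast Nat.mul_le_mul_left _ hr
  exact this

theorem exists_Nrr (c : Cc m E) (v : Vl m E) : ∃ r : ℕ, Nrr P c r v := by
  obtain ⟨r, hr⟩ := exists_near c.c.B v.c.B
  refine ⟨max r (c.sz - v.sz).natAbs, hr.mono (pow_le_pow_right₀ (by norm_num) (le_max_left _ _)),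
    ?_⟩
  have h1 : |c.sz - v.sz| = ((c.sz - v.sz).natAbs : ℤ) := (Int.natCast_natAbs _).symm
  rw [h1]
  have h2 : (c.sz - v.sz).natAbs ≤ P.cs * max r (c.sz - v.sz).natAbs :=
    (le_max_right _ _).trans (Nat.le_mul_of_pos_left _ P.cs_pos)
  exact_mod_cast h2

open Classical in
/-- The height. -/
noncomputable def Par.hx (c : Cc m E) (v : Vl m E) : ℕ := Nat.find (exists_Nrr P c v)

theorem Par.hx_spec (c : Cc m E) (v : Vl m E) : Nrr P c (P.hx c v) v := by
  classical
  exact Nat.find_spec (exists_Nrr P c v)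

theorem Par.hx_le {c : Cc m E} {r : ℕ} {v : Vl m E} (h : Nrr P c r v) : P.hx c v ≤ r := by
  classical
  exact Nat.find_min' (exists_Nrr P c v) h

/-- **The class.** -/
noncomputable def Par.cls : LB m where
  Cx := Cc m E
  V := Vl m E
  ok := okv P
  pot := fun J _ _ _ v => P.pot J v
  age := Vl.al
  cw := fun c w => c.w ≤ w
  ok_mono := fun ha h => h.mono ha
  cw_mono := fun h h1 => h.trans h1
  tr := fun l t v => v.tr l t
  hx := P.hx
  Sub := subv P
  exc := fun c v => (P.vol c.c.B + P.cH) - P.vol v.c.B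
  dp := fun J v => P.cd * dep v.c.B / P.fl J
  dead := by
    intro J w l _ c k a x t v hc h
    refine ⟨h.tr hc, ?_⟩
    show ((m : ℝ) * J - v.sz + m * ((v.al + l : ℕ) : ℝ)) * Real.log 2 + P.vol v.c.B ≤
      ((m : ℝ) * J - v.sz + m * v.al) * Real.log 2 + P.vol v.c.B + m * (l * Real.log 2)
    push_cast
    linarith
  age_tr := fun l t v => Nat.le_add_right _ _
  age_tr_le := fun l t v => le_refl _
  hx_tr := fun c l t v => P.hx_le (P.hx_spec c v)
  hx_sub := by
    intro r v v' h c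
    obtain ⟨h1, h2⟩ := P.hx_spec c v
    refine P.hx_le ⟨?_, ?_⟩
    · have h3 := h1.trans h.1 (by positivity) (by positivity)
      rw [← pow_add] at h3
      exact h3
    · push_cast
      have h5 : |c.sz - v'.sz| ≤ |c.sz - v.sz| + |v.sz - v'.sz| := abs_sub_le _ _ _
      have h6 := h.2.1
      have e : (P.cs : ℤ) * (P.hx c v + r) = P.cs * P.hx c v + P.cs * r := by ring
      rw [e]
      linarith
  dp_nonneg := fun J v => div_nonneg (mul_nonneg P.cd_nonneg (Nat.cast_nonneg _))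
    (Nat.cast_nonneg _)
  dp_tr := fun J l t v => le_refl _
  dp_sub := by
    intro r v v' h J hJ
    show P.cd * (dep v'.c.B : ℝ) / P.fl J ≤ P.cd * (dep v.c.B : ℝ) / P.fl J + (r : ℝ) / (J : ℝ) ^ 2
    have h1 : (dep v'.c.B : ℝ) ≤ dep v.c.B + r := by exact_mod_cast h.2.2
    have h2 := P.fl_large J hJ
    have hJ0 : (0 : ℝ) < (J : ℝ) ^ 2 := by
      have : (0 : ℝ) < J := by exact_mod_cast hJ
      positivity
    have hf0 : (0 : ℝ) ≤ P.fl J := Nat.cast_nonneg _
    have hr0 : (0 : ℝ) ≤ r := Nat.cast_nonneg _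
    rcases hf0.eq_or_lt with h0 | h0
    · rw [← h0]
      simp only [div_zero, zero_add]
      positivity
    · have h3 : P.cd * (dep v'.c.B : ℝ) / P.fl J ≤ P.cd * (dep v.c.B + r) / P.fl J :=
        div_le_div_of_nonneg_right (mul_le_mul_of_nonneg_left h1 P.cd_nonneg) hf0
      have h4 : P.cd * (dep v.c.B + r) / P.fl J = P.cd * dep v.c.B / P.fl J +
          P.cd * r / P.fl J := by ring
      have h5 : P.cd * r / P.fl J ≤ r / (J : ℝ) ^ 2 := by
        rw [div_le_div_iff₀ h0 hJ0]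
        calc P.cd * (r : ℝ) * (J : ℝ) ^ 2 = (r : ℝ) * (P.cd * (J : ℝ) ^ 2) := by ring
          _ ≤ (r : ℝ) * (P.fl J : ℝ) := mul_le_mul_of_nonneg_left h2 hr0
      linarith

end

end Pool.GC
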