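import Pool.Agent.H96.GEO.Geo1

/-!
# The coarse cell of a pair: the second label, the outer cell, the number of coarse cells
-/

set_option autoImplicit false

namespace Pool.GC

open Finset Real
open Pool.LAT
open Pool.KNH (LA LB Ln GS)
open Pool.KNB (nJ)

variable {m E : ℕ} {P : Par m E} {b : BP} {Cg g : ℕ}

section pair

variable {J w l : ℕ} {c : Cc m E} {k a : ℕ} {x : Ln m} {t t₀ t₁ : ℕ} {v v₀ v₁ : Vl m E}

theorem rln_ok (h : okv P J w c k a x t v) :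
    okv P J w c k a (rln P J w c k a t v) t v := by
  have h1 : ∃ x, okv P J w c k a x t v := ⟨x, h⟩
  unfold rln
  rw [dif_pos h1]
  exact h1.choose_spec

theorem two_le_rg (hP : Cst P b Cg g) (v₀ v₁ : Vl m E) :
    2 * qq l v₁.al ≤ rgv b (shv b l v₀ v₁) := by
  show 2 * qq l v₁.al ≤ qq l v₁.al * (b.A₁ + b.A₂ * ∑ j, (shv b l v₀ v₁).gu j)
  have h1 := hP.A₁
  rw [mul_comm 2]
  refine Nat.mul_le_mul_left _ ?_
  have : 10 ≤ b.A₁ := by omega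
  omega

/-- The line is in the coarse cell. -/
theorem Pr.memc₀ (hC : Cur m E Cg) (hP : Cst P b Cg g) (h : Pr P J w l c k a x t₀ t₁ v₀ v₁) :
    (crv P b J w l c k a t₀ v₀ (shv b l v₀ v₁)).c.mem (2 ^ (2 * nJ m E + Cg + 5)) w
      (t₀ / 2 ^ l) x := by
  intro i j
  show |(crB P b a c.c.B v₀.c.B (shv b l v₀ v₁)).fn j (phl E x (nod (dD m E) w (t₀ / 2 ^ l) i)) -
    ((⌊(crB P b a c.c.B v₀.c.B (shv b l v₀ v₁)).fn j
      (phl E (rln P J (w + l) c k a t₀ v₀) (nod (dD m E) w (t₀ / 2 ^ l) i))⌋ : ℤ) : ℝ)| ≤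
    2 ^ (2 * nJ m E + Cg + 5)
  have h1 := two_cr (b := b) hC hP h.l1 h.cw h.ok₀ (rln_ok h.ok₀) (sh := shv b l v₀ v₁)
    h.q_eq.symm (hC.nod_mem w (t₀ / 2 ^ l) i)
  rw [Bd.mem_mul_iff] at h1
  have h2 := h1 j
  rw [sub_fn] at h2
  obtain ⟨y, hy⟩ : ∃ y, y = (crB P b a c.c.B v₀.c.B (shv b l v₀ v₁)).fn j
    (phl E x (nod (dD m E) w (t₀ / 2 ^ l) i)) := ⟨_, rfl⟩
  obtain ⟨y', hy'⟩ : ∃ y', y' = (crB P b a c.c.B v₀.c.B (shv b l v₀ v₁)).fn j
    (phl E (rln P J (w + l) c k a t₀ v₀) (nod (dD m E) w (t₀ / 2 ^ l) i)) := ⟨_, rfl⟩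
  rw [← hy, ← hy'] at h2 ⊢
  have h3 := Int.floor_le y'
  have h4 := Int.lt_floor_add_one y'
  have h5 : |y - (⌊y'⌋ : ℝ)| ≤ |y - y'| + 1 := by
    have e1 := abs_sub_le y y' (⌊y'⌋ : ℝ)
    have e2 : |y' - (⌊y'⌋ : ℝ)| ≤ 1 := by
      rw [abs_le]
      constructor <;> linarith
    linarith
  have h6 : (2 : ℝ) ^ (nJ m E + Cg + 4) + 1 ≤ 2 ^ (2 * nJ m E + Cg + 5) := by
    have e1 : (1 : ℝ) ≤ 2 ^ (nJ m E + Cg + 4) := one_le_pow₀ (by norm_num)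
    have e2 : (2 : ℝ) ^ (nJ m E + Cg + 4 + 1) ≤ 2 ^ (2 * nJ m E + Cg + 5) :=
      pow_le_pow_right₀ (by norm_num) (by omega)
    rw [pow_succ] at e2
    linarith
  linarith

theorem Pr.memc (hC : Cur m E Cg) (hP : Cst P b Cg g) (h : Pr P J w l c k a x t₀ t₁ v₀ v₁) :
    (crv P b J w l c k a t₀ v₀ (shv b l v₀ v₁)).c.mem (2 ^ g) w (t₀ / 2 ^ l) x :=
  mem_mono (pow_le_pow_right₀ (by norm_num) hP.g) (h.memc₀ hC hP)

/-- **(alpha)** -/
theorem Pr.alpha (hC : Cur m E Cg) (hP : Cst P b Cg g) (h : Pr P J w l c k a x t₀ t₁ v₀ v₁) :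
    okv P J (w + l) (crv P b J w l c k a t₀ v₀ (shv b l v₀ v₁)) (rgv b (shv b l v₀ v₁)) g x t₁
      v₁ where
  box := h.ok₁.box
  cw := Nat.le_add_right w l
  win := by
    show t₁ / 2 ^ (w + l - w) = t₀ / 2 ^ l
    rw [Nat.add_sub_cancel_left, h.tt]
  tlt := h.ok₁.tlt
  sb := h.ok₁.sb
  wJ := h.ok₁.wJ
  wk := by
    show w + l + v₁.al ≤ w + rgv b (shv b l v₀ v₁)
    have h1 := two_le_rg (l := l) hP v₀ v₁
    have h2 := lt_qq h.l1 v₁.al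
    omega
  wm := le_min h.ok₁.wk h.ok₁.wm
  mem := h.ok₁.mem
  memc := h.memc hC hP
  le := h.le_cr.mono (pow_le_pow_right₀ (by norm_num) (by have := hP.g; omega))
  top := h.ok₁.top
  topc := fun j => trn_r_le _ _ j
  fl := fun j => by
    show -(((c.fl + a : ℕ) : ℤ) + g) ≤ v₁.c.B.r j
    have := h.ok₁.fl j
    push_cast
    linarith [(Nat.cast_nonneg g : (0 : ℤ) ≤ g)]
  flc := by
    show P.fl J ≤ c.fl + a
    have := h.ok₁.flc
    omega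
  sz := h.ok₁.sz
  sz' := h.ok₁.sz'

/-- **(beta)** -/
theorem Pr.beta (hP : Cst P b Cg g) (h : Pr P J w l c k a x t₀ t₁ v₀ v₁) {a' : ℕ}
    (hv : okv P J w (crv P b J w l c k a t₀ v₀ (shv b l v₀ v₁)) (rgv b (shv b l v₀ v₁)) a' x
      (t₁ / 2 ^ l) v) : okv P J w c k (a + a' + g) x (t₁ / 2 ^ l) v where
  box := hv.box
  cw := h.cw
  win := by
    rw [div_div_sub h.cw]
    exact h.ok₁.win
  tlt := hv.tlt
  sb := hv.sb
  wJ := hv.wJ
  wk := hv.wm.trans (min_le_left _ _)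
  wm := hv.wm.trans (min_le_right _ _)
  mem := hv.mem
  memc := mem_mono (pow_le_pow_right₀ (by norm_num) (by omega)) h.ok₁.memc
  le := by
    have h1 := hv.le.trans (crB_le₂ P b a c.c.B v₀.c.B (shv b l v₀ v₁)) (by positivity)
    rw [← pow_add] at h1
    exact h1.mono (pow_le_pow_right₀ (by norm_num) (by have := hP.g; omega))
  top := hv.top
  topc := h.ok₁.topc
  fl := fun j => by
    have h1 : -(((c.fl + a : ℕ) : ℤ) + a') ≤ v.c.B.r j := hv.fl j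
    push_cast at h1 ⊢
    linarith [(Nat.cast_nonneg g : (0 : ℤ) ≤ g)]
  flc := h.ok₁.flc
  sz := hv.sz
  sz' := hv.sz'

/-- The distance to a line of the second label. -/
theorem Pr.two_cr₁ (hC : Cur m E Cg) (hP : Cst P b Cg g) (h : Pr P J w l c k a x t₀ t₁ v₀ v₁)
    {x' : Ln m} (h' : okv P J (w + l) c k a x' t₁ v₁) {s : ℝ} (hs : s ∈ win w (t₁ / 2 ^ l)) :
    phl E x s - phl E x' s ∈ (crB P b a c.c.B v₀.c.B (shv b l v₀ v₁)).mul
      (2 ^ (2 * nJ m E + Cg + 4)) := by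
  rcases Nat.eq_zero_or_pos (nJ m E) with h0 | h0
  · intro j
    exact absurd j.2 (by omega)
  have hN1 : (1 : ℝ) ≤ (nJ m E : ℕ) := by exact_mod_cast h0
  have h1 := two_up hC hP h.l1 h.ok₁ h' hs
  have h2 : phl E x s - phl E x' s ∈
      ((upB b.A₀ (qq l v₁.al) v₀.c.B).crs
        (grw fun j => qq l v₁.al * (shv b l v₀ v₁).gu j)).mul (nJ m E : ℕ) := by
    have e1 := Bd.le_crs (upB b.A₀ (qq l v₁.al) v₁.c.B)
      (grw fun j => qq l v₁.al * (shv b l v₀ v₁).gu j) h1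
    rw [Bd.mul_one] at e1
    exact h.crs.1 e1
  have hT : t₁ / 2 ^ l / 2 ^ (w - c.w) = c.t := by
    rw [div_div_sub h.cw]
    exact h.ok₁.win
  have h3 := scl_two_c (two_c hC (by positivity) h.ok₁.memc h'.memc h.cw hT hs)
  have hk : (1 : ℝ) ≤ 2 ^ (Cg + 1) := one_le_pow₀ (by norm_num)
  have h4 := net_jn_mul _ _ (κ := (nJ m E : ℕ) * 2 ^ (Cg + 1)) (by positivity)
    (Bd.mul_mono (by nlinarith) _ h2) (Bd.mul_mono (by nlinarith) _ h3)
  have h5 : (8 : ℝ) * (nJ m E : ℕ) * ((nJ m E : ℕ) * 2 ^ (Cg + 1)) ≤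
      2 ^ (2 * nJ m E + Cg + 4) := by
    have e : (2 : ℝ) ^ (2 * nJ m E + Cg + 4) = 8 * 2 ^ nJ m E * (2 ^ nJ m E * 2 ^ (Cg + 1)) := by
      rw [pow_add, pow_add, two_mul, pow_add, pow_succ]
      ring
    rw [e]
    exact mul_le_mul (mul_le_mul_of_nonneg_left (nat_le_two_pow _) (by norm_num))
      (mul_le_mul_of_nonneg_right (nat_le_two_pow _) (by positivity)) (by positivity)
      (by positivity)
  refine mem_trn (Bd.mul_mono h5 _ h4) ?_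
  have hTl : t₁ / 2 ^ l < 2 ^ w := by
    have h6 := h.ok₁.tlt
    rw [pow_add] at h6
    exact Nat.div_lt_of_lt_mul (by rw [mul_comm]; exact h6)
  refine (norm_phl hC h.ok₁.box h'.box hTl hs).trans ?_
  have h7 : (1 : ℝ) ≤ 2 ^ P.top := one_le_pow₀ (by norm_num)
  have h8 : (2 : ℝ) ^ (Cg + 1) ≤ 2 ^ (2 * nJ m E + Cg + 4) :=
    pow_le_pow_right₀ (by norm_num) (by omega)
  calc (2 : ℝ) ^ (Cg + 1) ≤ 2 ^ (2 * nJ m E + Cg + 4) * 1 := by linarith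
    _ ≤ 2 ^ (2 * nJ m E + Cg + 4) * 2 ^ P.top := mul_le_mul_of_nonneg_left h7 (by positivity)

/-- The coarse body, from the second label. -/
theorem Pr.net_near (h : Pr P J w l c k a x t₀ t₁ v₀ v₁) :
    (jn ((upB b.A₀ (qq l v₁.al) v₀.c.B).crs (grw fun j => qq l v₁.al * (shv b l v₀ v₁).gu j))
      (scl a c.c.B)).net.near (8 * (nJ m E : ℕ) * (nJ m E : ℕ) + 1)
    (jn ((upB b.A₀ (qq l v₁.al) v₁.c.B).crs (grw fun j => qq l v₁.al * (shv b l v₀ v₁).gu j))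
      (scl a c.c.B)) := by
  rcases Nat.eq_zero_or_pos (nJ m E) with h0 | h0
  · exact ⟨fun u _ j => absurd j.2 (by omega), fun u _ j => absurd j.2 (by omega)⟩
  have hN1 : (1 : ℝ) ≤ (nJ m E : ℕ) := by exact_mod_cast h0
  have hN0 : (0 : ℝ) ≤ (nJ m E : ℕ) := by linarith
  have key : ∀ A A' C : Bd (nJ m E), A.le (nJ m E : ℕ) A' →
      (jn A C).le (4 * (nJ m E : ℕ) * (nJ m E : ℕ)) (jn A' C) := by
    intro A A' C hA u hu
    have e1 := (jn_le₁ A C).trans hA (by norm_num)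
    rw [one_mul] at e1
    exact mul_jn A' C hN0 (e1 hu) (Bd.mul_mono hN1 _ (jn_le₂ A C hu))
  have h1 := key _ _ (scl a c.c.B) (h.crs (b := b)).1
  have h2 := key _ _ (scl a c.c.B) (h.crs (b := b)).2
  have h3 : (4 * (nJ m E : ℕ) * (nJ m E : ℕ) : ℝ) > 0 := by positivity
  have h4 := (Bd.net_near (jn ((upB b.A₀ (qq l v₁.al) v₀.c.B).crs
    (grw fun j => qq l v₁.al * (shv b l v₀ v₁).gu j)) (scl a c.c.B))).trans ⟨h2, h1⟩
    (by norm_num) h3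
  refine h4.mono ?_
  linarith

end pair

/-- **(gamma)** The number of coarse cells. -/
theorem gamma (hC : Cur m E Cg) : ∃ M : ℕ, ∀ (P : Par m E) (b : BP) (g : ℕ),
    Cst P b Cg g → ∀ (J w l : ℕ) (c : Cc m E) (k a t₁ : ℕ) (v₁ : Vl m E)
      (s : ShV (nJ m E)), ∃ 𝒞 : Finset (Cc m E), 𝒞.card ≤ M ∧
    ∀ (x : Ln m) (t₀ : ℕ) (v₀ : Vl m E), Pr P J w l c k a x t₀ t₁ v₀ v₁ →
      shv b l v₀ v₁ = s → crv P b J w l c k a t₀ v₀ s ∈ 𝒞 := by
  classical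
  obtain ⟨M, hM⟩ := exists_net_fin (nJ m E) (8 * (nJ m E : ℕ) * (nJ m E : ℕ) + 1) (by positivity)
  obtain ⟨K, hK⟩ : ∃ K : ℤ, K = 2 ^ (2 * nJ m E + Cg + 5) + 1 := ⟨_, rfl⟩
  refine ⟨M * (Fintype.piFinset fun _ : Fin (dD m E + 1) =>
    Fintype.piFinset fun _ : Fin (nJ m E) => Icc (-K) K).card, ?_⟩
  intro P b g hP J w l c k a t₁ v₁ s
  obtain ⟨𝒩, h𝒩, hin⟩ := hM (jn ((upB b.A₀ s.q v₁.c.B).crs (grw fun j => s.q * s.gu j))
    (scl a c.c.B))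
  refine ⟨(𝒩 ×ˢ (Fintype.piFinset fun _ : Fin (dD m E + 1) =>
    Fintype.piFinset fun _ : Fin (nJ m E) => Icc (-K) K)).image (fun q =>
      { c := { B := trn P.top q.1
               cd := fun i j => ⌊(trn P.top q.1).fn j (phl E (rln P J (w + l) c k a t₁ v₁)
                (nod (dD m E) w (t₁ / 2 ^ l) i))⌋ + q.2 i j }
        w := w
        t := t₁ / 2 ^ l
        mx := min (c.w + k) c.mx
        fl := c.fl + a
        sz := s.q * (v₁.sz / (s.q : ℤ) + s.dz) }), ?_, ?_⟩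
  · refine card_image_le.trans ?_
    rw [card_product]
    exact Nat.mul_le_mul_right _ h𝒩
  · intro x t₀ v₀ h hs
    subst hs
    rw [mem_image]
    refine ⟨((jn ((upB b.A₀ (qq l v₁.al) v₀.c.B).crs
      (grw fun j => qq l v₁.al * (shv b l v₀ v₁).gu j)) (scl a c.c.B)).net,
      fun i j => (crv P b J w l c k a t₀ v₀ (shv b l v₀ v₁)).c.cd i j -
        ⌊(crB P b a c.c.B v₀.c.B (shv b l v₀ v₁)).fn j (phl E (rln P J (w + l) c k a t₁ v₁)
                (nod (dD m E) w (t₁ / 2 ^ l) i))⌋), ?_, ?_⟩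
    · rw [mem_product]
      refine ⟨hin _ (Bd.net_mem _) h.net_near, ?_⟩
      rw [Fintype.mem_piFinset]
      intro i
      rw [Fintype.mem_piFinset]
      intro j
      have hnod := hC.nod_mem w (t₁ / 2 ^ l) i
      have h1 := two_cr (b := b) hC hP h.l1 h.cw (rln_ok h.ok₀) h.ok₀ (sh := shv b l v₀ v₁)
        h.q_eq.symm (s := nod (dD m E) w (t₁ / 2 ^ l) i) (by rw [h.tt]; exact hnod)
      have h2 := h.two_cr₁ (b := b) hC hP (rln_ok h.ok₁) hnod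
      rw [Bd.mem_mul_iff] at h1 h2
      have h3 := h1 j
      have h4 := h2 j
      rw [sub_fn] at h3 h4
      show ⌊(crB P b a c.c.B v₀.c.B (shv b l v₀ v₁)).fn j
        (phl E (rln P J (w + l) c k a t₀ v₀) (nod (dD m E) w (t₀ / 2 ^ l) i))⌋ -
        ⌊(crB P b a c.c.B v₀.c.B (shv b l v₀ v₁)).fn j (phl E (rln P J (w + l) c k a t₁ v₁)
                (nod (dD m E) w (t₁ / 2 ^ l) i))⌋ ∈ Icc (-K) K
      rw [h.tt]
      obtain ⟨y, hy⟩ : ∃ y, y = (crB P b a c.c.B v₀.c.B (shv b l v₀ v₁)).fn j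
        (phl E (rln P J (w + l) c k a t₀ v₀) (nod (dD m E) w (t₁ / 2 ^ l) i)) := ⟨_, rfl⟩
      obtain ⟨y', hy'⟩ : ∃ y', y' = (crB P b a c.c.B v₀.c.B (shv b l v₀ v₁)).fn j
        (phl E (rln P J (w + l) c k a t₁ v₁) (nod (dD m E) w (t₁ / 2 ^ l) i)) := ⟨_, rfl⟩
      obtain ⟨y'', hy''⟩ : ∃ y'', y'' = (crB P b a c.c.B v₀.c.B (shv b l v₀ v₁)).fn j
        (phl E x (nod (dD m E) w (t₁ / 2 ^ l) i)) := ⟨_, rfl⟩
      rw [← hy, ← hy'] 
      rw [← hy, ← hy''] at h3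
      rw [← hy', ← hy''] at h4
      have e1 : |y - y'| ≤ 2 ^ (2 * nJ m E + Cg + 5) := by
        have f1 := abs_sub_le y y'' y'
        have f2 : (2 : ℝ) ^ (nJ m E + Cg + 4) ≤ 2 ^ (2 * nJ m E + Cg + 4) :=
          pow_le_pow_right₀ (by norm_num) (by omega)
        have f3 : (2 : ℝ) ^ (2 * nJ m E + Cg + 5) = 2 ^ (2 * nJ m E + Cg + 4) * 2 := pow_succ _ _
        rw [f3]
        linarith
      have e2 := Int.floor_le y
      have e3 := Int.lt_floor_add_one y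
      have e4 := Int.floor_le y'
      have e5 := Int.lt_floor_add_one y'
      rw [abs_le] at e1
      rw [mem_Icc, hK]
      constructor
      · have : (-((2 : ℝ) ^ (2 * nJ m E + Cg + 5) + 1)) ≤ (⌊y⌋ : ℝ) - ⌊y'⌋ := by linarith
        exact_mod_cast this
      · have : (⌊y⌋ : ℝ) - ⌊y'⌋ ≤ (2 : ℝ) ^ (2 * nJ m E + Cg + 5) + 1 := by linarith
        exact_mod_cast this
    · unfold crv
      have hB : trn P.top (jn ((upB b.A₀ (qq l v₁.al) v₀.c.B).crs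
        (grw fun j => qq l v₁.al * (shv b l v₀ v₁).gu j)) (scl a c.c.B)).net =
        crB P b a c.c.B v₀.c.B (shv b l v₀ v₁) := rfl
      simp only [hB, h.tt, Cc.mk.injEq, Cel.mk.injEq, true_and]
      refine ⟨?_, ?_⟩
      · funext i j
        ring
      · show (qq l v₁.al : ℤ) * (v₁.sz / (qq l v₁.al : ℤ) +
          (v₀.sz / (qq l v₁.al : ℤ) - v₁.sz / (qq l v₁.al : ℤ))) =
          (qq l v₁.al : ℤ) * (v₀.sz / (qq l v₁.al : ℤ))
        ring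

end Pool.GC
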