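import Pool.Agent.H96.GEO.Geo4

/-!
# The geometry of the class
-/

set_option autoImplicit false

namespace Pool.GC

open Finset Real
open Pool.LAT
open Pool.KNH (LA LB Ln GS Kraft)
open Pool.KNB (nJ)

variable {m E : ℕ} {P : Par m E} {b : BP} {Cg g : ℕ}

theorem log_nat_mono {n M : ℕ} (h : n ≤ M) : Real.log n ≤ Real.log M := by
  rcases Nat.eq_zero_or_pos n with h3 | h3
  · rw [h3]
    simpa using Real.log_natCast_nonneg M
  · exact Real.log_le_log (by exact_mod_cast h3) (by exact_mod_cast h)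

/-- The natural volume of a smaller body. -/
theorem vol_le (P : Par m E) {A B : Bd (nJ m E)} {n : ℕ} (h : A.le (2 ^ n) B) :
    P.vol A ≤ P.vol B + P.om * (Real.log 2 * ((∑ i, P.M i) * (n + nJ m E))) := by
  unfold Par.vol
  rw [← mul_add, ← mul_add]
  refine mul_le_mul_of_nonneg_left (mul_le_mul_of_nonneg_left ?_ (Real.log_nonneg (by norm_num)))
    P.om_nonneg
  rw [sum_mul, ← sum_add_distrib]
  refine sum_le_sum fun i _ => ?_
  rw [← mul_add]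
  refine mul_le_mul_of_nonneg_left ?_ (P.M_nonneg i)
  have h1 := s_le_r h i
  have h2 : ((A.r i : ℤ) : ℝ) ≤ ((B.r i + n + nJ m E : ℤ) : ℝ) := by exact_mod_cast h1
  push_cast at h2
  linarith

/-- The constant of the codes. -/
noncomputable def codeC (P : Par m E) (b : BP) : ℝ :=
  4 * (nJ m E + 2) * (2 * (8 * P.cs + 3 * nJ m E + b.A₀ + 16) + 1)

/-- **(GEO)** -/
theorem geo (hC : Cur m E Cg) : ∃ M : ℝ, 0 ≤ M ∧ ∀ (P : Par m E) (b : BP) (g : ℕ) (C : ℝ),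
    Cst P b Cg g → codeC P b ≤ C → M ≤ C →
    P.om * (Real.log 2 * ((∑ i, P.M i) * (g + nJ m E))) ≤ P.cH →
    P.cls.Geo (P.gs b) C g := by
  obtain ⟨M, hM⟩ := gamma hC
  refine ⟨Real.log M, Real.log_natCast_nonneg _, ?_⟩
  intro P b g C hP hcC hMC hcH
  have hC0 : 0 ≤ C := (Real.log_natCast_nonneg _).trans hMC
  have hl2 : 0 < Real.log 2 := Real.log_pos (by norm_num)
  have lgp : ∀ (l k : ℕ) (c : Cc m E) (v : Vl m E), 1 ≤ l →
      0 ≤ Real.log (2 + ((k : ℝ) + P.hx c v) / ((l : ℝ) + v.al)) := by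
    intro l k c v hl
    have h1 := (xx_of (P := P) hl c k v).X0
    exact Real.log_nonneg (by linarith)
  have cle : (4 * (nJ m E + 2) * (2 * (2 * nJ m E + 3) + 1) : ℝ) ≤ C := by
    refine le_trans ?_ hcC
    unfold codeC
    have h1 : (0 : ℝ) ≤ (nJ m E : ℕ) := Nat.cast_nonneg _
    have h2 : (0 : ℝ) ≤ (P.cs : ℕ) := Nat.cast_nonneg _
    have h3 : (0 : ℝ) ≤ (b.A₀ : ℕ) := Nat.cast_nonneg _
    exact mul_le_mul_of_nonneg_left (by linarith) (by positivity)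
  refine ⟨⟨?_, ?_, ?_, ?_, ?_, ?_, ?_⟩, ?_, ?_⟩
  · intro J w c k a x t v hcw h
    have h1 : w + v.al ≤ c.w + k := h.wk
    have h2 : c.w ≤ w := hcw
    show v.al ≤ k
    omega
  · intro J w l c k a hl hwJ hcw
    obtain ⟨q, hq, hh⟩ := ty_code P w l c k hl hcw
    refine ⟨q, hq, fun x t v h => ?_⟩
    obtain ⟨h1, h2⟩ := hh J a x t v h
    exact ⟨h1, h2.trans (mul_le_mul_of_nonneg_right cle (lgp l k c v hl))⟩
  · intro J w l c k a hl hwJ hcw
    obtain ⟨q, hq, hh⟩ := sh_code P b w l c k hl hcw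
    refine ⟨q, hq, fun x t₀ t₁ v₀ v₁ h => ?_⟩
    obtain ⟨h1, h2, h3⟩ := hh J a x t₀ t₁ v₀ v₁ (pr_of hl hwJ h)
    exact ⟨h1, h2.trans (mul_le_mul_of_nonneg_right hcC (lgp l k c v₀ hl)),
      h3.trans (mul_le_mul_of_nonneg_right hcC (lgp l k c v₁ hl))⟩
  · intro J w l c k a t₀ v₀ s
    exact le_refl w
  · intro J w l c k a hl hwJ x t₀ t₁ v₀ v₁ h
    exact (pr_of hl hwJ h).alpha hC hP
  · intro J w l c k a a' hl hwJ x t₀ t₁ v₀ v₁ v h hv
    exact (pr_of hl hwJ h).beta hP hv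
  · intro J w l c k a hl hwJ hcw t₁ v₁ s
    obtain ⟨𝒞, h1, h2⟩ := hM P b g hP J w l c k a t₁ v₁ s
    refine ⟨𝒞, ?_, fun x t₀ v₀ h hs => h2 x t₀ v₀ (pr_of hl hwJ h) hs⟩
    exact (log_nat_mono h1).trans hMC
  · intro J w l c k a hl hwJ x t₀ t₁ v₀ v₁ h
    exact (pr_of hl hwJ h).hx_le hC hP
  · intro J w c k x t v hcw h
    show -C ≤ (P.vol c.c.B + P.cH) - P.vol v.c.B
    have h1 := vol_le P h.le
    linarith

end Pool.GC
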