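import Pool.Agent.H96.GEO.Tf4

/-!
# The turning step for the class
-/

set_option autoImplicit false

namespace Pool.GC

open Finset Real
open Pool.LAT
open Pool.KNH (LA LB Ln GS ndc)
open Pool.KNB (nJ)
open Pool.TRN (TD TF)
open Pool.Agent.H49.Ent Pool.Agent.H32.Dense Pool.STK Pool.KA

variable {m E : ℕ} {P : Par m E} {b : BP} {Cg g : ℕ}

/-- **(TURN)** The turning step for the class: `A`, `ρ'`, `C'` are the constants of `LB.Turn`. -/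
theorem turn_cls (hC : Cur m E Cg) (hP : Cst P b Cg g) {κ : ℝ} (hcd : Cdc P b κ) (hv : Ccv P g)
    {c' a' ρ u C : ℝ} (hW : Wts P b c' a' ρ u) (hc : 0 ≤ c')
    (hc0 : (cTF m E Cg b : ℝ) + c' ≤ C) (hG : P.cls.Geo (P.gs b) C g)
    (h1 : Cnt1 P b κ C) (h0 : Cnt0 P b κ C)
    (hB : ∀ ε : ℝ, 0 < ε → ∃ k₀ : ℕ, (P.td b κ).Box ε k₀)
    (ha : 1 ≤ a') (hρ0 : 0 ≤ ρ) (hρ : ρ ≤ 1 / 4) (hu0 : 0 ≤ u) (hu1 : u ≤ 1)
    {σ : ℝ} (hσ : 0 ≤ σ) :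
    ∃ l₀ : ℕ, P.cls.Turn (P.gs b) (a' * (12 * C + 8)) ((12 * C + 6) * ρ + 2 * C * u)
      (4 * a' * C) σ κ (1 / (32 * (a' * ((b.cA + 1 : ℕ) : ℝ)))) g l₀ := by
  have hC0 : 0 ≤ C := by
    have : (0 : ℝ) ≤ (cTF m E Cg b : ℝ) := Nat.cast_nonneg _
    linarith
  obtain ⟨l₀, hl₀⟩ := TRN.turn hG.geo (tf hC hP hcd hv hW hc hc0 h1 h0) hC0 hC0 ha hρ0 hρ hu0 hu1
    (Nat.succ_le_succ (Nat.zero_le _)) hB κ (fun l k a c v => by
      refine mul_nonneg hC0 (Real.log_nonneg ?_)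
      have : (0 : ℝ) ≤ ((k : ℝ) + P.cls.hx c v) / ((l : ℝ) + P.cls.age v) := by positivity
      linarith)
  refine ⟨l₀, ?_⟩
  intro J w l hl hl0 hw F c hcw pn hpn k a b' hok hnd D _ hget
  have h := hl₀ J w l hl hl0 hw F c hcw k a σ (1 / (32 * (a' * ((b.cA + 1 : ℕ) : ℝ)))) hσ (by positivity) le_rfl pn hpn b'
    hok hnd D hget
  have e1 : (P.cls.wid F l b' : ℝ) = l + Ex F.p (fun ω => (P.cls.age (b' ω) : ℝ)) := by
    show Ex F.p (fun ω => (l : ℝ) + P.cls.age (b' ω)) = _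
    rw [Ex_add, Ex_const F.isLaw.sum_one]
  have e2 : Ex F.p (fun ω => C * P.cls.lgv l k (c (F.Z ω)) (b' ω)) = C * P.cls.cod F l c k b' :=
    Pool.KNH.Ex_cmul _ _ _
  rw [e2, ← e1, ← mul_assoc] at h
  exact h

end Pool.GC
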