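import Pool.Agent.H96.GEO.Pr

/-!
# The coarse cell of a pair
-/

set_option autoImplicit false

namespace Pool.GC

open Finset Real
open Pool.LAT
open Pool.KNH (LA LB Ln GS)
open Pool.KNB (nJ)

variable {m E : ℕ} {P : Par m E} {b : BP} {Cg g : ℕ}

/-- The inequalities between the constants. -/
structure Cst (P : Par m E) (b : BP) (Cg g : ℕ) : Prop where
  A₀ : Cg + 1 + 2 * dD m E ≤ b.A₀
  A₁ : 8 * Cg + m * (1 + b.A₀ + cN (nJ m E)) + nJ m E * (cN (nJ m E) + 2) + b.A₀ + g + 10 ≤ b.A₁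
  A₁' : 20 * Cg + (m + 1) * (nJ m E + 1) * (2 * cN (nJ m E) + 2 * b.A₀ + 10) + g + b.c₁ + b.c₂ +
    m * b.c₄ + 20 ≤ b.A₁
  A₂ : m + nJ m E + 2 ≤ b.A₂
  A₂' : m * nJ m E + 2 * m + nJ m E + 4 ≤ b.A₂
  g' : b.a₀ + 4 * nJ m E + 8 ≤ g
  gg : 2 * nJ m E + Cg + 5 ≤ b.g₀
  gfl : 3 * nJ m E + 3 ≤ b.g₀
  c₄ : 2 * nJ m E + Cg + 4 ≤ b.c₄
  top : Cg ≤ P.top
  top' : Cg + 2 ≤ P.top
  c₂ : 4 * nJ m E + 6 ≤ b.c₂
  c₃ : 2 * m + 3 * Cg + m * g + 4 ≤ b.c₃
  c₅ : b.c₅ = 0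
  cs : 2 * m + 4 * Cg + 4 ≤ P.cs
  g : 2 * nJ m E + Cg + 5 ≤ g

theorem nat_le_two_pow (N : ℕ) : (N : ℝ) ≤ 2 ^ N := by exact_mod_cast Nat.lt_two_pow_self.le

/-! ### Windows -/

theorem win_sub {w d t t' : ℕ} (h : t' / 2 ^ d = t) : win (w + d) t' ⊆ win w t := by
  have hd : (0 : ℝ) < 2 ^ d := by positivity
  have hw : (0 : ℝ) < 2 ^ w := by positivity
  have h1 : t * 2 ^ d ≤ t' := by
    rw [← h]
    exact Nat.div_mul_le_self _ _
  have h2 : t' + 1 ≤ (t + 1) * 2 ^ d := by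
    rw [← h]
    have := Nat.lt_div_mul_add (a := t') (b := 2 ^ d) (by positivity)
    rw [add_mul, one_mul]
    omega
  have h1' : (t : ℝ) * 2 ^ d ≤ t' := by exact_mod_cast h1
  have h2' : (t' : ℝ) + 1 ≤ (t + 1) * 2 ^ d := by exact_mod_cast h2
  refine Set.Icc_subset_Icc ?_ ?_
  · rw [pow_add, div_le_div_iff₀ hw (by positivity)]
    calc (t : ℝ) * (2 ^ w * 2 ^ d) = t * 2 ^ d * 2 ^ w := by ring
      _ ≤ t' * 2 ^ w := mul_le_mul_of_nonneg_right h1' hw.le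
  · rw [pow_add, div_le_div_iff₀ (by positivity) hw]
    calc ((t' : ℝ) + 1) * 2 ^ w ≤ (t + 1) * 2 ^ d * 2 ^ w :=
          mul_le_mul_of_nonneg_right h2' hw.le
      _ = (t + 1) * (2 ^ w * 2 ^ d) := by ring

theorem win_unit {w t : ℕ} (h : t < 2 ^ w) : win w t ⊆ Set.Icc 0 1 := by
  have hw : (0 : ℝ) < 2 ^ w := by positivity
  refine Set.Icc_subset_Icc (by positivity) ?_
  rw [div_le_one hw]
  exact_mod_cast h

theorem sw_div {v : Vl m E} {t : ℕ} (h : v.sb < 2 ^ v.al) : v.sw t / 2 ^ v.al = t := by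
  unfold Vl.sw
  rw [add_comm, Nat.add_mul_div_right _ _ (by positivity), Nat.div_eq_of_lt h, zero_add]

theorem sw_div' {v : Vl m E} {t l : ℕ} (h : v.sb < 2 ^ v.al) :
    v.sw t / 2 ^ (l + v.al) = t / 2 ^ l := by
  rw [add_comm l, pow_add, ← Nat.div_div_eq_div_mul, sw_div h]

/-! ### Two lines of a label -/

section lines

variable {J w l : ℕ} {c : Cc m E} {k a : ℕ} {x x' : Ln m} {t : ℕ} {v : Vl m E}

theorem sub_fn (B : Bd (nJ m E)) (a : Fin (nJ m E)) (u u' : Sp (nJ m E)) :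
    B.fn a (u - u') = B.fn a u - B.fn a u' := map_sub _ _ _

/-- Two lines of a label: the body of the label. -/
theorem two_up (hC : Cur m E Cg) (hP : Cst P b Cg g) (hl : 1 ≤ l)
    (h : okv P J (w + l) c k a x t v) (h' : okv P J (w + l) c k a x' t v) {s : ℝ}
    (hs : s ∈ win w (t / 2 ^ l)) :
    phl E x s - phl E x' s ∈ (upB b.A₀ (qq l v.al) v.c.B).set := by
  refine mul_up (qq_pos hl _) _ ?_
  rw [Bd.mem_mul_iff]
  intro j
  rw [sub_fn]
  have h1 := hC.grow v.c.B x x' w (l + v.al) (t / 2 ^ l) (v.sw t) 2 (by norm_num)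
    (sw_div' h.sb) (fun i j => by
      rw [← add_assoc]
      have e1 := h.mem i j
      have e2 := h'.mem i j
      have e3 := abs_sub_le (v.c.B.fn j (phl E x (nod (dD m E) (w + l + v.al) (v.sw t) i)))
        (v.c.cd i j) (v.c.B.fn j (phl E x' (nod (dD m E) (w + l + v.al) (v.sw t) i)))
      rw [abs_sub_comm (v.c.cd i j : ℝ)] at e3
      linarith) s hs j
  refine h1.trans ?_
  rw [← pow_succ]
  refine pow_le_pow_right₀ (by norm_num) ?_
  have h2 := lt_qq hl v.al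
  have h3 := hP.A₀
  have h4 := qq_pos hl v.al
  have h5 : dD m E * (l + v.al) ≤ dD m E * (2 * qq l v.al) := Nat.mul_le_mul_left _ h2.le
  have h6 : (Cg + 1 + 2 * dD m E) * qq l v.al ≤ b.A₀ * qq l v.al := Nat.mul_le_mul_right _ h3
  have h7 : (Cg + 1) * 1 ≤ (Cg + 1) * qq l v.al := Nat.mul_le_mul_left _ h4
  nlinarith

/-- Two lines of a coarse cell. -/
theorem two_c (hC : Cur m E Cg) {W T : ℕ} {s : ℝ} {κ : ℝ} (hκ : 0 ≤ κ)
    (h : c.c.mem κ c.w c.t x) (h' : c.c.mem κ c.w c.t x')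
    (hW : c.w ≤ W) (hT : T / 2 ^ (W - c.w) = c.t) (hs : s ∈ win W T) :
    phl E x s - phl E x' s ∈ c.c.B.mul (2 ^ (Cg + 1) * κ) := by
  rw [Bd.mem_mul_iff]
  intro j
  rw [sub_fn]
  have hs' : s ∈ win c.w c.t := by
    obtain ⟨d, rfl⟩ : ∃ d, W = c.w + d := ⟨W - c.w, by omega⟩
    rw [Nat.add_sub_cancel_left] at hT
    exact win_sub hT hs
  have h1 := hC.grow c.c.B x x' c.w 0 c.t c.t (κ + κ) (by positivity) (by simp)
    (fun i j => by
      have e1 := h i j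
      have e2 := h' i j
      have e3 := abs_sub_le (c.c.B.fn j (phl E x (nod (dD m E) (c.w + 0) c.t i)))
        (c.c.cd i j) (c.c.B.fn j (phl E x' (nod (dD m E) (c.w + 0) c.t i)))
      rw [abs_sub_comm (c.c.cd i j : ℝ)] at e3
      exact e3.trans (add_le_add e1 e2)) s hs' j
  refine h1.trans (le_of_eq ?_)
  rw [mul_zero, add_zero, pow_succ]
  ring

theorem scl_two_c {κ : ℝ} {u : Sp (nJ m E)} {a : ℕ} (h : u ∈ c.c.B.mul (κ * 2 ^ a)) :
    u ∈ (scl a c.c.B).mul κ := by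
  rw [scl_mul, zpow_natCast]
  exact h

/-- The norm of the difference of two curves. -/
theorem norm_phl (hC : Cur m E Cg) {W T : ℕ} (hx : ∀ i, |x.1 i| ≤ 2 ∧ |x.2 i| ≤ 2)
    (hx' : ∀ i, |x'.1 i| ≤ 2 ∧ |x'.2 i| ≤ 2) (hT : T < 2 ^ W) {s : ℝ} (hs : s ∈ win W T) :
    ‖phl E x s - phl E x' s‖ ≤ 2 ^ (Cg + 1) := by
  obtain ⟨h0, h1⟩ := win_unit hT hs
  have h2 := norm_sub_le (phl E x s) (phl E x' s)
  have h3 := hC.bx x s hx h0 h1
  have h4 := hC.bx x' s hx' h0 h1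
  rw [pow_succ]
  linarith

/-- A point of small norm in a body is in its truncation. -/
theorem mem_trn {N : ℕ} {B : Bd N} {top : ℕ} {u : Sp N} {κ : ℝ} (h : u ∈ B.mul κ)
    (hn : ‖u‖ ≤ κ * 2 ^ top) : u ∈ (trn top B).mul κ := by
  intro j
  show |inner ℝ (B.e j) u| ≤ κ * (2 : ℝ) ^ (min (B.r j) (top : ℤ))
  rcases le_total (B.r j) (top : ℤ) with h1 | h1
  · rw [min_eq_left h1]
    exact h j
  · rw [min_eq_right h1, zpow_natCast]
    have h2 : |inner ℝ (B.e j) u| ≤ ‖B.e j‖ * ‖u‖ := abs_real_inner_le_norm _ _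
    rw [B.e.norm_eq_one, one_mul] at h2
    exact h2.trans hn

end lines

/-! ### The body of the coarse cell -/

section body

variable {N : ℕ}

/-- The body before the truncation. -/
theorem net_jn_mul (A C : Bd N) {κ : ℝ} (hκ : 0 ≤ κ) {u : Sp N} (hA : u ∈ A.mul κ)
    (hC : u ∈ C.mul κ) : u ∈ (jn A C).net.mul (8 * N * κ) := by
  have h1 := mul_jn A C hκ hA hC
  rcases Nat.eq_zero_or_pos N with h0 | h0
  · subst h0
    exact fun j => j.elim0
  rcases hκ.eq_or_lt with h2 | h2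
  · rw [← h2, mul_zero] at h1 ⊢
    intro j
    have h3 : u = 0 := by
      refine Bd.fn_inj (B := jn A C) fun a => ?_
      have := Bd.mem_mul_iff.mp h1 a
      exact abs_nonpos_iff.mp this
    show |inner ℝ ((jn A C).net.e j) u| ≤ 0 * (jn A C).net.s j
    rw [h3, inner_zero_right, abs_zero, zero_mul]
  · have h3 := (Bd.net_near (jn A C)).2.mul (κ' := 4 * N * κ) (by positivity) h1
    have e : 4 * (N : ℝ) * κ * 2 = 8 * N * κ := by ring
    rwa [e] at h3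

theorem net_jn_le₁ (A C : Bd N) : (jn A C).net.le 2 A := by
  have h := (Bd.net_near (jn A C)).1.trans (jn_le₁ A C) (by norm_num)
  rwa [mul_one] at h

theorem net_jn_le₂ (A C : Bd N) : (jn A C).net.le 2 C := by
  have h := (Bd.net_near (jn A C)).1.trans (jn_le₂ A C) (by norm_num)
  rwa [mul_one] at h

end body

theorem crB_le₁ (P : Par m E) (b : BP) (a : ℕ) (C v : Bd (nJ m E)) (s : ShV (nJ m E)) :
    (crB P b a C v s).le 2 ((upB b.A₀ s.q v).crs (grw fun j => s.q * s.gu j)) := by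
  have h := (trn_le P.top (jn ((upB b.A₀ s.q v).crs (grw fun j => s.q * s.gu j))
    (scl a C)).net).trans (net_jn_le₁ _ _) (by norm_num)
  rwa [one_mul] at h

theorem crB_le₂ (P : Par m E) (b : BP) (a : ℕ) (C v : Bd (nJ m E)) (s : ShV (nJ m E)) :
    (crB P b a C v s).le (2 ^ (a + 1)) C := by
  have h := (trn_le P.top (jn ((upB b.A₀ s.q v).crs (grw fun j => s.q * s.gu j))
    (scl a C)).net).trans (net_jn_le₂ _ _) (by norm_num)
  rw [one_mul] at h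
  intro u hu
  have h1 := h hu
  rw [scl_mul, zpow_natCast, ← pow_succ'] at h1
  exact h1

/-- The growth of the coarse body. -/
theorem grw_le {N : ℕ} (g : Fin N → ℕ) (k : Fin N) : grw g k ≤ N * (cN N + ∑ j, g j) := by
  unfold grw
  exact Nat.mul_le_mul k.2.le (by
    have := sum_le_sum_of_subset (f := g) (subset_univ (Iio k))
    omega)

section pair

variable {J w l : ℕ} {c : Cc m E} {k a : ℕ} {x : Ln m} {t₀ t₁ : ℕ} {v₀ v₁ : Vl m E}

/-- Two lines of the first label, in the coarse body. -/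
theorem two_cr (hC : Cur m E Cg) (hP : Cst P b Cg g) (hl : 1 ≤ l) (hcw : c.w ≤ w) {x x' : Ln m}
    {t : ℕ} {v : Vl m E} (h : okv P J (w + l) c k a x t v) (h' : okv P J (w + l) c k a x' t v)
    {sh : ShV (nJ m E)} (hq : sh.q = qq l v.al) {s : ℝ} (hs : s ∈ win w (t / 2 ^ l)) :
    phl E x s - phl E x' s ∈ (crB P b a c.c.B v.c.B sh).mul (2 ^ (nJ m E + Cg + 4)) := by
  have h1 := two_up hC hP hl h h' hs
  have hk : (1 : ℝ) ≤ 2 ^ (Cg + 1) := one_le_pow₀ (by norm_num)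
  rw [← hq] at h1
  have h2 : phl E x s - phl E x' s ∈
      ((upB b.A₀ sh.q v.c.B).crs (grw fun j => sh.q * sh.gu j)).mul (2 ^ (Cg + 1)) :=
    Bd.mul_mono hk _ (Bd.le_crs _ _ h1)
  have hT : t / 2 ^ l / 2 ^ (w - c.w) = c.t := by
    rw [div_div_sub hcw]
    exact h.win
  have h3 := two_c hC (by positivity) h.memc h'.memc hcw hT hs
  have h4 := net_jn_mul _ _ (by positivity) h2 (scl_two_c h3)
  have h5 : (8 : ℝ) * (nJ m E : ℕ) * 2 ^ (Cg + 1) ≤ 2 ^ (nJ m E + Cg + 4) := by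
    have e : (2 : ℝ) ^ (nJ m E + Cg + 4) = 8 * 2 ^ nJ m E * 2 ^ (Cg + 1) := by
      rw [pow_add, pow_add, pow_succ]
      ring
    rw [e]
    exact mul_le_mul_of_nonneg_right (mul_le_mul_of_nonneg_left (nat_le_two_pow _)
      (by norm_num)) (by positivity)
  refine mem_trn (Bd.mul_mono h5 _ h4) ?_
  have hTl : t / 2 ^ l < 2 ^ w := by
    have h6 := h.tlt
    rw [pow_add] at h6
    exact Nat.div_lt_of_lt_mul (by rw [mul_comm]; exact h6)
  refine (norm_phl hC h.box h'.box hTl hs).trans ?_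
  have h7 : (1 : ℝ) ≤ 2 ^ P.top := one_le_pow₀ (by norm_num)
  have h8 : (2 : ℝ) ^ (Cg + 1) ≤ 2 ^ (nJ m E + Cg + 4) :=
    pow_le_pow_right₀ (by norm_num) (by omega)
  calc (2 : ℝ) ^ (Cg + 1) ≤ 2 ^ (nJ m E + Cg + 4) * 1 := by linarith
    _ ≤ 2 ^ (nJ m E + Cg + 4) * 2 ^ P.top := mul_le_mul_of_nonneg_left h7 (by positivity)

/-- The second label is inside the coarse body. -/
theorem Pr.le_cr (h : Pr P J w l c k a x t₀ t₁ v₀ v₁) :
    v₁.c.B.le (2 ^ (2 * nJ m E + 3)) (crB P b a c.c.B v₀.c.B (shv b l v₀ v₁)) := by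
  rcases Nat.eq_zero_or_pos (nJ m E) with h0 | h0
  · intro u _ j
    exact absurd j.2 (by omega)
  have hN1 : (1 : ℝ) ≤ (nJ m E : ℕ) := by exact_mod_cast h0
  have hq := qq_pos h.l1 v₁.al
  have h1 : v₁.c.B.le (nJ m E : ℕ)
      ((upB b.A₀ (qq l v₁.al) v₀.c.B).crs (grw fun j => qq l v₁.al * (shv b l v₀ v₁).gu j)) := by
    have e1 := (le_up (A₀ := b.A₀) hq v₁.c.B).trans (Bd.le_crs _
      (grw fun j => qq l v₁.al * (shv b l v₀ v₁).gu j)) (by norm_num)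
    have e2 := e1.trans h.crs.1 (by norm_num)
    rw [one_mul, one_mul] at e2
    exact e2
  have h2 : v₁.c.B.le 1 (scl a c.c.B) := by
    intro u hu
    rw [scl_mul, zpow_natCast, one_mul]
    exact h.ok₁.le hu
  have h3 : v₁.c.B.le (8 * (nJ m E : ℕ) * (nJ m E : ℕ))
      (jn ((upB b.A₀ (qq l v₁.al) v₀.c.B).crs (grw fun j => qq l v₁.al * (shv b l v₀ v₁).gu j))
        (scl a c.c.B)).net := by
    intro u hu
    exact net_jn_mul _ _ (by positivity) (h1 hu) (Bd.mul_mono hN1 _ (h2 hu))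
  have h4 : ((nJ m E : ℕ) : ℝ) ≤ 8 * (nJ m E : ℕ) * (nJ m E : ℕ) := by nlinarith
  have h5 := le_trn h.ok₁.top h4 h3
  refine h5.mono ?_
  have e : (2 : ℝ) ^ (2 * nJ m E + 3) = 8 * 2 ^ nJ m E * 2 ^ nJ m E := by
    rw [pow_add, two_mul, pow_add]
    ring
  rw [e]
  exact mul_le_mul (mul_le_mul_of_nonneg_left (nat_le_two_pow _) (by norm_num))
    (nat_le_two_pow _) (by positivity) (by positivity)

/-- The coarse body is inside a multiple of the second body. -/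
theorem Pr.cr_le (h : Pr P J w l c k a x t₀ t₁ v₀ v₁) :
    (crB P b a c.c.B v₀.c.B (shv b l v₀ v₁)).le
      (2 ^ (qq l v₁.al * (nJ m E * (cN (nJ m E) + 1) + 2 + b.A₀ +
        nJ m E * ∑ j, (shv b l v₀ v₁).gu j))) v₁.c.B := by
  rcases Nat.eq_zero_or_pos (nJ m E) with h0 | h0
  · intro u _ j
    exact absurd j.2 (by omega)
  obtain ⟨G, hG⟩ : ∃ G, G = ∑ j, (shv b l v₀ v₁).gu j := ⟨_, rfl⟩
  have hq := qq_pos h.l1 v₁.al
  have hN0 : (0 : ℝ) < (nJ m E : ℕ) := by exact_mod_cast h0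
  have h1 := crB_le₁ P b a c.c.B v₀.c.B (shv b l v₀ v₁)
  have h2 := h1.trans (h.crs (b := b)).2 (by norm_num)
  have h3 : ((upB b.A₀ (qq l v₁.al) v₁.c.B).crs
      (grw fun j => qq l v₁.al * (shv b l v₀ v₁).gu j)).le
      (2 ^ (nJ m E * (cN (nJ m E) + ∑ j, qq l v₁.al * (shv b l v₀ v₁).gu j)))
      (upB b.A₀ (qq l v₁.al) v₁.c.B) := Bd.crs_le_mul _ fun j => grw_le _ j
  have h4 := (h2.trans h3 (by positivity)).trans
    (up_le (A₀ := b.A₀) (qq_pos h.l1 v₁.al) v₁.c.B) (by positivity)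
  refine h4.mono ?_
  have e1 : (2 : ℝ) * (nJ m E : ℕ) ≤ 2 ^ (nJ m E + 1) := by
    rw [pow_succ, mul_comm]
    exact mul_le_mul_of_nonneg_right (nat_le_two_pow _) (by norm_num)
  have e2 : (2 : ℝ) * (nJ m E : ℕ) *
      2 ^ (nJ m E * (cN (nJ m E) + ∑ j, qq l v₁.al * (shv b l v₀ v₁).gu j)) *
      2 ^ (qq l v₁.al * (1 + b.A₀)) ≤ 2 ^ (nJ m E + 1) *
      2 ^ (nJ m E * (cN (nJ m E) + ∑ j, qq l v₁.al * (shv b l v₀ v₁).gu j)) *
      2 ^ (qq l v₁.al * (1 + b.A₀)) :=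
    mul_le_mul_of_nonneg_right (mul_le_mul_of_nonneg_right e1 (by positivity)) (by positivity)
  refine e2.trans ?_
  rw [← pow_add, ← pow_add]
  refine pow_le_pow_right₀ (by norm_num) ?_
  rw [← mul_sum, ← hG]
  obtain ⟨q, hqd⟩ : ∃ q, q = qq l v₁.al := ⟨_, rfl⟩
  rw [← hqd] at hq ⊢
  obtain ⟨N, hN⟩ : ∃ N, N = nJ m E := ⟨_, rfl⟩
  rw [← hN]
  have f1 : (N + 1 + N * cN N) * 1 ≤ (N + 1 + N * cN N) * q := Nat.mul_le_mul_left _ hq
  nlinarith

end pair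

end Pool.GC
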