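import Pool.Agent.H96.GEO.Geo2

/-!
# Sizes, heights and codes
-/

set_option autoImplicit false

namespace Pool.GC

open Finset Real
open Pool.LAT
open Pool.KNH (LA LB Ln GS)
open Pool.KNB (nJ)

variable {m E : ℕ} {P : Par m E} {b : BP} {Cg g : ℕ}

section pair

variable {J w l : ℕ} {c : Cc m E} {k a : ℕ} {x : Ln m} {t t₀ t₁ : ℕ} {v v₀ v₁ : Vl m E}

/-- The size in the large window is at least the size of the label. -/
theorem okv.le_SJ (hC : Cur m E Cg) (h : okv P J (w + l) c k a x t v) :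
    (2 : ℝ) ^ v.sz ≤ SJ v.c.B w (t / 2 ^ l) x := by
  refine h.sz.trans ?_
  have h1 := hC.sj_mono v.c.B x w (l + v.al) (t / 2 ^ l) (v.sw t) (sw_div' h.sb)
  rwa [← add_assoc] at h1

/-- The size in the large window is at most the size of the label, times the growth. -/
theorem okv.SJ_le (hC : Cur m E Cg) (h : okv P J (w + l) c k a x t v) :
    SJ v.c.B w (t / 2 ^ l) x ≤ 2 ^ (Cg + Cg * (l + v.al)) * 2 ^ (v.sz + 1) := by
  have h1 := hC.sj_grow v.c.B x w (l + v.al) (t / 2 ^ l) (v.sw t) (sw_div' h.sb)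
  rw [← add_assoc] at h1
  exact h1.trans (mul_le_mul_of_nonneg_left h.sz'.le (by positivity))

theorem zpow_lt_of {a b : ℤ} {n : ℕ} (h : (2 : ℝ) ^ a ≤ 2 ^ n * 2 ^ b) : a ≤ b + n := by
  rw [← zpow_natCast (2 : ℝ) n, ← zpow_add₀ (by norm_num)] at h
  have := (zpow_le_zpow_iff_right₀ (by norm_num : (1 : ℝ) < 2)).mp h
  linarith

/-- One direction of the comparison of the sizes. -/
theorem sz_aux (hC : Cur m E Cg) {A A' B B' Jn : Bd (nJ m E)} {T n q : ℕ} {s s' : ℤ} {G : ℕ}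
    (h1 : (2 : ℝ) ^ s ≤ SJ B w T x) (h2 : A.le (2 ^ n) B) (h3 : Jn.le 1 A) (h4 : A'.le (2 ^ G) Jn)
    (h5 : B'.le 1 A') (h6 : SJ B' w T x ≤ 2 ^ q * 2 ^ s') : s ≤ s' + (4 * Cg + m * (n + G) + q : ℕ) := by
  refine zpow_lt_of ?_
  have e1 := hC.sj_le A B x w T n h2
  have e2 := hC.sj_le Jn A x w T 0 (by rw [pow_zero]; exact h3)
  have e3 := hC.sj_le A' Jn x w T G h4
  have e4 := hC.sj_le B' A' x w T 0 (by rw [pow_zero]; exact h5)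
  have p1 : (0 : ℝ) < 2 ^ (Cg + m * n) := by positivity
  have p2 : (0 : ℝ) < 2 ^ (Cg + m * 0) := by positivity
  have p3 : (0 : ℝ) < 2 ^ (Cg + m * G) := by positivity
  calc (2 : ℝ) ^ s ≤ SJ B w T x := h1
    _ ≤ 2 ^ (Cg + m * n) * SJ A w T x := e1
    _ ≤ 2 ^ (Cg + m * n) * (2 ^ (Cg + m * 0) * SJ Jn w T x) :=
        mul_le_mul_of_nonneg_left e2 p1.le
    _ ≤ 2 ^ (Cg + m * n) * (2 ^ (Cg + m * 0) * (2 ^ (Cg + m * G) * SJ A' w T x)) :=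
        mul_le_mul_of_nonneg_left (mul_le_mul_of_nonneg_left e3 p2.le) p1.le
    _ ≤ 2 ^ (Cg + m * n) * (2 ^ (Cg + m * 0) * (2 ^ (Cg + m * G) * (2 ^ (Cg + m * 0) *
          (2 ^ q * 2 ^ s')))) :=
        mul_le_mul_of_nonneg_left (mul_le_mul_of_nonneg_left (mul_le_mul_of_nonneg_left
          (e4.trans (mul_le_mul_of_nonneg_left h6 p2.le)) p3.le) p2.le) p1.le
    _ = 2 ^ (4 * Cg + m * (n + G) + q) * 2 ^ s' := by
        rw [mul_zero, add_zero]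
        have : 4 * Cg + m * (n + G) + q = (Cg + m * n) + (Cg + ((Cg + m * G) + (Cg + q))) := by
          ring
        rw [this]
        simp only [pow_add]
        ring

/-- **The sizes of the two labels.** -/
theorem Pr.sz_le (hC : Cur m E Cg) (h : Pr P J w l c k a x t₀ t₁ v₀ v₁) :
    |v₀.sz - v₁.sz| ≤ ((qq l v₁.al * (7 * Cg + 1 + m * (1 + b.A₀ + cN (nJ m E)) +
      m * ∑ j, (shv b l v₀ v₁).gu j) : ℕ) : ℤ) := by
  obtain ⟨q, hqd⟩ : ∃ q, q = qq l v₁.al := ⟨_, rfl⟩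
  have hq : 0 < q := by rw [hqd]; exact qq_pos h.l1 v₁.al
  obtain ⟨G, hG⟩ : ∃ G, G = ∑ j, (shv b l v₀ v₁).gu j := ⟨_, rfl⟩
  have ha₀ := lt_qq h.l1 v₀.al
  have ha₁ := lt_qq h.l1 v₁.al
  rw [h.q_eq, ← hqd] at ha₀
  rw [← hqd] at ha₁
  have g1 : ∀ j, (upB b.A₀ (qq l v₁.al) v₁.c.B).r j ≤
      (jv b l v₀ v₁).r j + ((qq l v₁.al * (shv b l v₀ v₁).gu j : ℕ) : ℤ) := gu_ge b h.l1 v₀ v₁
  have gap₁ := le_of_gap (jn_le₂ (upB b.A₀ (qq l v₁.al) v₀.c.B) (upB b.A₀ (qq l v₁.al) v₁.c.B)) g1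
  have gap₀ := le_of_gap (jn_le₁ (upB b.A₀ (qq l v₁.al) v₀.c.B) (upB b.A₀ (qq l v₁.al) v₁.c.B))
    (g := fun j => qq l v₁.al * (shv b l v₀ v₁).gu j) (fun j => by
      rw [h.up_r b.A₀]
      exact g1 j)
  rw [← mul_sum, ← hG, ← hqd] at gap₁ gap₀
  have s₀ := h.ok₀.le_SJ hC
  have s₁ := h.ok₁.le_SJ hC
  have r₀ := h.ok₀.SJ_le hC
  have r₁ := h.ok₁.SJ_le hC
  rw [h.tt] at s₀ r₀
  have b₀ := sz_aux hC (q := Cg + Cg * (l + v₁.al) + 1) (s' := v₁.sz) s₀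
    (up_le (A₀ := b.A₀) hq v₀.c.B) (by
      rw [hqd]
      exact jn_le₁ _ _) gap₁ (le_up hq v₁.c.B) (by
      refine r₁.trans (le_of_eq ?_)
      rw [zpow_add_one₀ (by norm_num), pow_succ]
      ring)
  have b₁ := sz_aux hC (q := Cg + Cg * (l + v₀.al) + 1) (s' := v₀.sz) s₁
    (up_le (A₀ := b.A₀) hq v₁.c.B) (by
      rw [hqd]
      exact jn_le₂ _ _) gap₀ (le_up hq v₀.c.B) (by
      refine r₀.trans (le_of_eq ?_)
      rw [zpow_add_one₀ (by norm_num), pow_succ]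
      ring)
  have bound : ∀ al, l + al < 2 * q → 4 * Cg + m * (q * (1 + b.A₀) + (cN (nJ m E) + q * G)) +
      (Cg + Cg * (l + al) + 1) ≤ q * (7 * Cg + 1 + m * (1 + b.A₀ + cN (nJ m E)) + m * G) := by
    intro al hal
    obtain ⟨M, hM⟩ : ∃ M, M = cN (nJ m E) := ⟨_, rfl⟩
    rw [← hM]
    have f1 : Cg * (l + al) ≤ Cg * (2 * q) := Nat.mul_le_mul_left _ hal.le
    have f2 : (5 * Cg + 1 + m * M) * 1 ≤ (5 * Cg + 1 + m * M) * q := Nat.mul_le_mul_left _ hq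
    nlinarith
  have c₀ : ((4 * Cg + m * (q * (1 + b.A₀) + (cN (nJ m E) + q * G)) +
      (Cg + Cg * (l + v₁.al) + 1) : ℕ) : ℤ) ≤ ((q * (7 * Cg + 1 + m * (1 + b.A₀ +
        cN (nJ m E)) + m * G) : ℕ) : ℤ) := by exact_mod_cast bound _ ha₁
  have c₁ : ((4 * Cg + m * (q * (1 + b.A₀) + (cN (nJ m E) + q * G)) +
      (Cg + Cg * (l + v₀.al) + 1) : ℕ) : ℤ) ≤ ((q * (7 * Cg + 1 + m * (1 + b.A₀ +
        cN (nJ m E)) + m * G) : ℕ) : ℤ) := by exact_mod_cast bound _ ha₀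
  rw [← hqd, ← hG, abs_le]
  constructor <;> linarith

/-- The size of the coarse cell. -/
theorem crv_sz (hl : 1 ≤ l) :
    |(crv P b J w l c k a t₀ v₀ (shv b l v₀ v₁)).sz - v₀.sz| ≤ (qq l v₁.al : ℤ) := by
  show |(qq l v₁.al : ℤ) * (v₀.sz / (qq l v₁.al : ℤ)) - v₀.sz| ≤ (qq l v₁.al : ℤ)
  have hq : (0 : ℤ) < qq l v₁.al := by exact_mod_cast qq_pos hl _
  have h1 := Int.emod_add_mul_ediv v₀.sz (qq l v₁.al : ℤ)
  have h2 := Int.emod_nonneg v₀.sz hq.ne'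
  have h3 := Int.emod_lt_of_pos v₀.sz hq
  rw [abs_le]
  constructor <;> linarith

/-- The size of the coarse cell and of the second label. -/
theorem Pr.crv_sz₁ (hC : Cur m E Cg) (hP : Cst P b Cg g)
    (h : Pr P J w l c k a x t₀ t₁ v₀ v₁) :
    |(crv P b J w l c k a t₀ v₀ (shv b l v₀ v₁)).sz - v₁.sz| ≤
      (rgv b (shv b l v₀ v₁) : ℤ) := by
  have h1 := h.sz_le (b := b) hC
  have h2 := crv_sz (P := P) (b := b) (J := J) (w := w) (c := c) (k := k) (a := a) (t₀ := t₀)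
    (v₀ := v₀) (v₁ := v₁) h.l1
  have h3 := abs_sub_le (crv P b J w l c k a t₀ v₀ (shv b l v₀ v₁)).sz v₀.sz v₁.sz
  have h4 : qq l v₁.al + qq l v₁.al * (7 * Cg + 1 + m * (1 + b.A₀ + cN (nJ m E)) +
      m * ∑ j, (shv b l v₀ v₁).gu j) ≤ rgv b (shv b l v₀ v₁) := by
    show _ ≤ qq l v₁.al * (b.A₁ + b.A₂ * ∑ j, (shv b l v₀ v₁).gu j)
    obtain ⟨G, hG⟩ : ∃ G, G = ∑ j, (shv b l v₀ v₁).gu j := ⟨_, rfl⟩
    obtain ⟨q, hqd⟩ : ∃ q, q = qq l v₁.al := ⟨_, rfl⟩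
    obtain ⟨M, hM⟩ : ∃ M, M = m * (1 + b.A₀ + cN (nJ m E)) := ⟨_, rfl⟩
    have e1 := hP.A₁
    have e2 := hP.A₂
    rw [← hG, ← hqd, ← hM]
    rw [← hM] at e1
    have e3 : 1 + (7 * Cg + 1 + M + m * G) ≤ b.A₁ + b.A₂ * G := by
      have f1 : m * G ≤ b.A₂ * G := Nat.mul_le_mul_right _ (by omega)
      omega
    calc q + q * (7 * Cg + 1 + M + m * G) = q * (1 + (7 * Cg + 1 + M + m * G)) := by ring
      _ ≤ q * (b.A₁ + b.A₂ * G) := Nat.mul_le_mul_left _ e3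
  have h5 : ((qq l v₁.al : ℕ) : ℤ) + ((qq l v₁.al * (7 * Cg + 1 + m * (1 + b.A₀ +
      cN (nJ m E)) + m * ∑ j, (shv b l v₀ v₁).gu j) : ℕ) : ℤ) ≤
      (rgv b (shv b l v₀ v₁) : ℤ) := by exact_mod_cast h4
  linarith

/-- The bodies of the coarse cell and of the second label. -/
theorem Pr.near_rg (hP : Cst P b Cg g) (h : Pr P J w l c k a x t₀ t₁ v₀ v₁) :
    (crB P b a c.c.B v₀.c.B (shv b l v₀ v₁)).near
      (2 ^ (rgv b (shv b l v₀ v₁) - (m + g))) v₁.c.B := by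
  have hrg : ∀ n, n ≤ qq l v₁.al * (nJ m E * (cN (nJ m E) + 1) + 2 + b.A₀ +
      nJ m E * ∑ j, (shv b l v₀ v₁).gu j) → n ≤ rgv b (shv b l v₀ v₁) - (m + g) := by
    intro n hn
    have e1 := hP.A₁
    have e2 := hP.A₂
    show n ≤ qq l v₁.al * (b.A₁ + b.A₂ * ∑ j, (shv b l v₀ v₁).gu j) - (m + g)
    obtain ⟨G, hG⟩ : ∃ G, G = ∑ j, (shv b l v₀ v₁).gu j := ⟨_, rfl⟩
    obtain ⟨q, hqd⟩ : ∃ q, q = qq l v₁.al := ⟨_, rfl⟩
    have hq : 0 < q := by rw [hqd]; exact qq_pos h.l1 v₁.al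
    rw [← hG, ← hqd] at hn ⊢
    have e3 : (nJ m E * (cN (nJ m E) + 1) + 2 + b.A₀ + nJ m E * G) + (m + g) ≤
        b.A₁ + b.A₂ * G := by
      have f1 : nJ m E * G ≤ b.A₂ * G := Nat.mul_le_mul_right _ (by omega)
      have f2 : nJ m E * (cN (nJ m E) + 1) ≤ nJ m E * (cN (nJ m E) + 2) :=
        Nat.mul_le_mul_left _ (by omega)
      have f3 : m * 1 ≤ m * (1 + b.A₀ + cN (nJ m E)) := Nat.mul_le_mul_left _ (by omega)
      omega
    have e4 : q * (nJ m E * (cN (nJ m E) + 1) + 2 + b.A₀ + nJ m E * G) + (m + g) ≤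
        q * (b.A₁ + b.A₂ * G) := by
      have f1 : (m + g) * 1 ≤ (m + g) * q := Nat.mul_le_mul_left _ hq
      have f2 := Nat.mul_le_mul_left q e3
      nlinarith
    omega
  refine ⟨h.cr_le.mono (pow_le_pow_right₀ (by norm_num) (hrg _ le_rfl)), ?_⟩
  refine h.le_cr.mono (pow_le_pow_right₀ (by norm_num) ?_)
  have h1 := hP.g
  have e1 := hP.A₁
  show 2 * nJ m E + 3 ≤ qq l v₁.al * (b.A₁ + b.A₂ * ∑ j, (shv b l v₀ v₁).gu j) - (m + g)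
  have hq := qq_pos h.l1 v₁.al
  have f3 : nJ m E * 2 ≤ nJ m E * (cN (nJ m E) + 2) := Nat.mul_le_mul_left _ (by omega)
  have f4 : m * 1 ≤ m * (1 + b.A₀ + cN (nJ m E)) := Nat.mul_le_mul_left _ (by omega)
  have f5 : b.A₁ ≤ qq l v₁.al * (b.A₁ + b.A₂ * ∑ j, (shv b l v₀ v₁).gu j) := by
    calc b.A₁ ≤ b.A₁ + b.A₂ * ∑ j, (shv b l v₀ v₁).gu j := Nat.le_add_right _ _
      _ = 1 * (b.A₁ + b.A₂ * ∑ j, (shv b l v₀ v₁).gu j) := (one_mul _).symm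
      _ ≤ _ := Nat.mul_le_mul_right _ hq
  omega

/-- The height of the coarse cell over the second label. -/
theorem Pr.hx_le (hC : Cur m E Cg) (hP : Cst P b Cg g) (h : Pr P J w l c k a x t₀ t₁ v₀ v₁) :
    P.hx (crv P b J w l c k a t₀ v₀ (shv b l v₀ v₁)) v₁ ≤ rgv b (shv b l v₀ v₁) := by
  refine P.hx_le ⟨(h.near_rg hP).mono (pow_le_pow_right₀ (by norm_num) (Nat.sub_le _ _)), ?_⟩
  refine (h.crv_sz₁ hC hP).trans ?_
  have h1 : rgv b (shv b l v₀ v₁) ≤ P.cs * rgv b (shv b l v₀ v₁) :=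
    Nat.le_mul_of_pos_left _ P.cs_pos
  exact_mod_cast h1

end pair

end Pool.GC
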