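import Pool.Agent.H15.KNH.Lab

/-!
# Codes for vectors of integers
-/

set_option autoImplicit false

namespace Pool.GC

open Finset Real
open Pool.KNH (Kraft)

/-- The weight of an integer. -/
noncomputable def kz (n : ℤ) : ℝ := 1 / (4 * (1 + |(n : ℝ)|) ^ 2)

theorem kz_pos (n : ℤ) : 0 < kz n := by
  unfold kz
  positivity

theorem kz_nat_sum (M : ℕ) : ∑ n ∈ range M, (1 : ℝ) / (4 * (1 + (n : ℝ)) ^ 2) ≤
    (1 : ℝ) / 2 - 1 / (2 * ((M : ℝ) + 1)) := by
  induction M with
  | zero => norm_num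
  | succ M ih =>
    rw [sum_range_succ]
    have h1 : (1 : ℝ) / (4 * (1 + (M : ℝ)) ^ 2) ≤ 1 / (2 * (M + 1)) - 1 / (2 * (M + 1 + 1)) := by
      rw [div_sub_div _ _ (by positivity) (by positivity), div_le_div_iff₀ (by positivity)
        (by positivity)]
      have h2 : (0 : ℝ) ≤ M := Nat.cast_nonneg M
      nlinarith [mul_nonneg h2 h2, mul_nonneg (mul_nonneg h2 h2) h2]
    push_cast
    linarith

theorem kraft_kz : Kraft kz := by
  refine ⟨fun n => (kz_pos n).le, fun F => ?_⟩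
  obtain ⟨M, hM⟩ : ∃ M : ℕ, ∀ n ∈ F, n.natAbs < M := by
    refine ⟨(F.sup Int.natAbs) + 1, fun n hn => ?_⟩
    exact Nat.lt_succ_of_le (le_sup (f := Int.natAbs) hn)
  have h1 : F ⊆ (range M).image (fun n : ℕ => (n : ℤ)) ∪ (range M).image (fun n : ℕ => -(n : ℤ)) := by
    intro n hn
    rw [mem_union, mem_image, mem_image]
    rcases le_total 0 n with h | h
    · exact Or.inl ⟨n.natAbs, mem_range.2 (hM n hn), by omega⟩
    · exact Or.inr ⟨n.natAbs, mem_range.2 (hM n hn), by omega⟩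
  have h2 : ∑ n ∈ (range M).image (fun n : ℕ => (n : ℤ)), kz n ≤ 1 / 2 := by
    rw [sum_image (fun a _ b _ h => by simpa using h)]
    have h3 : ∀ n : ℕ, kz (n : ℤ) = 1 / (4 * (1 + (n : ℝ)) ^ 2) := fun n => by
      unfold kz
      rw [Int.cast_natCast, abs_of_nonneg (Nat.cast_nonneg n)]
    rw [sum_congr rfl fun n _ => h3 n]
    have h4 := kz_nat_sum M
    have h5 : (0 : ℝ) ≤ 1 / (2 * ((M : ℝ) + 1)) := by positivity
    linarith
  have h2' : ∑ n ∈ (range M).image (fun n : ℕ => -(n : ℤ)), kz n ≤ 1 / 2 := by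
    rw [sum_image (fun a _ b _ h => by simpa using h)]
    have h3 : ∀ n : ℕ, kz (-(n : ℤ)) = 1 / (4 * (1 + (n : ℝ)) ^ 2) := fun n => by
      unfold kz
      rw [Int.cast_neg, Int.cast_natCast, abs_neg, abs_of_nonneg (Nat.cast_nonneg n)]
    rw [sum_congr rfl fun n _ => h3 n]
    have h4 := kz_nat_sum M
    have h5 : (0 : ℝ) ≤ 1 / (2 * ((M : ℝ) + 1)) := by positivity
    linarith
  refine (sum_le_sum_of_subset_of_nonneg h1 fun n _ _ => (kz_pos n).le).trans ?_
  have h3 := sum_union_inter (s₁ := (range M).image (fun n : ℕ => (n : ℤ)))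
    (s₂ := (range M).image (fun n : ℕ => -(n : ℤ))) (f := kz)
  have h4 : 0 ≤ ∑ n ∈ (range M).image (fun n : ℕ => (n : ℤ)) ∩
      (range M).image (fun n : ℕ => -(n : ℤ)), kz n := sum_nonneg fun n _ => (kz_pos n).le
  linarith

/-- The weight of a vector of integers. -/
noncomputable def kp {p : ℕ} (z : Fin p → ℤ) : ℝ := ∏ i, kz (z i)

theorem kp_pos {p : ℕ} (z : Fin p → ℤ) : 0 < kp z := prod_pos fun _ _ => kz_pos _

theorem kraft_kp (p : ℕ) : Kraft (kp (p := p)) := by
  classical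
  refine ⟨fun z => (kp_pos z).le, fun F => ?_⟩
  have h1 : F ⊆ Fintype.piFinset fun i => F.image fun z => z i := by
    intro z hz
    rw [Fintype.mem_piFinset]
    exact fun i => mem_image_of_mem _ hz
  refine (sum_le_sum_of_subset_of_nonneg h1 fun z _ _ => (kp_pos z).le).trans ?_
  unfold kp
  rw [← prod_univ_sum]
  refine prod_le_one (fun i _ => sum_nonneg fun n _ => (kz_pos n).le) fun i _ => ?_
  exact kraft_kz.sum _

theorem kp_log {p : ℕ} {z : Fin p → ℤ} {ρ : ℝ} (hρ : ∀ i, |(z i : ℝ)| ≤ ρ) (h0 : 0 ≤ ρ) :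
    -Real.log (kp z) ≤ 4 * p * Real.log (2 + ρ) := by
  unfold kp
  rw [Real.log_prod (fun i _ => (kz_pos _).ne'), ← sum_neg_distrib]
  have h1 : ∀ i ∈ (univ : Finset (Fin p)), -Real.log (kz (z i)) ≤ 4 * Real.log (2 + ρ) := by
    intro i _
    unfold kz
    rw [one_div, Real.log_inv, neg_neg]
    have h2 : 4 * (1 + |(z i : ℝ)|) ^ 2 ≤ (2 + ρ) ^ 4 := by
      have h3 := hρ i
      have h4 : (1 + |(z i : ℝ)|) ^ 2 ≤ (2 + ρ) ^ 2 :=
        pow_le_pow_left₀ (by positivity) (by linarith) 2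
      have h5 : (4 : ℝ) ≤ (2 + ρ) ^ 2 := by nlinarith
      calc 4 * (1 + |(z i : ℝ)|) ^ 2 ≤ (2 + ρ) ^ 2 * (2 + ρ) ^ 2 :=
            mul_le_mul h5 h4 (by positivity) (by positivity)
        _ = (2 + ρ) ^ 4 := by ring
    have h3 := Real.log_le_log (by positivity) h2
    rwa [Real.log_pow] at h3
  refine (sum_le_sum h1).trans ?_
  rw [sum_const, card_univ, Fintype.card_fin, nsmul_eq_mul]
  exact le_of_eq (by ring)

open Classical in
/-- A code by a map which is injective on a set. -/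
theorem kraft_pull {S T : Type} (D : Set S) (f : S → T) (hf : Set.InjOn f D) {q : T → ℝ}
    (hq : Kraft q) : Kraft (fun x => if x ∈ D then q (f x) else 0) := by
  refine ⟨fun x => ?_, fun F => ?_⟩
  · show 0 ≤ if x ∈ D then q (f x) else 0
    split_ifs
    · exact hq.nonneg _
    · exact le_rfl
  · rw [← sum_filter]
    rw [← sum_image (g := f) (f := q) (s := F.filter fun x => x ∈ D) ?_]
    · exact hq.sum _
    · intro x hx y hy hxy
      exact hf (by simpa using (mem_filter.mp hx).2) (by simpa using (mem_filter.mp hy).2) hxy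

end Pool.GC
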