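import Pool.Agent.H96.GEO.Geo3
import Pool.Agent.H96.GEO.Krf

/-!
# The codes of the types and of the shapes
-/

set_option autoImplicit false

namespace Pool.GC

open Finset Real
open Pool.LAT
open Pool.KNH (LA LB Ln GS Kraft)
open Pool.KNB (nJ)

variable {m E : ℕ} {P : Par m E} {b : BP} {Cg g : ℕ}

/-! ### Numbers -/

theorem log_two_half : (1 : ℝ) / 2 ≤ Real.log 2 := by
  have := Real.log_two_gt_d9
  linarith

theorem log_mul_le {K X ρ : ℝ} (hK : 0 ≤ K) (hX : 0 ≤ X) (hρ0 : 0 ≤ ρ) (hρ : ρ ≤ K * (2 + X)) :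
    Real.log (2 + ρ) ≤ (2 * K + 1) * Real.log (2 + X) := by
  have h1 : 2 + ρ ≤ (K + 1) * (2 + X) := by linarith
  have h2 := Real.log_le_log (by linarith) h1
  rw [Real.log_mul (by linarith) (by linarith)] at h2
  have h3 := Real.log_le_sub_one_of_pos (show 0 < K + 1 by linarith)
  have h4 : Real.log 2 ≤ Real.log (2 + X) := Real.log_le_log (by norm_num) (by linarith)
  have h5 := log_two_half
  have h6 : K * (1 / 2) ≤ K * Real.log (2 + X) := mul_le_mul_of_nonneg_left (by linarith) hK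
  linarith

theorem ediv_sub_le {q : ℕ} (hq : 0 < q) (x y : ℤ) :
    |((x / (q : ℤ) - y / (q : ℤ) : ℤ) : ℝ)| ≤ |((x - y : ℤ) : ℝ)| / q + 1 := by
  have hq' : (0 : ℤ) < q := by exact_mod_cast hq
  have hqr : (0 : ℝ) < q := by exact_mod_cast hq
  have key : ∀ x y : ℤ, ((x / (q : ℤ) - y / (q : ℤ) : ℤ) : ℝ) ≤ |((x - y : ℤ) : ℝ)| / q + 1 := by
    intro x y
    have h1 : (x / (q : ℤ)) * q ≤ x := Int.ediv_mul_le x hq'.ne'
    have h2 : y < (y / (q : ℤ) + 1) * q := Int.lt_ediv_add_one_mul_self y hq'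
    have h3 : (x / (q : ℤ) - y / (q : ℤ) - 1) * q ≤ x - y := by nlinarith
    have h4 : (((x / (q : ℤ) - y / (q : ℤ) : ℤ) : ℝ) - 1) * q ≤ ((x - y : ℤ) : ℝ) := by
      exact_mod_cast h3
    have h5 : ((x / (q : ℤ) - y / (q : ℤ) : ℤ) : ℝ) - 1 ≤ |((x - y : ℤ) : ℝ)| / q := by
      rw [le_div_iff₀ hqr]
      exact h4.trans (le_abs_self _)
    linarith
  rw [abs_le]
  refine ⟨?_, key x y⟩
  have h1 := key y x
  have h2 : |((y - x : ℤ) : ℝ)| = |((x - y : ℤ) : ℝ)| := by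
    push_cast
    exact abs_sub_comm _ _
  rw [h2] at h1
  push_cast at h1 ⊢
  linarith

/-- The range over the unit. -/
theorem imax_le {l : ℕ} (hl : 1 ≤ l) {al k : ℕ} (hal : al ≤ k) :
    |(((Nat.log 2 ((l + k) / l) : ℤ) - (Nat.log 2 ((l + al) / l) : ℤ) : ℤ) : ℝ)| ≤
      ((l : ℝ) + k) / qq l al := by
  obtain ⟨i, hi⟩ : ∃ i, i = Nat.log 2 ((l + al) / l) := ⟨_, rfl⟩
  obtain ⟨M, hM⟩ : ∃ M, M = Nat.log 2 ((l + k) / l) := ⟨_, rfl⟩
  have h1 : i ≤ M := by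
    rw [hi, hM]
    exact Nat.log_mono_right (Nat.div_le_div_right (by omega))
  have h2 : 2 ^ M * l ≤ l + k := by
    have := qq_le hl k
    unfold qq at this
    rw [hM]
    exact this
  have hq : qq l al = 2 ^ i * l := by
    unfold qq
    rw [← hi]
  rw [← hi, ← hM]
  have hqp : (0 : ℝ) < (qq l al : ℕ) := by exact_mod_cast qq_pos hl al
  have h3 : (((M : ℤ) - (i : ℤ) : ℤ) : ℝ) = ((M - i : ℕ) : ℝ) := by
    rw [Nat.cast_sub h1]
    push_cast
    rfl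
  rw [h3, abs_of_nonneg (Nat.cast_nonneg _), le_div_iff₀ hqp]
  have h4 : (M - i) * qq l al ≤ l + k := by
    calc (M - i) * qq l al ≤ 2 ^ (M - i) * qq l al :=
          Nat.mul_le_mul_right _ Nat.lt_two_pow_self.le
      _ = 2 ^ M * l := by
          rw [hq, ← mul_assoc, ← pow_add, Nat.sub_add_cancel h1]
      _ ≤ l + k := h2
  exact_mod_cast h4

theorem div_qq_le {l : ℕ} (hl : 1 ≤ l) (al : ℕ) {y : ℝ} (hy : 0 ≤ y) :
    y / qq l al ≤ 2 * (y / ((l : ℝ) + al)) := by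
  have hqp : (0 : ℝ) < (qq l al : ℕ) := by exact_mod_cast qq_pos hl al
  have hl' : (0 : ℝ) < (l : ℝ) + al := by
    have : (1 : ℝ) ≤ l := by exact_mod_cast hl
    have : (0 : ℝ) ≤ al := Nat.cast_nonneg al
    linarith
  have h1 : ((l : ℝ) + al) ≤ 2 * (qq l al : ℕ) := by exact_mod_cast (lt_qq hl al).le
  rw [← mul_div_assoc, div_le_div_iff₀ hqp hl']
  nlinarith

/-! ### Heights -/

theorem hx_r (c : Cc m E) (v : Vl m E) (j : Fin (nJ m E)) :
    c.c.B.r j ≤ v.c.B.r j + P.hx c v + nJ m E ∧ v.c.B.r j ≤ c.c.B.r j + P.hx c v + nJ m E := by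
  obtain ⟨h1, -⟩ := P.hx_spec c v
  exact ⟨s_le_r h1.1 j, s_le_r h1.2 j⟩

theorem hx_sz (c : Cc m E) (v : Vl m E) : |c.sz - v.sz| ≤ P.cs * P.hx c v := (P.hx_spec c v).2

theorem hx_rr (c : Cc m E) (v : Vl m E) (j : Fin (nJ m E)) :
    |((v.c.B.r j - c.c.B.r j : ℤ) : ℝ)| ≤ P.hx c v + nJ m E := by
  obtain ⟨h1, h2⟩ := hx_r (P := P) c v j
  have h3 : |v.c.B.r j - c.c.B.r j| ≤ P.hx c v + nJ m E := by
    rw [abs_le]
    constructor <;> linarith
  exact_mod_cast h3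

theorem kraft_inj {S T : Type} (f : S → T) (hf : Function.Injective f) {q : T → ℝ}
    (hq : Kraft q) : Kraft (fun x => q (f x)) := by
  classical
  refine ⟨fun x => hq.nonneg _, fun F => ?_⟩
  rw [← sum_image (g := f) (f := q) (s := F) hf.injOn]
  exact hq.sum _

/-- The data of a label, in units. -/
structure XX (P : Par m E) (l : ℕ) (c : Cc m E) (k : ℕ) (v : Vl m E) (X : ℝ) : Prop where
  X0 : 0 ≤ X
  q1 : (1 : ℝ) ≤ (qq l v.al : ℕ)
  kq : (k : ℝ) / qq l v.al ≤ 2 * X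
  h : (P.hx c v : ℝ) / qq l v.al ≤ 2 * X
  lk : ((l : ℝ) + k) / qq l v.al ≤ 1 + 2 * X

theorem xx_of {l : ℕ} (hl : 1 ≤ l) (c : Cc m E) (k : ℕ) (v : Vl m E) :
    XX P l c k v (((k : ℝ) + P.hx c v) / ((l : ℝ) + v.al)) := by
  have hl1 : (1 : ℝ) ≤ l := by exact_mod_cast hl
  have hal0 : (0 : ℝ) ≤ v.al := Nat.cast_nonneg _
  have hk0 : (0 : ℝ) ≤ k := Nat.cast_nonneg _
  have hh0 : (0 : ℝ) ≤ P.hx c v := Nat.cast_nonneg _
  have hla : (0 : ℝ) < (l : ℝ) + v.al := by linarith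
  have hqp : (0 : ℝ) < (qq l v.al : ℕ) := by exact_mod_cast qq_pos hl v.al
  have hlq : (l : ℝ) ≤ (qq l v.al : ℕ) := by exact_mod_cast le_qq l v.al
  have hkX : (k : ℝ) / qq l v.al ≤ 2 * (((k : ℝ) + P.hx c v) / ((l : ℝ) + v.al)) := by
    refine (div_qq_le hl v.al hk0).trans ?_
    exact mul_le_mul_of_nonneg_left (div_le_div_of_nonneg_right (by linarith) hla.le)
      (by norm_num)
  refine ⟨by positivity, by exact_mod_cast qq_pos hl v.al, hkX, ?_, ?_⟩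
  · refine (div_qq_le hl v.al hh0).trans ?_
    exact mul_le_mul_of_nonneg_left (div_le_div_of_nonneg_right (by linarith) hla.le)
      (by norm_num)
  · rw [add_div]
    have : (l : ℝ) / (qq l v.al : ℕ) ≤ 1 := by
      rw [div_le_one hqp]
      exact hlq
    linarith

/-! ### The code of the types -/

/-- The vector of a type. -/
noncomputable def fT (M l : ℕ) (c : Cc m E) (ty : TyV (nJ m E)) : Fin (nJ m E + 2) → ℤ :=
  Fin.cons ((M : ℤ) - ty.i) (Fin.cons (ty.h : ℤ)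
    (fun j => ty.r j - c.c.B.r j / ((2 ^ ty.i * l : ℕ) : ℤ)))

theorem fT_inj (M l : ℕ) (c : Cc m E) : Function.Injective (fT M l c) := by
  rintro ⟨i, r, h⟩ ⟨i', r', h'⟩ e
  unfold fT at e
  rw [Fin.cons_inj, Fin.cons_inj] at e
  obtain ⟨e1, e2, e3⟩ := e
  have e4 : i = i' := by
    have : (M : ℤ) - (i : ℤ) = M - (i' : ℤ) := e1
    omega
  subst e4
  have e5 : h = h' := by exact_mod_cast e2
  subst e5
  congr 1
  funext j
  have := congrFun e3 j
  linarith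

theorem ty_code (P : Par m E) (w l : ℕ) (c : Cc m E) (k : ℕ) (hl : 1 ≤ l)
    (hcw : c.w ≤ w) :
    ∃ q : TyV (nJ m E) → ℝ, Kraft q ∧
    ∀ (J a : ℕ) (x : Ln m) (t : ℕ) (v : Vl m E), okv P J (w + l) c k a x t v →
      0 < q (tyv P l c v) ∧ -Real.log (q (tyv P l c v)) ≤
        (4 * (nJ m E + 2) * (2 * (2 * nJ m E + 3) + 1)) *
          Real.log (2 + ((k : ℝ) + P.hx c v) / ((l : ℝ) + v.al)) := by
  refine ⟨fun ty => kp (fT (Nat.log 2 ((l + k) / l)) l c ty),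
    kraft_inj _ (fT_inj _ l c) (kraft_kp _), ?_⟩
  intro J a x t v h
  refine ⟨kp_pos _, ?_⟩
  have hX := xx_of (P := P) hl c k v
  obtain ⟨X, hXd⟩ : ∃ X, X = ((k : ℝ) + P.hx c v) / ((l : ℝ) + v.al) := ⟨_, rfl⟩
  rw [← hXd] at hX ⊢
  have hal : v.al ≤ k := by
    have := h.wk
    omega
  have hX0 := hX.X0
  have hN0 : (0 : ℝ) ≤ (nJ m E : ℕ) := Nat.cast_nonneg _
  obtain ⟨ρ, hρ⟩ : ∃ ρ : ℝ, ρ = (2 * (nJ m E : ℕ) + 3) * (2 + X) := ⟨_, rfl⟩
  have hρ0 : 0 ≤ ρ := by rw [hρ]; positivity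
  have hρ1 : 2 * X + 1 + (nJ m E : ℕ) ≤ ρ := by
    rw [hρ]
    nlinarith
  have hq1 := hX.q1
  have hqp : (0 : ℝ) < (qq l v.al : ℕ) := by linarith
  have h1 : ∀ i, |(fT (Nat.log 2 ((l + k) / l)) l c (tyv P l c v) i : ℝ)| ≤ ρ := by
    intro i
    refine Fin.cases ?_ (fun i => ?_) i
    · show |(((Nat.log 2 ((l + k) / l) : ℤ) - (Nat.log 2 ((l + v.al) / l) : ℤ) : ℤ) : ℝ)| ≤ ρ
      have e1 := imax_le hl hal
      have e2 := hX.lk
      linarith
    · refine Fin.cases ?_ (fun j => ?_) i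
      · show |((((P.hx c v / qq l v.al : ℕ) : ℤ) : ℤ) : ℝ)| ≤ ρ
        have e1 : (((P.hx c v / qq l v.al : ℕ) : ℤ) : ℝ) ≤ (P.hx c v : ℝ) / qq l v.al := by
          rw [Int.cast_natCast]
          exact Nat.cast_div_le
        rw [abs_of_nonneg (by positivity)]
        have e2 := hX.h
        linarith
      · show |((v.c.B.r j / (qq l v.al : ℤ) - c.c.B.r j / (qq l v.al : ℤ) : ℤ) : ℝ)| ≤ ρ
        have e1 := ediv_sub_le (qq_pos hl v.al) (v.c.B.r j) (c.c.B.r j)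
        have e2 : |((v.c.B.r j - c.c.B.r j : ℤ) : ℝ)| / (qq l v.al : ℕ) ≤
            ((P.hx c v : ℝ) + nJ m E) / (qq l v.al : ℕ) :=
          div_le_div_of_nonneg_right (hx_rr c v j) hqp.le
        rw [add_div] at e2
        have e3 : ((nJ m E : ℕ) : ℝ) / (qq l v.al : ℕ) ≤ (nJ m E : ℕ) := div_le_self hN0 hq1
        have e4 := hX.h
        linarith
  have h2 := kp_log h1 hρ0
  refine h2.trans ?_
  have h3 := log_mul_le (K := 2 * (nJ m E : ℕ) + 3) (X := X) (ρ := ρ) (by positivity) hX0 hρ0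
    hρ.le
  have h4 := mul_le_mul_of_nonneg_left h3 (show (0 : ℝ) ≤ 4 * ((nJ m E + 2 : ℕ) : ℝ) by positivity)
  refine h4.trans (le_of_eq ?_)
  push_cast
  ring

/-! ### The code of the shapes -/

/-- The vector of a shape. -/
noncomputable def fS (M l : ℕ) (s : ShV (nJ m E)) : Fin (nJ m E + 2) → ℤ :=
  Fin.cons ((M : ℤ) - (Nat.log 2 (s.q / l) : ℕ)) (Fin.cons s.dz (fun j => (s.gu j : ℤ)))

theorem fS_inj (M : ℕ) {l : ℕ} (hl : 1 ≤ l) :
    Set.InjOn (fS (m := m) (E := E) M l) {s | ∃ i, s.q = 2 ^ i * l} := by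
  rintro ⟨q, gu, dz⟩ ⟨i, hi⟩ ⟨q', gu', dz'⟩ ⟨i', hi'⟩ e
  unfold fS at e
  rw [Fin.cons_inj, Fin.cons_inj] at e
  obtain ⟨e1, e2, e3⟩ := e
  change q = 2 ^ i * l at hi
  change q' = 2 ^ i' * l at hi'
  subst hi
  subst hi'
  have f : ∀ i, Nat.log 2 (2 ^ i * l / l) = i := fun i => by
    rw [Nat.mul_div_cancel _ (by omega), Nat.log_pow (by norm_num)]
  have e4 : i = i' := by
    have : (M : ℤ) - ((Nat.log 2 (2 ^ i * l / l) : ℕ) : ℤ) =
      M - ((Nat.log 2 (2 ^ i' * l / l) : ℕ) : ℤ) := e1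
    rw [f, f] at this
    omega
  subst e4
  have e5 : dz = dz' := e2
  subst e5
  congr 1
  funext j
  have := congrFun e3 j
  exact_mod_cast this

section pair

variable {J w l : ℕ} {c : Cc m E} {k a : ℕ} {x : Ln m} {t t₀ t₁ : ℕ} {v v₀ v₁ : Vl m E}

/-- The gains of a pair. -/
theorem Pr.gu_bd (h : Pr P J w l c k a x t₀ t₁ v₀ v₁) {H : ℕ} (h0 : P.hx c v₀ ≤ H)
    (h1 : P.hx c v₁ ≤ H) (j : Fin (nJ m E)) :
    (shv b l v₀ v₁).gu j ≤ (2 * H + (3 * nJ m E + 2) + qq l v₁.al * (1 + b.A₀)) /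
      qq l v₁.al + 1 := by
  refine gu_le b h.l1 v₀ v₁ j ?_
  have hq := qq_pos h.l1 v₁.al
  have e0 := (P.hx_spec c v₀).1.1
  have e1 := (P.hx_spec c v₁).1.1
  have key : ∀ v : Vl m E, P.hx c v ≤ H → c.c.B.near (2 ^ P.hx c v) v.c.B →
      c.c.B.le (2 ^ H) (upB b.A₀ (qq l v₁.al) v.c.B) := by
    intro v hv hn
    have f1 := hn.1.mono (pow_le_pow_right₀ (by norm_num : (1 : ℝ) ≤ 2) hv)
    have f2 := f1.trans (le_up (A₀ := b.A₀) hq v.c.B) (by positivity)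
    rwa [mul_one] at f2
  have k0 := key v₀ h0 (P.hx_spec c v₀).1
  have k1 := key v₁ h1 (P.hx_spec c v₁).1
  have hJ : c.c.B.le (2 ^ (nJ m E + 2 + H)) (jv b l v₀ v₁) := by
    intro u hu
    refine Bd.mul_mono ?_ _ (mul_jn _ _ (by positivity) (k0 hu) (k1 hu))
    have e : (2 : ℝ) ^ (nJ m E + 2 + H) = 4 * 2 ^ nJ m E * 2 ^ H := by
      rw [pow_add, pow_add]
      ring
    rw [e]
    exact mul_le_mul_of_nonneg_right (mul_le_mul_of_nonneg_left (nat_le_two_pow _)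
      (by norm_num)) (by positivity)
  have f1 := s_le_r hJ j
  have f2 := up_r_le (A₀ := b.A₀) hq v₁.c.B j
  have f3 := (hx_r (P := P) c v₁ j).2
  have h1' : (P.hx c v₁ : ℤ) ≤ H := by exact_mod_cast h1
  push_cast at f1 ⊢
  linarith

theorem sh_code (P : Par m E) (b : BP) (w l : ℕ) (c : Cc m E) (k : ℕ) (hl : 1 ≤ l)
    (hcw : c.w ≤ w) :
    ∃ q : ShV (nJ m E) → ℝ, Kraft q ∧
    ∀ (J a : ℕ) (x : Ln m) (t₀ t₁ : ℕ) (v₀ v₁ : Vl m E), Pr P J w l c k a x t₀ t₁ v₀ v₁ →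
      0 < q (shv b l v₀ v₁) ∧
      -Real.log (q (shv b l v₀ v₁)) ≤
        (4 * (nJ m E + 2) * (2 * (8 * P.cs + 3 * nJ m E + b.A₀ + 16) + 1)) *
          Real.log (2 + ((k : ℝ) + P.hx c v₀) / ((l : ℝ) + v₀.al)) ∧
      -Real.log (q (shv b l v₀ v₁)) ≤
        (4 * (nJ m E + 2) * (2 * (8 * P.cs + 3 * nJ m E + b.A₀ + 16) + 1)) *
          Real.log (2 + ((k : ℝ) + P.hx c v₁) / ((l : ℝ) + v₁.al)) := by
  classical
  refine ⟨fun s => if s ∈ {s : ShV (nJ m E) | ∃ i, s.q = 2 ^ i * l} then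
    kp (fS (Nat.log 2 ((l + k) / l)) l s) else 0,
    by convert kraft_pull _ _ (fS_inj (Nat.log 2 ((l + k) / l)) hl) (kraft_kp _), ?_⟩
  intro J a x t₀ t₁ v₀ v₁ h
  have hmem : shv b l v₀ v₁ ∈ {s : ShV (nJ m E) | ∃ i, s.q = 2 ^ i * l} :=
    ⟨Nat.log 2 ((l + v₁.al) / l), rfl⟩
  simp only [if_pos hmem]
  refine ⟨kp_pos _, ?_⟩
  obtain ⟨q, hqd⟩ : ∃ q, q = qq l v₁.al := ⟨_, rfl⟩
  obtain ⟨H, hH⟩ : ∃ H, H = max (P.hx c v₀) (P.hx c v₁) := ⟨_, rfl⟩
  have hq : 0 < q := by rw [hqd]; exact qq_pos h.l1 v₁.al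
  have hqr : (1 : ℝ) ≤ q := by exact_mod_cast hq
  have hqp : (0 : ℝ) < q := by linarith
  have hH0 : (0 : ℝ) ≤ (H : ℝ) / q := by positivity
  have hN0 : (0 : ℝ) ≤ (nJ m E : ℕ) := Nat.cast_nonneg _
  have hA0 : (0 : ℝ) ≤ (b.A₀ : ℕ) := Nat.cast_nonneg _
  have hcs0 : (0 : ℝ) ≤ (P.cs : ℕ) := Nat.cast_nonneg _
  have hkq : (0 : ℝ) ≤ ((l : ℝ) + k) / q := by positivity
  -- the bound of the vector
  obtain ⟨ρ, hρ⟩ : ∃ ρ : ℝ, ρ = ((l : ℝ) + k) / q + 2 * P.cs * (H / q) + 2 * (H / q) +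
    (3 * (nJ m E : ℕ) + 2) + (1 + b.A₀) + 2 := ⟨_, rfl⟩
  have hcsH : (0 : ℝ) ≤ 2 * P.cs * (H / q) := by positivity
  have hρ0 : 0 ≤ ρ := by
    rw [hρ]
    positivity
  have h1 : ∀ i, |(fS (Nat.log 2 ((l + k) / l)) l (shv b l v₀ v₁) i : ℝ)| ≤ ρ := by
    intro i
    refine Fin.cases ?_ (fun i => ?_) i
    · have e0 : Nat.log 2 ((shv b l v₀ v₁).q / l) = Nat.log 2 ((l + v₁.al) / l) := by
        show Nat.log 2 (2 ^ Nat.log 2 ((l + v₁.al) / l) * l / l) = _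
        rw [Nat.mul_div_cancel _ (by omega), Nat.log_pow (by norm_num)]
      show |(((Nat.log 2 ((l + k) / l) : ℤ) - (Nat.log 2 ((shv b l v₀ v₁).q / l) : ℤ) : ℤ) : ℝ)| ≤ ρ
      rw [e0]
      have hal : v₁.al ≤ k := by
        have := h.ok₁.wk
        omega
      have e1 := imax_le hl hal
      rw [← hqd] at e1
      rw [hρ]
      linarith
    · refine Fin.cases ?_ (fun j => ?_) i
      · show |((v₀.sz / (qq l v₁.al : ℤ) - v₁.sz / (qq l v₁.al : ℤ) : ℤ) : ℝ)| ≤ ρ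
        rw [← hqd]
        have e1 := ediv_sub_le hq v₀.sz v₁.sz
        have e2 : |v₀.sz - v₁.sz| ≤ P.cs * H + P.cs * H := by
          have f1 := hx_sz (P := P) c v₀
          have f2 := hx_sz (P := P) c v₁
          have f3 : (P.cs * P.hx c v₀ : ℤ) ≤ P.cs * H := by
            have : P.hx c v₀ ≤ H := by rw [hH]; exact le_max_left _ _
            exact_mod_cast Nat.mul_le_mul_left _ this
          have f4 : (P.cs * P.hx c v₁ : ℤ) ≤ P.cs * H := by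
            have : P.hx c v₁ ≤ H := by rw [hH]; exact le_max_right _ _
            exact_mod_cast Nat.mul_le_mul_left _ this
          have f5 := abs_sub_le v₀.sz c.sz v₁.sz
          rw [abs_sub_comm v₀.sz c.sz] at f5
          linarith
        have e3 : |((v₀.sz - v₁.sz : ℤ) : ℝ)| ≤ P.cs * H + P.cs * H := by exact_mod_cast e2
        have e4 : |((v₀.sz - v₁.sz : ℤ) : ℝ)| / q ≤ 2 * P.cs * (H / q) := by
          rw [div_le_iff₀ hqp]
          have : 2 * (P.cs : ℝ) * (H / q) * q = P.cs * H + P.cs * H := by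
            field_simp
            ring
          linarith
        rw [hρ]
        linarith
      · show |((((shv b l v₀ v₁).gu j : ℕ) : ℤ) : ℝ)| ≤ ρ
        have e1 := h.gu_bd (b := b) (H := H) (by rw [hH]; exact le_max_left _ _)
          (by rw [hH]; exact le_max_right _ _) j
        rw [← hqd] at e1
        have e2 : (((2 * H + (3 * nJ m E + 2) + q * (1 + b.A₀)) / q : ℕ) : ℝ) ≤
            ((2 * H + (3 * nJ m E + 2) + q * (1 + b.A₀) : ℕ) : ℝ) / q := Nat.cast_div_le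
        have e3 : (((shv b l v₀ v₁).gu j : ℕ) : ℝ) ≤
            (((2 * H + (3 * nJ m E + 2) + q * (1 + b.A₀)) / q : ℕ) : ℝ) + 1 := by
          exact_mod_cast e1
        have e4 : ((2 * H + (3 * nJ m E + 2) + q * (1 + b.A₀) : ℕ) : ℝ) / q ≤
            2 * (H / q) + (3 * (nJ m E : ℕ) + 2) + (1 + b.A₀) := by
          push_cast
          rw [div_le_iff₀ hqp]
          have f1 : (2 * ((H : ℝ) / q) + (3 * (nJ m E : ℕ) + 2) + (1 + b.A₀)) * q =
              2 * H + (3 * (nJ m E : ℕ) + 2) * q + q * (1 + b.A₀) := by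
            field_simp
          rw [f1]
          nlinarith
        rw [Int.cast_natCast, abs_of_nonneg (Nat.cast_nonneg _), hρ]
        linarith
  have h2 := kp_log h1 hρ0
  -- the two sides
  have hqe := h.q_eq
  have hhx := h.hxq
  rw [← hqd] at hqe hhx
  have side : ∀ v : Vl m E, qq l v.al = q → P.hx c v / q = P.hx c v₁ / q →
      -Real.log (kp (fS (Nat.log 2 ((l + k) / l)) l (shv b l v₀ v₁))) ≤
        (4 * (nJ m E + 2) * (2 * (8 * P.cs + 3 * nJ m E + b.A₀ + 16) + 1)) *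
          Real.log (2 + ((k : ℝ) + P.hx c v) / ((l : ℝ) + v.al)) := by
    intro v hv hvx
    have hX := xx_of (P := P) hl c k v
    obtain ⟨X, hXd⟩ : ∃ X, X = ((k : ℝ) + P.hx c v) / ((l : ℝ) + v.al) := ⟨_, rfl⟩
    rw [← hXd] at hX ⊢
    have hX0 := hX.X0
    have x1 := hX.h
    have x2 := hX.lk
    rw [hv] at x1 x2
    have x3 : (H : ℝ) / q ≤ 2 * X + 1 := by
      have f1 : H ≤ P.hx c v + q := by
        have g1 : ∀ y, y / q = P.hx c v₁ / q → y ≤ P.hx c v + q := by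
          intro y hy
          have g2 : y < (y / q + 1) * q := by
            have := Nat.lt_div_mul_add (a := y) (b := q) hq
            rw [add_mul, one_mul]
            exact this
          rw [hy, ← hvx] at g2
          have g3 := Nat.div_mul_le_self (P.hx c v) q
          rw [add_mul, one_mul] at g2
          omega
        rw [hH]
        exact max_le (g1 _ hhx) (g1 _ rfl)
      have f2 : (H : ℝ) ≤ P.hx c v + q := by exact_mod_cast f1
      have f3 : (H : ℝ) / q ≤ ((P.hx c v : ℝ) + q) / q := div_le_div_of_nonneg_right f2 hqp.le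
      rw [add_div, div_self hqp.ne'] at f3
      linarith
    have h3 := log_mul_le (K := 8 * P.cs + 3 * (nJ m E : ℕ) + b.A₀ + 16) (X := X) (ρ := ρ)
      (by positivity) hX0 hρ0 (by
        rw [hρ]
        have f1 : 2 * (P.cs : ℝ) * (H / q) ≤ 2 * P.cs * (2 * X + 1) :=
          mul_le_mul_of_nonneg_left x3 (by positivity)
        have f2 : 0 ≤ (P.cs : ℝ) * X := by positivity
        have f3 : 0 ≤ ((nJ m E : ℕ) : ℝ) * X := by positivity
        have f4 : 0 ≤ ((b.A₀ : ℕ) : ℝ) * X := by positivity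
        nlinarith)
    have h4 := mul_le_mul_of_nonneg_left h3
      (show (0 : ℝ) ≤ 4 * ((nJ m E + 2 : ℕ) : ℝ) by positivity)
    refine h2.trans (h4.trans (le_of_eq ?_))
    push_cast
    ring
  exact ⟨side v₀ hqe hhx, side v₁ hqd.symm rfl⟩

end pair

end Pool.GC
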