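import Pool.Agent.H96.GEO.Bod

/-!
# Pairs of labels of the same type
-/

set_option autoImplicit false

namespace Pool.GC

open Finset Real
open Pool.LAT
open Pool.KNH (LA LB Ln GS)
open Pool.KNB (nJ)

/-! ### The unit of length -/

theorem qq_pos {l : ℕ} (hl : 1 ≤ l) (al : ℕ) : 0 < qq l al := by
  unfold qq
  positivity

theorem le_qq (l al : ℕ) : l ≤ qq l al := by
  unfold qq
  exact Nat.le_mul_of_pos_left _ (by positivity)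

theorem qq_le {l : ℕ} (hl : 1 ≤ l) (al : ℕ) : qq l al ≤ l + al := by
  unfold qq
  have h1 : (l + al) / l ≠ 0 := by
    have : 1 ≤ (l + al) / l := (Nat.one_le_div_iff (by omega)).mpr (by omega)
    omega
  have h2 := Nat.pow_log_le_self 2 h1
  exact (Nat.mul_le_mul_right _ h2).trans (Nat.div_mul_le_self _ _)

theorem lt_qq {l : ℕ} (hl : 1 ≤ l) (al : ℕ) : l + al < 2 * qq l al := by
  unfold qq
  have h2 := Nat.lt_pow_succ_log_self (b := 2) (by norm_num) ((l + al) / l)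
  rw [Nat.div_lt_iff_lt_mul (by omega)] at h2
  rw [pow_succ] at h2
  calc l + al < 2 ^ Nat.log 2 ((l + al) / l) * 2 * l := h2
    _ = 2 * (2 ^ Nat.log 2 ((l + al) / l) * l) := by ring

/-! ### Curves -/

/-- The facts on the curves of the lines: `Cg` is the constant. -/
structure Cur (m E Cg : ℕ) : Prop where
  grow : ∀ (B : Bd (nJ m E)) (x x' : Ln m) (w al t t' : ℕ) (κ : ℝ), 0 ≤ κ → t' / 2 ^ al = t →
    (∀ i a, |B.fn a (phl E x (nod (dD m E) (w + al) t' i)) -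
      B.fn a (phl E x' (nod (dD m E) (w + al) t' i))| ≤ κ) →
    ∀ s ∈ win w t, ∀ a, |B.fn a (phl E x s) - B.fn a (phl E x' s)| ≤ 2 ^ (Cg + dD m E * al) * κ
  bx : ∀ (x : Ln m) (s : ℝ), (∀ i, |x.1 i| ≤ 2 ∧ |x.2 i| ≤ 2) → 0 ≤ s →
    s ≤ 1 → ‖phl E x s‖ ≤ 2 ^ Cg
  nod_mem : ∀ (w t : ℕ) (i : Fin (dD m E + 1)), nod (dD m E) w t i ∈ win w t
  sj_mono : ∀ (B : Bd (nJ m E)) (x : Ln m) (w al t t' : ℕ), t' / 2 ^ al = t →
    SJ B (w + al) t' x ≤ SJ B w t x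
  sj_grow : ∀ (B : Bd (nJ m E)) (x : Ln m) (w al t t' : ℕ), t' / 2 ^ al = t →
    SJ B w t x ≤ 2 ^ (Cg + Cg * al) * SJ B (w + al) t' x
  sj_le : ∀ (A B : Bd (nJ m E)) (x : Ln m) (w t n : ℕ), A.le (2 ^ n) B →
    SJ B w t x ≤ 2 ^ (Cg + m * n) * SJ A w t x

variable {m E : ℕ} {P : Par m E} {b : BP}

/-! ### Pairs -/

/-- The pairs of labels. -/
structure Pr (P : Par m E) (J w l : ℕ) (c : Cc m E) (k a : ℕ) (x : Ln m) (t₀ t₁ : ℕ)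
    (v₀ v₁ : Vl m E) : Prop where
  l1 : 1 ≤ l
  wJ : w + l ≤ J
  cw : c.w ≤ w
  ok₀ : okv P J (w + l) c k a x t₀ v₀
  ok₁ : okv P J (w + l) c k a x t₁ v₁
  tt : t₀ / 2 ^ l = t₁ / 2 ^ l
  ty : tyv P l c v₀ = tyv P l c v₁

theorem pr_of {J w l : ℕ} (hl : 1 ≤ l) (hw : w + l ≤ J) {c : Cc m E} {k a : ℕ} {x : Ln m}
    {t₀ t₁ : ℕ} {v₀ v₁ : Vl m E}
    (h : (P.gs b).Two (L := P.cls.toLA) J w l c k a x t₀ t₁ v₀ v₁) :
    Pr P J w l c k a x t₀ t₁ v₀ v₁ := ⟨hl, hw, h.1, h.2.1, h.2.2.1, h.2.2.2.1, h.2.2.2.2⟩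

section pr

variable {J w l : ℕ} {c : Cc m E} {k a : ℕ} {x : Ln m} {t₀ t₁ : ℕ} {v₀ v₁ : Vl m E}

theorem Pr.q_eq (h : Pr P J w l c k a x t₀ t₁ v₀ v₁) : qq l v₀.al = qq l v₁.al := by
  have h1 := congrArg TyV.i h.ty
  unfold qq
  change Nat.log 2 ((l + v₀.al) / l) = Nat.log 2 ((l + v₁.al) / l) at h1
  rw [h1]

theorem Pr.up_r (h : Pr P J w l c k a x t₀ t₁ v₀ v₁) (A₀ : ℕ) :
    (upB A₀ (qq l v₁.al) v₀.c.B).r = (upB A₀ (qq l v₁.al) v₁.c.B).r := by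
  funext j
  have h1 := congrFun (congrArg TyV.r h.ty) j
  change v₀.c.B.r j / (qq l v₀.al : ℤ) = v₁.c.B.r j / (qq l v₁.al : ℤ) at h1
  rw [h.q_eq] at h1
  show (qq l v₁.al : ℤ) * (v₀.c.B.r j / (qq l v₁.al : ℤ) + 1 + A₀) =
    (qq l v₁.al : ℤ) * (v₁.c.B.r j / (qq l v₁.al : ℤ) + 1 + A₀)
  rw [h1]

theorem Pr.hxq (h : Pr P J w l c k a x t₀ t₁ v₀ v₁) :
    P.hx c v₀ / qq l v₁.al = P.hx c v₁ / qq l v₁.al := by
  have h1 := congrArg TyV.h h.ty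
  change P.hx c v₀ / qq l v₀.al = P.hx c v₁ / qq l v₁.al at h1
  rwa [h.q_eq] at h1

/-- The join of the rounded bodies. -/
noncomputable def jv (b : BP) (l : ℕ) (v₀ v₁ : Vl m E) : Bd (nJ m E) :=
  jn (upB b.A₀ (qq l v₁.al) v₀.c.B) (upB b.A₀ (qq l v₁.al) v₁.c.B)

theorem gu_ge (b : BP) {l : ℕ} (hl : 1 ≤ l) (v₀ v₁ : Vl m E) (j : Fin (nJ m E)) :
    (upB b.A₀ (qq l v₁.al) v₁.c.B).r j ≤
      (jv b l v₀ v₁).r j + ((qq l v₁.al * (shv b l v₀ v₁).gu j : ℕ) : ℤ) := by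
  have hq : (0 : ℤ) < qq l v₁.al := by exact_mod_cast qq_pos hl _
  obtain ⟨d, hd⟩ : ∃ d, d = (upB b.A₀ (qq l v₁.al) v₁.c.B).r j - (jv b l v₀ v₁).r j := ⟨_, rfl⟩
  have h1 : (((shv b l v₀ v₁).gu j : ℕ) : ℤ) = ((d / (qq l v₁.al : ℤ) + 1).toNat : ℤ) := by
    rw [hd]
    rfl
  have h2 := Int.lt_ediv_add_one_mul_self d hq
  have h3 := Int.self_le_toNat (d / (qq l v₁.al : ℤ) + 1)
  push_cast
  rw [h1]
  have h4 : (d / (qq l v₁.al : ℤ) + 1) * (qq l v₁.al : ℤ) ≤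
      ((d / (qq l v₁.al : ℤ) + 1).toNat : ℤ) * (qq l v₁.al : ℤ) :=
    mul_le_mul_of_nonneg_right h3 hq.le
  have h5 : d < ((d / (qq l v₁.al : ℤ) + 1).toNat : ℤ) * (qq l v₁.al : ℤ) := h2.trans_le h4
  linarith [mul_comm (qq l v₁.al : ℤ) ((d / (qq l v₁.al : ℤ) + 1).toNat : ℤ)]

/-- The upper bound for the gain. -/
theorem gu_le (b : BP) {l : ℕ} (hl : 1 ≤ l) (v₀ v₁ : Vl m E) (j : Fin (nJ m E)) {d : ℕ}
    (h : (upB b.A₀ (qq l v₁.al) v₁.c.B).r j ≤ (jv b l v₀ v₁).r j + d) :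
    (shv b l v₀ v₁).gu j ≤ d / qq l v₁.al + 1 := by
  have hq : (0 : ℤ) < qq l v₁.al := by exact_mod_cast qq_pos hl _
  show (((upB b.A₀ (qq l v₁.al) v₁.c.B).r j - (jv b l v₀ v₁).r j) /
    (qq l v₁.al : ℤ) + 1).toNat ≤ d / qq l v₁.al + 1
  rw [Int.toNat_le]
  have h1 : ((upB b.A₀ (qq l v₁.al) v₁.c.B).r j - (jv b l v₀ v₁).r j) / (qq l v₁.al : ℤ) ≤
      (d : ℤ) / (qq l v₁.al : ℤ) := Int.ediv_le_ediv hq (by linarith)
  push_cast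
  linarith

/-- The coarse bodies of the two labels. -/
theorem Pr.crs (h : Pr P J w l c k a x t₀ t₁ v₀ v₁) :
    ((upB b.A₀ (qq l v₁.al) v₁.c.B).crs
      (grw fun j => qq l v₁.al * (shv b l v₀ v₁).gu j)).near (nJ m E)
    ((upB b.A₀ (qq l v₁.al) v₀.c.B).crs
      (grw fun j => qq l v₁.al * (shv b l v₀ v₁).gu j)) := by
  refine crs_near (J := jv b l v₀ v₁) (h.up_r b.A₀) (jn_le₁ _ _) (jn_le₂ _ _)
    (g := fun j => qq l v₁.al * (shv b l v₀ v₁).gu j) (fun j => ?_) (fun i k hik => ?_)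
  · rw [h.up_r b.A₀]
    exact gu_ge b h.l1 v₀ v₁ j
  · exact grw_step _ hik

end pr

end Pool.GC
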