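import Pool.Agent.H96.GEO.Geo5

/-!
# Depths, ranges and sizes
-/

set_option autoImplicit false

namespace Pool.GC

open Finset Real
open Pool.LAT
open Pool.KNH (LA LB Ln GS ndc)
open Pool.KNB (nJ)

variable {m E : ℕ} {P : Par m E} {b : BP} {Cg g : ℕ}

theorem le_dep {N : ℕ} (B : Bd N) (i : Fin N) : -(dep B : ℤ) ≤ B.r i := by
  have h1 : (-B.r i).toNat ≤ dep B := le_sup (f := fun i => (-B.r i).toNat) (mem_univ i)
  have h2 := Int.self_le_toNat (-B.r i)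
  have h3 : ((-B.r i).toNat : ℤ) ≤ dep B := by exact_mod_cast h1
  linarith

theorem dep_le {N : ℕ} {B : Bd N} {n : ℕ} (h : ∀ i, -(n : ℤ) ≤ B.r i) : dep B ≤ n := by
  refine Finset.sup_le fun i _ => ?_
  rw [Int.toNat_le]
  linarith [h i]

/-- The constant of the bound of the range. -/
noncomputable def KR0 (m E : ℕ) (b : BP) : ℕ :=
  b.A₁ + b.A₂ * (nJ m E * (3 * nJ m E + b.A₀ + 5)) + 1

/-- The constant of the bound of the depth. -/
noncomputable def KR (m E : ℕ) (b : BP) : ℕ := (b.cA + 1) * KR0 m E b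

theorem KR_pos (m E : ℕ) (b : BP) : 1 ≤ KR m E b := by
  unfold KR KR0
  exact Nat.one_le_iff_ne_zero.mpr (by positivity)

/-- The condition on the weight of the depth. -/
def Cdc (P : Par m E) (b : BP) (κ : ℝ) : Prop :=
  8 * (KR m E b : ℝ) * (ndc m κ + P.top + 2) ≤ P.cd

/-- A ball inside a body. -/
theorem ball_le {N : ℕ} (B : Bd N) {n : ℕ} (h : ∀ j, -(n : ℤ) ≤ B.r j) {R : Bd N}
    (hR : ∀ j, R.r j = -(n : ℤ)) : R.le N B := by
  intro x hx j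
  have h1 : |inner ℝ (B.e j) x| ≤ ‖B.e j‖ * ‖x‖ := abs_real_inner_le_norm _ _
  rw [B.e.norm_eq_one, one_mul] at h1
  refine h1.trans ?_
  have h2 : ‖x‖ ≤ N * (2 : ℝ) ^ (-(n : ℤ)) := by
    rw [← R.e.sum_repr' x]
    refine (norm_sum_le _ _).trans ?_
    have h1 : ∀ a ∈ (univ : Finset (Fin N)), ‖inner ℝ (R.e a) x • R.e a‖ ≤
        (2 : ℝ) ^ (-(n : ℤ)) := by
      intro a _
      rw [norm_smul, R.e.norm_eq_one, mul_one, Real.norm_eq_abs]
      refine (hx a).trans ?_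
      show (2 : ℝ) ^ R.r a ≤ _
      rw [hR a]
    refine (sum_le_sum h1).trans ?_
    rw [sum_const, card_univ, Fintype.card_fin, nsmul_eq_mul]
  refine h2.trans (mul_le_mul_of_nonneg_left ?_ (Nat.cast_nonneg N))
  exact two_zpow_le (h j)

section pair

variable {J w l : ℕ} {c : Cc m E} {k a : ℕ} {x : Ln m} {t t₀ t₁ : ℕ} {v v₀ v₁ : Vl m E}

/-- The gains, from the depths. -/
theorem Pr.gu_dep (h : Pr P J w l c k a x t₀ t₁ v₀ v₁) {Dm : ℕ} (h0 : dep v₀.c.B ≤ Dm)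
    (h1 : dep v₁.c.B ≤ Dm) (j : Fin (nJ m E)) :
    qq l v₁.al * (shv b l v₀ v₁).gu j ≤
      P.top + Dm + 3 * nJ m E + 2 + qq l v₁.al * (2 + b.A₀) := by
  obtain ⟨q, hqd⟩ : ∃ q, q = qq l v₁.al := ⟨_, rfl⟩
  have hq : 0 < q := by rw [hqd]; exact qq_pos h.l1 v₁.al
  have e1 : (upB b.A₀ (qq l v₁.al) v₁.c.B).r j ≤ (jv b l v₀ v₁).r j +
      ((P.top + Dm + 3 * nJ m E + 2 + q * (1 + b.A₀) : ℕ) : ℤ) := by
    have k : ∀ v : Vl m E, dep v.c.B ≤ Dm → ∀ j, -(Dm : ℤ) ≤ (upB b.A₀ q v.c.B).r j := by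
      intro v hv j
      have f1 := le_dep v.c.B j
      have f2 := up_r_ge (A₀ := b.A₀) hq v.c.B j
      have f3 : (dep v.c.B : ℤ) ≤ Dm := by exact_mod_cast hv
      have f4 : (0 : ℤ) ≤ q * b.A₀ := by positivity
      linarith
    obtain ⟨R, hRr⟩ : ∃ R : Bd (nJ m E), ∀ j, R.r j = -(Dm : ℤ) :=
      ⟨Bd.mk v₀.c.B.e (fun _ => -(Dm : ℤ)) antitone_const, fun _ => rfl⟩
    have f0 := ball_le (upB b.A₀ q v₀.c.B) (k v₀ h0) hRr
    have f1 := ball_le (upB b.A₀ q v₁.c.B) (k v₁ h1) hRr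
    have f2 : R.le (2 ^ (2 + 2 * nJ m E)) (jv b l v₀ v₁) := by
      intro u hu
      have g0 := f0 hu
      have g1 := f1 hu
      unfold jv
      rw [← hqd]
      refine Bd.mul_mono ?_ _ (mul_jn _ _ (Nat.cast_nonneg _) g0 g1)
      have e : (2 : ℝ) ^ (2 + 2 * nJ m E) = 4 * 2 ^ nJ m E * 2 ^ nJ m E := by
        rw [pow_add, two_mul, pow_add]
        ring
      rw [e]
      exact mul_le_mul (mul_le_mul_of_nonneg_left (nat_le_two_pow _) (by norm_num))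
        (nat_le_two_pow _) (by positivity) (by positivity)
    have f3 := s_le_r f2 j
    rw [hRr] at f3
    have f4 := up_r_le (A₀ := b.A₀) hq v₁.c.B j
    have f5 := h.ok₁.top j
    rw [← hqd]
    push_cast at f3 ⊢
    linarith
  have e2 := gu_le b h.l1 v₀ v₁ j e1
  rw [← hqd] at e2 ⊢
  have e3 := Nat.mul_le_mul_left q e2
  have e4 := Nat.mul_div_le (P.top + Dm + 3 * nJ m E + 2 + q * (1 + b.A₀)) q
  calc q * (shv b l v₀ v₁).gu j ≤
        q * ((P.top + Dm + 3 * nJ m E + 2 + q * (1 + b.A₀)) / q + 1) := e3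
    _ = q * ((P.top + Dm + 3 * nJ m E + 2 + q * (1 + b.A₀)) / q) + q := by ring
    _ ≤ P.top + Dm + 3 * nJ m E + 2 + q * (1 + b.A₀) + q := Nat.add_le_add_right e4 _
    _ = P.top + Dm + 3 * nJ m E + 2 + q * (2 + b.A₀) := by ring

/-- The range, from the depths. -/
theorem Pr.rg_le₀ (h : Pr P J w l c k a x t₀ t₁ v₀ v₁) {Dm : ℕ} (h0 : dep v₀.c.B ≤ Dm)
    (h1 : dep v₁.c.B ≤ Dm) : rgv b (shv b l v₀ v₁) ≤ KR0 m E b * (J + P.top + Dm) := by
  obtain ⟨q, hqd⟩ : ∃ q, q = qq l v₁.al := ⟨_, rfl⟩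
  have hq : 0 < q := by rw [hqd]; exact qq_pos h.l1 v₁.al
  have hqJ : q ≤ J := by
    have f1 := qq_le h.l1 v₁.al
    have f2 := h.ok₁.wJ
    omega
  have e1 : ∑ j, q * (shv b l v₀ v₁).gu j ≤
      nJ m E * (P.top + Dm + 3 * nJ m E + 2 + q * (2 + b.A₀)) := by
    refine (sum_le_sum fun j _ => (by rw [hqd]; exact h.gu_dep (b := b) h0 h1 j :
      q * (shv b l v₀ v₁).gu j ≤ P.top + Dm + 3 * nJ m E + 2 + q * (2 + b.A₀))).trans ?_
    rw [sum_const, card_univ, Fintype.card_fin, smul_eq_mul]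
  rw [← mul_sum] at e1
  show qq l v₁.al * (b.A₁ + b.A₂ * ∑ j, (shv b l v₀ v₁).gu j) ≤ _
  rw [← hqd]
  obtain ⟨G, hG⟩ : ∃ G, G = ∑ j, (shv b l v₀ v₁).gu j := ⟨_, rfl⟩
  rw [← hG] at e1 ⊢
  obtain ⟨N, hN⟩ : ∃ N, N = nJ m E := ⟨_, rfl⟩
  unfold KR0
  rw [← hN] at e1 ⊢
  have e2 : P.top + Dm + 3 * N + 2 + q * (2 + b.A₀) ≤ (3 * N + b.A₀ + 5) * (J + P.top + Dm) := by
    have f1 : q * (2 + b.A₀) ≤ J * (2 + b.A₀) := Nat.mul_le_mul_right _ hqJ
    have f2 : (3 * N + 2) * 1 ≤ (3 * N + 2) * J := Nat.mul_le_mul_left _ (by omega)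
    have f3 : (3 * N + b.A₀ + 5) * (J + P.top + Dm) = (3 * N + 2) * J + J * (2 + b.A₀) + J +
      (3 * N + b.A₀ + 5) * (P.top + Dm) := by ring
    have f4 : 1 * (P.top + Dm) ≤ (3 * N + b.A₀ + 5) * (P.top + Dm) :=
      Nat.mul_le_mul_right _ (by omega)
    rw [f3]
    omega
  have e3 : b.A₂ * (q * G) ≤ b.A₂ * (N * ((3 * N + b.A₀ + 5) * (J + P.top + Dm))) :=
    Nat.mul_le_mul_left _ (e1.trans (Nat.mul_le_mul_left _ e2))
  have e4 : q * b.A₁ ≤ b.A₁ * (J + P.top + Dm) := by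
    rw [mul_comm]
    exact Nat.mul_le_mul_left _ (by omega)
  calc q * (b.A₁ + b.A₂ * G) = q * b.A₁ + b.A₂ * (q * G) := by ring
    _ ≤ b.A₁ * (J + P.top + Dm) + b.A₂ * (N * ((3 * N + b.A₀ + 5) * (J + P.top + Dm))) :=
        Nat.add_le_add e4 e3
    _ ≤ (b.A₁ + b.A₂ * (N * (3 * N + b.A₀ + 5)) + 1) * (J + P.top + Dm) := by
        have : (b.A₁ + b.A₂ * (N * (3 * N + b.A₀ + 5)) + 1) * (J + P.top + Dm) =
          b.A₁ * (J + P.top + Dm) + b.A₂ * (N * ((3 * N + b.A₀ + 5) * (J + P.top + Dm))) +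
          (J + P.top + Dm) := by ring
        omega

theorem Pr.rg_le (h : Pr P J w l c k a x t₀ t₁ v₀ v₁) {Dm : ℕ} (h0 : dep v₀.c.B ≤ Dm)
    (h1 : dep v₁.c.B ≤ Dm) :
    (b.cA + 1) * rgv b (shv b l v₀ v₁) ≤ KR m E b * (J + P.top + Dm) := by
  unfold KR
  rw [mul_assoc]
  exact Nat.mul_le_mul_left _ (h.rg_le₀ h0 h1)

/-- The labels which are not deep. -/
theorem nd_dep {κ : ℝ} (hcd : Cdc P b κ) (hJ : 1 ≤ J) (hn : P.cls.dp J v < ndc m κ) :
    8 * (KR m E b * dep v.c.B) ≤ P.fl J := by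
  have hfl := P.fl_large J hJ
  have hJ' : (1 : ℝ) ≤ J := by exact_mod_cast hJ
  have hcd0 := P.cd_nonneg
  have hn' : P.cd * (dep v.c.B : ℝ) / P.fl J < ndc m κ := hn
  have hdp : (0 : ℝ) ≤ P.cd * (dep v.c.B : ℝ) / P.fl J :=
    div_nonneg (mul_nonneg hcd0 (Nat.cast_nonneg _)) (Nat.cast_nonneg _)
  have hnd0 : 0 < ndc m κ := hdp.trans_lt hn'
  have htop : (0 : ℝ) ≤ P.top := Nat.cast_nonneg _
  have hK : (1 : ℝ) ≤ KR m E b := by
    have : 1 ≤ KR m E b := KR_pos m E b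
    exact_mod_cast this
  have hcd1 : 0 < P.cd := by
    refine lt_of_lt_of_le ?_ hcd
    positivity
  have hflp : (0 : ℝ) < P.fl J := by
    refine lt_of_lt_of_le ?_ hfl
    positivity
  rw [div_lt_iff₀ hflp] at hn'
  have hd0 : (0 : ℝ) ≤ dep v.c.B := Nat.cast_nonneg _
  have h1 : 8 * (KR m E b : ℝ) * (ndc m κ + P.top + 2) * dep v.c.B ≤ ndc m κ * P.fl J :=
    (mul_le_mul_of_nonneg_right hcd hd0).trans hn'.le
  have h2 : ndc m κ * P.fl J ≤ (ndc m κ + P.top + 2) * P.fl J :=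
    mul_le_mul_of_nonneg_right (by linarith) hflp.le
  have h3 : (ndc m κ + P.top + 2) * (8 * (KR m E b * dep v.c.B)) ≤
      (ndc m κ + P.top + 2) * P.fl J := by
    refine le_trans (le_of_eq ?_) (h1.trans h2)
    ring
  have h4 := le_of_mul_le_mul_left h3 (by linarith)
  exact_mod_cast h4

theorem J_le_fl {κ : ℝ} (hcd : Cdc P b κ) (hJ : 1 ≤ J) (hκ : 0 ≤ ndc m κ) :
    8 * (KR m E b * (J + P.top)) ≤ P.fl J := by
  have hfl := P.fl_large J hJ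
  have hJ' : (1 : ℝ) ≤ J := by exact_mod_cast hJ
  have htop : (0 : ℝ) ≤ P.top := Nat.cast_nonneg _
  have hK : (0 : ℝ) ≤ KR m E b := Nat.cast_nonneg _
  have h1 : (J : ℝ) + P.top ≤ (ndc m κ + P.top + 2) * J := by
    have e1 : 0 ≤ ndc m κ * J := by positivity
    have e2 : (P.top : ℝ) * 1 ≤ P.top * J := mul_le_mul_of_nonneg_left hJ' htop
    nlinarith
  have h2 : 8 * (KR m E b * ((J : ℝ) + P.top)) ≤ P.fl J := by
    calc 8 * (KR m E b * ((J : ℝ) + P.top)) ≤ 8 * (KR m E b * ((ndc m κ + P.top + 2) * J)) := by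
          have := mul_le_mul_of_nonneg_left h1 hK
          linarith
      _ = 8 * (KR m E b : ℝ) * (ndc m κ + P.top + 2) * J := by ring
      _ ≤ P.cd * J := mul_le_mul_of_nonneg_right hcd (by linarith)
      _ ≤ P.cd * (J : ℝ) ^ 2 := by
          refine mul_le_mul_of_nonneg_left ?_ P.cd_nonneg
          nlinarith
      _ ≤ P.fl J := hfl
  exact_mod_cast h2

/-- The range and the depth of a pair of labels which are not deep. -/
theorem Pr.nd_rg {κ : ℝ} (hcd : Cdc P b κ) (h : Pr P J w l c k a x t₀ t₁ v₀ v₁)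
    (n0 : P.cls.dp J v₀ < ndc m κ) (n1 : P.cls.dp J v₁ < ndc m κ) :
    dep v₁.c.B + (b.cA + 1) * rgv b (shv b l v₀ v₁) ≤ P.fl J := by
  have hJ : 1 ≤ J := by
    have := h.l1
    have := h.wJ
    omega
  have hnd0 : 0 ≤ ndc m κ := by
    have h1 : (0 : ℝ) ≤ P.cls.dp J v₁ := P.cls.dp_nonneg J v₁
    linarith
  have e0 := nd_dep hcd hJ n0
  have e1 := nd_dep hcd hJ n1
  have e2 := J_le_fl hcd hJ hnd0
  have e3 := h.rg_le (b := b) (Dm := max (dep v₀.c.B) (dep v₁.c.B)) (le_max_left _ _)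
    (le_max_right _ _)
  have hK : 1 ≤ KR m E b := KR_pos m E b
  have e4 : KR m E b * (J + P.top + max (dep v₀.c.B) (dep v₁.c.B)) =
      KR m E b * (J + P.top) + KR m E b * max (dep v₀.c.B) (dep v₁.c.B) := by ring
  have e5 : 8 * (KR m E b * max (dep v₀.c.B) (dep v₁.c.B)) ≤ P.fl J := by
    rcases le_total (dep v₀.c.B) (dep v₁.c.B) with h1 | h1
    · rw [max_eq_right h1]
      exact e1
    · rw [max_eq_left h1]
      exact e0
  have e6 : dep v₁.c.B ≤ KR m E b * dep v₁.c.B := Nat.le_mul_of_pos_left _ hK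
  rw [e4] at e3
  omega

/-! ### Sizes -/

/-- The size in the small window. -/
theorem okv.le_SJ' (hC : Cur m E Cg) (h : okv P J w c k a x t v) :
    (2 : ℝ) ^ v.sz ≤ SJ v.c.B w t x := by
  have h1 := okv.le_SJ (w := w) (l := 0) hC h
  rwa [pow_zero, Nat.div_one] at h1

theorem okv.SJ_le' (hC : Cur m E Cg) (h : okv P J w c k a x t v) :
    SJ v.c.B w t x ≤ 2 ^ (Cg + Cg * v.al) * 2 ^ (v.sz + 1) := by
  have h1 := okv.SJ_le (w := w) (l := 0) hC h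
  rwa [pow_zero, Nat.div_one, zero_add] at h1

/-- The size of a body near the body of the label, in the window. -/
theorem sz_near (hC : Cur m E Cg) (h : okv P J w c k a x t v) {B : Bd (nJ m E)} {n : ℕ}
    (hB : v.c.B.near (2 ^ n) B) {s : ℤ} (hs : (2 : ℝ) ^ s ≤ SJ B w t x)
    (hs' : SJ B w t x < 2 ^ (s + 1)) :
    |v.sz - s| ≤ ((2 * Cg + Cg * v.al + m * n + 1 : ℕ) : ℤ) := by
  have h1 := h.le_SJ' hC
  have h2 := h.SJ_le' hC
  have h3 := hC.sj_le v.c.B B x w t n hB.1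
  have h4 := hC.sj_le B v.c.B x w t n hB.2
  have p : (0 : ℝ) < 2 ^ (Cg + m * n) := by positivity
  have e1 : s ≤ v.sz + ((Cg + m * n + (Cg + Cg * v.al) + 1 : ℕ) : ℤ) := by
    refine zpow_lt_of ?_
    refine hs.trans (h3.trans ((mul_le_mul_of_nonneg_left h2 p.le).trans (le_of_eq ?_)))
    rw [zpow_add_one₀ (by norm_num), pow_succ, pow_add 2 (Cg + m * n)]
    ring
  have e2 : v.sz ≤ s + ((Cg + m * n + 1 : ℕ) : ℤ) := by
    refine zpow_lt_of ?_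
    refine h1.trans (h4.trans ((mul_le_mul_of_nonneg_left hs'.le p.le).trans (le_of_eq ?_)))
    rw [zpow_add_one₀ (by norm_num), pow_succ]
    ring
  push_cast at e1 e2 ⊢
  have e3 : (0 : ℤ) ≤ Cg := Nat.cast_nonneg _
  have e4 : (0 : ℤ) ≤ Cg * v.al := by positivity
  rw [abs_le]
  constructor <;> linarith

end pair

end Pool.GC
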