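import Pool.Agent.H96.GEO.Tf1

/-!
# The labels of the boxes, and the domain of the boxes
-/

set_option autoImplicit false

namespace Pool.GC

open Finset Real
open Pool.LAT
open Pool.KNH (LA LB Ln GS ndc)
open Pool.KNB (nJ)

variable {m E : ℕ} {P : Par m E} {b : BP} {Cg g : ℕ}

/-- The condition on the constant of the volume. -/
def Ccv (P : Par m E) (g : ℕ) : Prop :=
  P.om * (Real.log 2 * ((∑ i, P.M i) * (g + nJ m E))) ≤ P.cH

theorem Cst.rg_ge' (hP : Cst P b Cg g) (l : ℕ) (v₀ v₁ : Vl m E) :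
    qq l v₁.al * (20 * Cg + (m + 1) * (nJ m E + 1) * (2 * cN (nJ m E) + 2 * b.A₀ + 10) + g +
      b.c₁ + b.c₂ + m * b.c₄ + 20 + (m * nJ m E + 2 * m + nJ m E + 4) *
        ∑ j, (shv b l v₀ v₁).gu j) ≤ rgv b (shv b l v₀ v₁) := by
  show _ ≤ qq l v₁.al * (b.A₁ + b.A₂ * ∑ j, (shv b l v₀ v₁).gu j)
  exact Nat.mul_le_mul_left _ (Nat.add_le_add hP.A₁' (Nat.mul_le_mul_right _ hP.A₂'))

section pair

variable {J w l : ℕ} {c : Cc m E} {k a : ℕ} {x : Ln m} {t t₀ t₁ : ℕ} {v v₀ v₁ : Vl m E}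

theorem Pr.c_le_rg (hP : Cst P b Cg g) (h : Pr P J w l c k a x t₀ t₁ v₀ v₁) :
    g + b.c₁ + b.c₂ + m * b.c₄ + 20 * Cg + 20 ≤ rgv b (shv b l v₀ v₁) ∧
      2 * qq l v₁.al ≤ rgv b (shv b l v₀ v₁) := by
  have h1 := hP.rg_ge' l v₀ v₁
  have hq := qq_pos h.l1 v₁.al
  refine ⟨le_trans ?_ h1, two_le_rg hP v₀ v₁⟩
  obtain ⟨M, hM⟩ : ∃ M, M = (m + 1) * (nJ m E + 1) * (2 * cN (nJ m E) + 2 * b.A₀ + 10) := ⟨_, rfl⟩
  obtain ⟨G, hG⟩ : ∃ G, G = (m * nJ m E + 2 * m + nJ m E + 4) *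
        ∑ j, (shv b l v₀ v₁).gu j := ⟨_, rfl⟩
  rw [← hM, ← hG]
  calc g + b.c₁ + b.c₂ + m * b.c₄ + 20 * Cg + 20 ≤
        1 * (20 * Cg + M + g + b.c₁ + b.c₂ + m * b.c₄ + 20 + G) := by omega
    _ ≤ _ := Nat.mul_le_mul_right _ hq

/-- The age is at most the range. -/
theorem Pr.al_le (hP : Cst P b Cg g) (h : Pr P J w l c k a x t₀ t₁ v₀ v₁) :
    l + v₁.al ≤ rgv b (shv b l v₀ v₁) := by
  have h1 := lt_qq h.l1 v₁.al
  have h2 := (h.c_le_rg hP).2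
  omega

/-- A body between the bodies of the pair is a body of a label of the outer cell. -/
theorem Pr.body (hP : Cst P b Cg g) {κ : ℝ} (hcd : Cdc P b κ)
    (h : Pr P J w l c k a x t₀ t₁ v₀ v₁)
    (n0 : P.cls.dp J v₀ < ndc m κ) (n1 : P.cls.dp J v₁ < ndc m κ) {B : Bd (nJ m E)}
    (hle : B.le (2 ^ (g - 1)) (crB P b a c.c.B v₀.c.B (shv b l v₀ v₁)))
    (hge : v₁.c.B.le (2 ^ ((b.cA + 1) * rgv b (shv b l v₀ v₁) - nJ m E)) B)
    (top : ∀ i, B.r i ≤ P.top)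
    {cd : Fin (dD m E + 1) → Fin (nJ m E) → ℤ}
    (hcd' : Cel.mem (Cel.mk B cd) 1 (w + l) t₁ x) {s : ℤ}
    (hs : (2 : ℝ) ^ s ≤ SJ B (w + l) t₁ x) (hs' : SJ B (w + l) t₁ x < 2 ^ (s + 1)) :
    okv P J (w + l) c k (a + g) x t₁ (Vl.mk (Cel.mk B cd) 0 0 s) := by
  have hg : 1 ≤ g := by
    have := hP.g
    omega
  have hrg := (h.c_le_rg hP).1
  have hc2 := hP.c₂
  have hsw : (Vl.mk (Cel.mk B cd) 0 0 s : Vl m E).sw t₁ = t₁ := by
    show t₁ * 2 ^ 0 + 0 = t₁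
    simp
  exact {
    box := h.ok₁.box
    cw := h.ok₁.cw
    win := h.ok₁.win
    tlt := h.ok₁.tlt
    sb := by simp
    wJ := h.wJ
    wk := by
      have := h.ok₁.wk
      show w + l + 0 ≤ c.w + k
      omega
    wm := by
      have := h.ok₁.wm
      show w + l + 0 ≤ c.mx
      omega
    mem := by
      rw [hsw]
      exact hcd'
    memc := mem_mono (pow_le_pow_right₀ (by norm_num) (by omega)) h.ok₁.memc
    le := by
      have h1 := hle.trans (crB_le₂ P b a c.c.B v₀.c.B (shv b l v₀ v₁)) (by positivity)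
      rw [← pow_add] at h1
      exact h1.mono (pow_le_pow_right₀ (by norm_num) (by omega))
    top := top
    topc := h.ok₁.topc
    fl := fun j => by
      have e1 := h.nd_rg hcd n0 n1
      have e2 := s_le_r hge j
      have e3 := le_dep v₁.c.B j
      have e4 := h.ok₁.flc
      have e0 : rgv b (shv b l v₀ v₁) ≤ (b.cA + 1) * rgv b (shv b l v₀ v₁) :=
        Nat.le_mul_of_pos_left _ (Nat.succ_pos _)
      obtain ⟨R, hR⟩ : ∃ R, R = (b.cA + 1) * rgv b (shv b l v₀ v₁) := ⟨_, rfl⟩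
      rw [← hR] at e0 e1 e2
      have e5 : ((R - nJ m E : ℕ) : ℤ) = (R : ℤ) - nJ m E := by
        push_cast [Nat.cast_sub (show nJ m E ≤ R by omega)]
        ring
      rw [e5] at e2
      have e6 : ((dep v₁.c.B + R : ℕ) : ℤ) ≤ (c.fl : ℤ) := by
        exact_mod_cast e1.trans e4
      push_cast at e6 ⊢
      have e7 : (0 : ℤ) ≤ a := Nat.cast_nonneg _
      have e8 : (0 : ℤ) ≤ g := Nat.cast_nonneg _
      show -((c.fl : ℤ) + ((a : ℤ) + g)) ≤ B.r j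
      linarith
    flc := h.ok₁.flc
    sz := by
      rw [hsw]
      exact hs
    sz' := by
      rw [hsw]
      exact hs' }

/-- The relation between the second label and a label of age zero. -/
theorem Pr.sub (hC : Cur m E Cg) (hP : Cst P b Cg g) (h : Pr P J w l c k a x t₀ t₁ v₀ v₁)
    {v : Vl m E} (hle : v.c.B.le (2 ^ rgv b (shv b l v₀ v₁)) v₁.c.B)
    (hge : v₁.c.B.le (2 ^ ((b.cA + 1) * rgv b (shv b l v₀ v₁) - nJ m E)) v.c.B)
    (hs : (2 : ℝ) ^ v.sz ≤ SJ v.c.B (w + l) t₁ x)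
    (hs' : SJ v.c.B (w + l) t₁ x < 2 ^ (v.sz + 1)) :
    subv P ((b.cA + 1) * rgv b (shv b l v₀ v₁)) v₁ v := by
  have hrg := (h.c_le_rg hP).1
  have hc2 := hP.c₂
  have hcs := hP.cs
  have hal := h.al_le hP
  have e0 : rgv b (shv b l v₀ v₁) ≤ (b.cA + 1) * rgv b (shv b l v₀ v₁) :=
    Nat.le_mul_of_pos_left _ (Nat.succ_pos _)
  replace hle := hle.mono (pow_le_pow_right₀ (by norm_num : (1 : ℝ) ≤ 2) e0)
  replace hrg := hrg.trans e0
  replace hal := hal.trans e0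
  clear e0
  obtain ⟨R, hR⟩ : ∃ R, R = (b.cA + 1) * rgv b (shv b l v₀ v₁) := ⟨_, rfl⟩
  rw [← hR] at hle hge hrg hal ⊢
  have hnear : v₁.c.B.near (2 ^ R) v.c.B :=
    ⟨hge.mono (pow_le_pow_right₀ (by norm_num) (Nat.sub_le _ _)), hle⟩
  refine ⟨hnear, ?_, ?_⟩
  · refine (sz_near hC h.ok₁ hnear hs hs').trans ?_
    have e1 : 2 * Cg + Cg * v₁.al + m * R + 1 ≤ P.cs * R := by
      have f1 : Cg * v₁.al ≤ Cg * R := Nat.mul_le_mul_left _ (by omega)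
      have f2 : (2 * m + 4 * Cg + 4) * R ≤ P.cs * R := Nat.mul_le_mul_right _ hcs
      have f3 : (2 * m + 4 * Cg + 4) * R = 2 * (m * R) + 4 * (Cg * R) + 4 * R := by ring
      have f4 : 2 * Cg ≤ 2 * (Cg * R) := by
        have : Cg * 1 ≤ Cg * R := Nat.mul_le_mul_left _ (by omega)
        omega
      omega
    exact_mod_cast e1
  · refine dep_le fun j => ?_
    have e2 := s_le_r hge j
    have e3 := le_dep v₁.c.B j
    have e5 : ((R - nJ m E : ℕ) : ℤ) = (R : ℤ) - nJ m E := by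
      push_cast [Nat.cast_sub (show nJ m E ≤ R by omega)]
      ring
    rw [e5] at e2
    push_cast
    linarith

/-- **(out)** -/
theorem Pr.out (hC : Cur m E Cg) (hP : Cst P b Cg g) {κ : ℝ} (hcd : Cdc P b κ) (hv : Ccv P g)
    (h : Pr P J w l c k a x t₀ t₁ v₀ v₁)
    (n0 : P.cls.dp J v₀ < ndc m κ) (n1 : P.cls.dp J v₁ < ndc m κ)
    (hb : bkv P b (w + l) (crv P b J w l c k a t₀ v₀ (shv b l v₀ v₁)) (rgv b (shv b l v₀ v₁)) x
      t₁ v) :
    okv P J (w + l) c k (a + g) x t₁ v ∧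
      P.vol v.c.B ≤ P.vol (crB P b a c.c.B v₀.c.B (shv b l v₀ v₁)) + P.cH ∧
      subv P ((b.cA + 1) * rgv b (shv b l v₀ v₁)) v₁ v ∧ v.al = 0 := by
  have hrg := (h.c_le_rg hP).1
  have hc2 := hP.c₂
  have hg' := hP.g'
  have hle : v.c.B.le (2 ^ b.a₀) (crB P b a c.c.B v₀.c.B (shv b l v₀ v₁)) := hb.le
  have hge : (crB P b a c.c.B v₀.c.B (shv b l v₀ v₁)).le
    (2 ^ (b.cA * rgv b (shv b l v₀ v₁))) v.c.B := hb.ge
  have hge' : v₁.c.B.le (2 ^ ((b.cA + 1) * rgv b (shv b l v₀ v₁) - nJ m E)) v.c.B := by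
    have e1 := (h.le_cr (b := b)).trans hge (by positivity)
    rw [← pow_add] at e1
    have e2 : (b.cA + 1) * rgv b (shv b l v₀ v₁) =
      b.cA * rgv b (shv b l v₀ v₁) + rgv b (shv b l v₀ v₁) := by ring
    exact e1.mono (pow_le_pow_right₀ (by norm_num) (by omega))
  have hle' : v.c.B.le (2 ^ rgv b (shv b l v₀ v₁)) v₁.c.B := by
    have e1 := hle.trans (h.near_rg (b := b) hP).1 (by positivity)
    rw [← pow_add] at e1
    exact e1.mono (pow_le_pow_right₀ (by norm_num) (by omega))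
  obtain ⟨⟨B, cd⟩, al, sb, s⟩ := v
  have hal : al = 0 := hb.al
  have hsb : sb = 0 := hb.sb
  subst hal
  subst hsb
  refine ⟨h.body hP hcd n0 n1 (hle.mono (pow_le_pow_right₀ (by norm_num) (by omega))) hge'
    hb.top hb.mem hb.sz hb.sz', ?_, h.sub hC hP hle' hge' hb.sz hb.sz', rfl⟩
  refine (vol_le P (hle.mono (pow_le_pow_right₀ (by norm_num) (show b.a₀ ≤ g by omega)))).trans ?_
  exact add_le_add le_rfl hv

/-- The size of the coarse body, in the small window. -/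
theorem Pr.cr_SJ (hC : Cur m E Cg) (h : Pr P J w l c k a x t₀ t₁ v₀ v₁)
    (hP : Cst P b Cg g) :
    (2 : ℝ) ^ (v₁.sz - (Cg + m * (rgv b (shv b l v₀ v₁) - (m + g)) : ℕ)) ≤
      SJ (crB P b a c.c.B v₀.c.B (shv b l v₀ v₁)) (w + l) t₁ x ∧
    SJ (crB P b a c.c.B v₀.c.B (shv b l v₀ v₁)) (w + l) t₁ x ≤
      2 ^ (v₁.sz + (2 * Cg + m * (2 * nJ m E + 3) + Cg * v₁.al + 1 : ℕ)) := by
  have h1 := h.ok₁.le_SJ' hC
  have h2 := h.ok₁.SJ_le' hC
  have h3 := hC.sj_le _ _ x (w + l) t₁ _ (h.near_rg (b := b) hP).1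
  have h4 := hC.sj_le _ _ x (w + l) t₁ _ (h.le_cr (b := b))
  refine ⟨?_, ?_⟩
  · have h5 := h1.trans h3
    obtain ⟨n, hn⟩ : ∃ n, n = Cg + m * (rgv b (shv b l v₀ v₁) - (m + g)) := ⟨_, rfl⟩
    rw [← hn] at h5 ⊢
    rw [zpow_sub₀ (by norm_num), zpow_natCast, div_le_iff₀ (by positivity), mul_comm]
    exact h5
  · have h5 := h4.trans (mul_le_mul_of_nonneg_left h2 (by positivity))
    refine h5.trans (le_of_eq ?_)
    have e0 : 2 * Cg + m * (2 * nJ m E + 3) + Cg * v₁.al + 1 = (Cg + m * (2 * nJ m E + 3)) +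
      ((Cg + Cg * v₁.al) + 1) := by ring
    rw [e0, ← zpow_natCast (2 : ℝ) (Cg + m * (2 * nJ m E + 3)),
      ← zpow_natCast (2 : ℝ) (Cg + Cg * v₁.al), ← zpow_add₀ (by norm_num),
      ← zpow_add₀ (by norm_num)]
    congr 1
    push_cast
    ring

/-- **(dom)** -/
theorem Pr.dom (hC : Cur m E Cg) (hP : Cst P b Cg g) (h : Pr P J w l c k a x t₀ t₁ v₀ v₁) :
    dmv P b J (w + l) (crv P b J w l c k a t₀ v₀ (shv b l v₀ v₁)) (rgv b (shv b l v₀ v₁)) x t₁ := by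
  obtain ⟨s1, s2⟩ := h.cr_SJ (b := b) hC hP
  have s3 := h.crv_sz₁ (b := b) hC hP
  have hrg := (h.c_le_rg hP).1
  have hal := h.al_le hP
  have hc3 := hP.c₃
  have hg := hP.g
  have hg' := hP.g'
  obtain ⟨R, hR⟩ : ∃ R, R = rgv b (shv b l v₀ v₁) := ⟨_, rfl⟩
  rw [← hR] at s1 s3 hrg hal ⊢
  obtain ⟨zc, hzc⟩ : ∃ zc, zc = (crv P b J w l c k a t₀ v₀ (shv b l v₀ v₁)).sz := ⟨_, rfl⟩
  rw [← hzc] at s3
  rw [abs_le] at s3
  have e3 : (2 * m + 3 * Cg + m * g + 4) * R ≤ b.c₃ * R := Nat.mul_le_mul_right _ hc3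
  have e4 : (2 * m + 3 * Cg + m * g + 4) * R = 2 * (m * R) + 3 * (Cg * R) + m * (g * R) + 4 * R := by
    ring
  have e5 : Cg * 1 ≤ Cg * R := Nat.mul_le_mul_left _ (by omega)
  have e6 : Cg * v₁.al ≤ Cg * R := Nat.mul_le_mul_left _ (by omega)
  have e7 : m * (R - (m + g)) ≤ m * R := Nat.mul_le_mul_left _ (Nat.sub_le _ _)
  have e8 : m * (2 * nJ m E + 3) ≤ m * (g * R) := by
    refine Nat.mul_le_mul_left _ ?_
    calc 2 * nJ m E + 3 ≤ g * 1 := by omega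
      _ ≤ g * R := Nat.mul_le_mul_left _ (by omega)
  have f1 : ((Cg + m * (R - (m + g)) : ℕ) : ℤ) + R ≤ ((b.c₃ * R : ℕ) : ℤ) := by
    have : Cg + m * (R - (m + g)) + R ≤ b.c₃ * R := by omega
    exact_mod_cast this
  have f2 : ((2 * Cg + m * (2 * nJ m E + 3) + Cg * v₁.al + 1 : ℕ) : ℤ) + R ≤
      ((b.c₃ * R : ℕ) : ℤ) := by
    have : 2 * Cg + m * (2 * nJ m E + 3) + Cg * v₁.al + 1 + R ≤ b.c₃ * R := by omega
    exact_mod_cast this
  exact {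
    box := h.ok₁.box
    cw := Nat.le_add_right w l
    wJ := h.wJ
    win := by
      show t₁ / 2 ^ (w + l - w) = t₀ / 2 ^ l
      rw [Nat.add_sub_cancel_left, h.tt]
    tlt := h.ok₁.tlt
    memc := mem_mono (pow_le_pow_right₀ (by norm_num) hP.gg) (h.memc₀ hC hP)
    topc := fun j => trn_r_le _ _ j
    sz := by
      rw [← hzc]
      refine (two_zpow_le ?_).trans s1
      push_cast at f1 ⊢
      linarith
    sz' := by
      rw [← hzc]
      refine s2.trans (two_zpow_le ?_)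
      push_cast at f2 ⊢
      linarith }

end pair

end Pool.GC
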