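import Pool.Agent.H96.GEO.Tf2

/-!
# The join of the two labels and of the label of a box
-/

set_option autoImplicit false

namespace Pool.GC

open Finset Real
open Pool.LAT
open Pool.KNH (LA LB Ln GS ndc)
open Pool.KNB (nJ)

variable {m E : ℕ} {P : Par m E} {b : BP} {Cg g : ℕ}

/-- The body of the join. -/
noncomputable def jB (P : Par m E) (b : BP) (l : ℕ) (v₀ v₁ : Vl m E) (B₂ : Bd (nJ m E)) :
    Bd (nJ m E) :=
  trn P.top (scl ((2 * nJ m E + 6 : ℕ) : ℤ) (jn (jv b l v₀ v₁) B₂).net)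

theorem jB_le₁ (P : Par m E) (b : BP) (l : ℕ) (v₀ v₁ : Vl m E) (B₂ : Bd (nJ m E)) :
    (jB P b l v₀ v₁ B₂).le (2 ^ (2 * nJ m E + 7)) (jv b l v₀ v₁) := by
  intro u hu
  have h1 := trn_le _ _ hu
  rw [scl_mul, one_mul, zpow_natCast] at h1
  have h2 := (net_jn_le₁ (jv b l v₀ v₁) B₂).mul (κ' := 2 ^ (2 * nJ m E + 6)) (by positivity) h1
  rw [← pow_succ] at h2
  exact h2

theorem jB_le₂ (P : Par m E) (b : BP) (l : ℕ) (v₀ v₁ : Vl m E) (B₂ : Bd (nJ m E)) :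
    (jB P b l v₀ v₁ B₂).le (2 ^ (2 * nJ m E + 7)) B₂ := by
  intro u hu
  have h1 := trn_le _ _ hu
  rw [scl_mul, one_mul, zpow_natCast] at h1
  have h2 := (net_jn_le₂ (jv b l v₀ v₁) B₂).mul (κ' := 2 ^ (2 * nJ m E + 6)) (by positivity) h1
  rw [← pow_succ] at h2
  exact h2

/-- A body with bounded sides inside both bodies. -/
theorem le_jB (P : Par m E) (b : BP) (l : ℕ) (v₀ v₁ : Vl m E) (B₂ : Bd (nJ m E))
    {A : Bd (nJ m E)} (hA : ∀ i, A.r i ≤ P.top) {n : ℕ} (h1 : A.le (2 ^ n) (jv b l v₀ v₁))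
    (h2 : A.le (2 ^ n) B₂) : A.le (2 ^ (n + nJ m E + 3)) (jB P b l v₀ v₁ B₂) := by
  rcases Nat.eq_zero_or_pos (nJ m E) with h0 | h0
  · intro u _ j
    exact absurd j.2 (by omega)
  have hN1 : (1 : ℝ) ≤ (nJ m E : ℕ) := by exact_mod_cast h0
  have h3 : A.le (8 * (nJ m E : ℕ) * 2 ^ n) (scl ((2 * nJ m E + 6 : ℕ) : ℤ)
      (jn (jv b l v₀ v₁) B₂).net) := by
    intro u hu
    have e1 := net_jn_mul _ _ (by positivity) (h1 hu) (h2 hu)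
    rw [scl_mul, zpow_natCast]
    refine Bd.mul_mono ?_ _ e1
    have : (1 : ℝ) ≤ 2 ^ (2 * nJ m E + 6) := one_le_pow₀ (by norm_num)
    have e2 : (0 : ℝ) ≤ 8 * (nJ m E : ℕ) * 2 ^ n := by positivity
    nlinarith
  have hp : (1 : ℝ) ≤ 2 ^ n := one_le_pow₀ (by norm_num)
  have h4 := le_trn hA (κ := 8 * (nJ m E : ℕ) * 2 ^ n) (by nlinarith) h3
  refine h4.mono ?_
  have e : (2 : ℝ) ^ (n + nJ m E + 3) = 8 * 2 ^ nJ m E * 2 ^ n := by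
    rw [pow_add, pow_add]
    ring
  rw [e]
  exact mul_le_mul_of_nonneg_right (mul_le_mul_of_nonneg_left (nat_le_two_pow _)
    (by norm_num)) (by positivity)

/-- The lower bound of the gain. -/
theorem gu_low (b : BP) {l : ℕ} (hl : 1 ≤ l) (v₀ v₁ : Vl m E) (j : Fin (nJ m E)) :
    (jv b l v₀ v₁).r j + (qq l v₁.al : ℤ) * ((shv b l v₀ v₁).gu j : ℤ) ≤
      v₁.c.B.r j + (qq l v₁.al : ℤ) * (2 + b.A₀) + nJ m E := by
  have hq : (0 : ℤ) < qq l v₁.al := by exact_mod_cast qq_pos hl _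
  obtain ⟨d, hd⟩ : ∃ d, d = (upB b.A₀ (qq l v₁.al) v₁.c.B).r j - (jv b l v₀ v₁).r j := ⟨_, rfl⟩
  have h1 : (((shv b l v₀ v₁).gu j : ℕ) : ℤ) = ((d / (qq l v₁.al : ℤ) + 1).toNat : ℤ) := by
    rw [hd]
    rfl
  have h2 : (jv b l v₀ v₁).le (2 ^ 0) (upB b.A₀ (qq l v₁.al) v₁.c.B) := by
    rw [pow_zero]
    exact jn_le₂ _ _
  have h3 := s_le_r h2 j
  have h4 := up_r_le (A₀ := b.A₀) (qq_pos hl v₁.al) v₁.c.B j
  have h5 : (qq l v₁.al : ℤ) * ((d / (qq l v₁.al : ℤ) + 1).toNat : ℤ) ≤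
      d + nJ m E + qq l v₁.al := by
    rcases le_total 0 (d / (qq l v₁.al : ℤ) + 1) with h6 | h6
    · rw [Int.toNat_of_nonneg h6]
      have h7 := Int.mul_ediv_self_le (x := d) hq.ne'
      have h8 : (0 : ℤ) ≤ nJ m E := Nat.cast_nonneg _
      linarith
    · rw [Int.toNat_of_nonpos h6]
      push_cast at h3
      simp only [Nat.cast_zero, mul_zero]
      linarith
  rw [h1]
  push_cast at h3
  linarith

open Classical in
/-- A line of the pair and of the label of the box. -/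
noncomputable def rl2 (P : Par m E) (b : BP) (J w l : ℕ) (c : Cc m E) (k a t₀ t₁ : ℕ)
    (v₀ v₁ v₂ : Vl m E) : Ln m :=
  if h : ∃ x, Pr P J w l c k a x t₀ t₁ v₀ v₁ ∧
    bkv P b (w + l) (crv P b J w l c k a t₀ v₀ (shv b l v₀ v₁)) (rgv b (shv b l v₀ v₁)) x t₁ v₂
  then h.choose else 0

/-- The cell of the join. -/
noncomputable def jC (P : Par m E) (b : BP) (J w l : ℕ) (c : Cc m E) (k a t₀ t₁ : ℕ)
    (v₀ v₁ v₂ : Vl m E) : Cel m E where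
  B := jB P b l v₀ v₁ v₂.c.B
  cd := fun i j => round ((jB P b l v₀ v₁ v₂.c.B).fn j
    (phl E (rl2 P b J w l c k a t₀ t₁ v₀ v₁ v₂) (nod (dD m E) (w + l) t₁ i)))

section pair

variable {J w l : ℕ} {c : Cc m E} {k a : ℕ} {x : Ln m} {t t₀ t₁ : ℕ} {v v₀ v₁ v₂ : Vl m E}

theorem rl2_ok (h : Pr P J w l c k a x t₀ t₁ v₀ v₁)
    (hb : bkv P b (w + l) (crv P b J w l c k a t₀ v₀ (shv b l v₀ v₁)) (rgv b (shv b l v₀ v₁)) x
      t₁ v₂) :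
    Pr P J w l c k a (rl2 P b J w l c k a t₀ t₁ v₀ v₁ v₂) t₀ t₁ v₀ v₁ ∧
    bkv P b (w + l) (crv P b J w l c k a t₀ v₀ (shv b l v₀ v₁)) (rgv b (shv b l v₀ v₁))
      (rl2 P b J w l c k a t₀ t₁ v₀ v₁ v₂) t₁ v₂ := by
  have h1 : ∃ x, Pr P J w l c k a x t₀ t₁ v₀ v₁ ∧
    bkv P b (w + l) (crv P b J w l c k a t₀ v₀ (shv b l v₀ v₁)) (rgv b (shv b l v₀ v₁)) x t₁ v₂ :=
    ⟨x, h, hb⟩
  unfold rl2
  rw [dif_pos h1]
  exact h1.choose_spec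

/-- The line is in the cell of the join. -/
theorem Pr.jmem (hC : Cur m E Cg) (hP : Cst P b Cg g) (h : Pr P J w l c k a x t₀ t₁ v₀ v₁)
    (hb : bkv P b (w + l) (crv P b J w l c k a t₀ v₀ (shv b l v₀ v₁)) (rgv b (shv b l v₀ v₁)) x
      t₁ v₂) : (jC P b J w l c k a t₀ t₁ v₀ v₁ v₂).mem 1 (w + l) t₁ x := by
  rcases Nat.eq_zero_or_pos (nJ m E) with h0 | h0
  · intro i j
    exact absurd j.2 (by omega)
  have hN1 : (1 : ℝ) ≤ (nJ m E : ℕ) := by exact_mod_cast h0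
  obtain ⟨h', hb'⟩ := rl2_ok h hb
  obtain ⟨x', hx'⟩ : ∃ x', x' = rl2 P b J w l c k a t₀ t₁ v₀ v₁ v₂ := ⟨_, rfl⟩
  rw [← hx'] at h' hb'
  intro i j
  show |(jB P b l v₀ v₁ v₂.c.B).fn j (phl E x (nod (dD m E) (w + l) t₁ i)) -
    ((round ((jB P b l v₀ v₁ v₂.c.B).fn j
    (phl E (rl2 P b J w l c k a t₀ t₁ v₀ v₁ v₂) (nod (dD m E) (w + l) t₁ i))) : ℤ) : ℝ)| ≤ 1
  rw [← hx']
  obtain ⟨s, hs⟩ : ∃ s, s = nod (dD m E) (w + l) t₁ i := ⟨_, rfl⟩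
  have hnod := hC.nod_mem (w + l) t₁ i
  have hwin : nod (dD m E) (w + l) t₁ i ∈ win w (t₁ / 2 ^ l) := win_sub rfl hnod
  have d1 := two_up hC hP h.l1 h.ok₁ h'.ok₁ hwin
  have d0 := two_up (l := l) hC hP h.l1 h.ok₀ h'.ok₀ (s := nod (dD m E) (w + l) t₁ i)
    (by rw [h.tt]; exact hwin)
  rw [h.q_eq] at d0
  rw [← Bd.mul_one] at d0 d1
  have dj := mul_jn _ _ zero_le_one d0 d1
  have d2 : phl E x (nod (dD m E) (w + l) t₁ i) - phl E x' (nod (dD m E) (w + l) t₁ i) ∈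
      v₂.c.B.mul 2 := by
    rw [Bd.mem_mul_iff]
    intro j'
    rw [sub_fn]
    have e1 := hb.mem i j'
    have e2 := hb'.mem i j'
    have e3 := abs_sub_le (v₂.c.B.fn j' (phl E x (nod (dD m E) (w + l) t₁ i)))
      (v₂.c.cd i j') (v₂.c.B.fn j' (phl E x' (nod (dD m E) (w + l) t₁ i)))
    rw [abs_sub_comm (v₂.c.cd i j' : ℝ)] at e3
    linarith
  have d3 := net_jn_mul (jv b l v₀ v₁) v₂.c.B (κ := 4 * (nJ m E : ℕ)) (by positivity)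
    (Bd.mul_mono (by linarith) _ dj) (Bd.mul_mono (by linarith) _ d2)
  have d4 : phl E x (nod (dD m E) (w + l) t₁ i) - phl E x' (nod (dD m E) (w + l) t₁ i) ∈
      (scl ((2 * nJ m E + 6 : ℕ) : ℤ) (jn (jv b l v₀ v₁) v₂.c.B).net).mul (1 / 2) := by
    rw [scl_mul, zpow_natCast]
    refine Bd.mul_mono ?_ _ d3
    have e : (1 : ℝ) / 2 * 2 ^ (2 * nJ m E + 6) = 32 * (2 ^ nJ m E * 2 ^ nJ m E) := by
      rw [pow_add, two_mul, pow_add]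
      ring
    rw [e]
    have e1 := nat_le_two_pow (nJ m E)
    have e2 : ((nJ m E : ℕ) : ℝ) * (nJ m E : ℕ) ≤ 2 ^ nJ m E * 2 ^ nJ m E :=
      mul_le_mul e1 e1 (by positivity) (by positivity)
    linarith
  have hn := norm_phl hC h.ok₁.box h'.ok₁.box h.ok₁.tlt hnod
  have d5 := mem_trn (top := P.top) d4 (hn.trans (by
    have e1 : (2 : ℝ) ^ (Cg + 2) ≤ 2 ^ P.top := pow_le_pow_right₀ (by norm_num) hP.top'
    have e2 : (2 : ℝ) ^ (Cg + 2) = 2 ^ (Cg + 1) * 2 := pow_succ _ _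
    linarith))
  rw [Bd.mem_mul_iff] at d5
  have d6 := d5 j
  rw [sub_fn] at d6
  change |(jB P b l v₀ v₁ v₂.c.B).fn j (phl E x (nod (dD m E) (w + l) t₁ i)) -
    (jB P b l v₀ v₁ v₂.c.B).fn j (phl E x' (nod (dD m E) (w + l) t₁ i))| ≤ 1 / 2 at d6
  obtain ⟨y, hy⟩ : ∃ y, y = (jB P b l v₀ v₁ v₂.c.B).fn j (phl E x (nod (dD m E) (w + l) t₁ i)) :=
    ⟨_, rfl⟩
  obtain ⟨y', hy'⟩ : ∃ y', y' = (jB P b l v₀ v₁ v₂.c.B).fn j
    (phl E x' (nod (dD m E) (w + l) t₁ i)) := ⟨_, rfl⟩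
  rw [← hy, ← hy'] at d6
  rw [← hy, ← hy']
  have d7 := abs_sub_round y'
  have d8 := abs_sub_le y y' (round y' : ℝ)
  linarith

/-- The bound of the units. -/
theorem Pr.q_bd (hP : Cst P b Cg g) (h : Pr P J w l c k a x t₀ t₁ v₀ v₁) :
    cN (nJ m E) + qq l v₁.al * (∑ j, (shv b l v₀ v₁).gu j) + 2 * nJ m E + 3 ≤
      rgv b (shv b l v₀ v₁) ∧
    2 * nJ m E + 7 + qq l v₁.al * (1 + b.A₀) ≤ rgv b (shv b l v₀ v₁) := by
  have h1 := hP.rg_ge' l v₀ v₁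
  have hq := qq_pos h.l1 v₁.al
  obtain ⟨q, hqd⟩ : ∃ q, q = qq l v₁.al := ⟨_, rfl⟩
  obtain ⟨G, hG⟩ : ∃ G, G = ∑ j, (shv b l v₀ v₁).gu j := ⟨_, rfl⟩
  obtain ⟨R, hR⟩ : ∃ R, R = rgv b (shv b l v₀ v₁) := ⟨_, rfl⟩
  rw [← hqd, ← hG, ← hR] at h1
  rw [← hqd] at hq
  rw [← hqd, ← hG, ← hR]
  clear hR hG
  obtain ⟨N, hN⟩ : ∃ N, N = nJ m E := ⟨_, rfl⟩
  rw [← hN] at h1
  rw [← hN]
  have e1 : (m + 1) * (N + 1) * (2 * cN N + 2 * b.A₀ + 10) =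
      m * (N + 1) * (2 * cN N + 2 * b.A₀ + 10) + (N * (2 * cN N + 2 * b.A₀) + 10 * N +
        (2 * cN N + 2 * b.A₀ + 10)) := by ring
  have e2 : (m * N + 2 * m + N + 4) * G = (m * N + 2 * m + N + 3) * G + G := by ring
  have e3 : cN N + b.A₀ + 2 * N + 10 + G ≤ 20 * Cg + (m + 1) * (N + 1) * (2 * cN N + 2 * b.A₀ + 10)
      + g + b.c₁ + b.c₂ + m * b.c₄ + 20 + (m * N + 2 * m + N + 4) * G := by
    rw [e1, e2]
    omega
  have e4 := (Nat.mul_le_mul_left q e3).trans h1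
  have e5 : q * (cN N + b.A₀ + 2 * N + 10 + G) = q * (cN N + 2 * N + 9) + q * G + q * (1 + b.A₀) := by
    ring
  rw [e5] at e4
  have e6 : 1 * (cN N + 2 * N + 9) ≤ q * (cN N + 2 * N + 9) := Nat.mul_le_mul_right _ hq
  constructor <;> omega

/-- **(join)** -/
theorem Pr.join (hC : Cur m E Cg) (hP : Cst P b Cg g) {κ : ℝ} (hcd : Cdc P b κ)
    (h : Pr P J w l c k a x t₀ t₁ v₀ v₁)
    (n0 : P.cls.dp J v₀ < ndc m κ) (n1 : P.cls.dp J v₁ < ndc m κ)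
    (hb : bkv P b (w + l) (crv P b J w l c k a t₀ v₀ (shv b l v₀ v₁)) (rgv b (shv b l v₀ v₁)) x
      t₁ v₂) :
    ∃ s : ℤ, v₂.sz - ((Cg + m * (2 * nJ m E + 7) + 1 : ℕ) : ℤ) ≤ s ∧
      s ≤ v₂.sz + ((Cg + m * (2 * rgv b (shv b l v₀ v₁) + nJ m E + 3) + 1 : ℕ) : ℤ) ∧
      okv P J (w + l) c k (a + g) x t₁
        (Vl.mk (jC P b J w l c k a t₀ t₁ v₀ v₁ v₂) 0 0 s) ∧
      subv P ((b.cA + 1) * rgv b (shv b l v₀ v₁)) v₁
        (Vl.mk (jC P b J w l c k a t₀ t₁ v₀ v₁ v₂) 0 0 s) := by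
  have hrg := (h.c_le_rg hP).1
  have hc2 := hP.c₂
  have hg' := hP.g'
  obtain ⟨q1, q2⟩ := h.q_bd hP
  have hle : v₂.c.B.le (2 ^ b.a₀) (crB P b a c.c.B v₀.c.B (shv b l v₀ v₁)) := hb.le
  have hge : (crB P b a c.c.B v₀.c.B (shv b l v₀ v₁)).le
    (2 ^ (b.cA * rgv b (shv b l v₀ v₁))) v₂.c.B := hb.ge
  have gap := le_of_gap (jn_le₂ (upB b.A₀ (qq l v₁.al) v₀.c.B) (upB b.A₀ (qq l v₁.al) v₁.c.B))
    (gu_ge b h.l1 v₀ v₁)
  rw [← mul_sum] at gap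
  have hup : v₁.c.B.le (2 ^ (cN (nJ m E) + qq l v₁.al * ∑ j, (shv b l v₀ v₁).gu j))
      (jv b l v₀ v₁) := by
    have e1 := (le_up (A₀ := b.A₀) (qq_pos h.l1 v₁.al) v₁.c.B).trans gap (by norm_num)
    rwa [one_mul] at e1
  obtain ⟨R, hR⟩ : ∃ R, R = rgv b (shv b l v₀ v₁) := ⟨_, rfl⟩
  rw [← hR] at hrg q1 q2 hge ⊢
  -- the second label in the join
  have b3 : v₁.c.B.le (2 ^ ((b.cA + 1) * R - nJ m E)) (jB P b l v₀ v₁ v₂.c.B) := by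
    have e0 : (b.cA + 1) * R = b.cA * R + R := by ring
    have e1 : v₁.c.B.le (2 ^ ((b.cA + 1) * R - (2 * nJ m E + 3))) (jv b l v₀ v₁) :=
      hup.mono (pow_le_pow_right₀ (by norm_num) (by omega))
    have e2 : v₁.c.B.le (2 ^ ((b.cA + 1) * R - (2 * nJ m E + 3))) v₂.c.B := by
      have e3 := (h.le_cr (b := b)).trans hge (by positivity)
      rw [← pow_add] at e3
      exact e3.mono (pow_le_pow_right₀ (by norm_num) (by omega))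
    refine (le_jB P b l v₀ v₁ v₂.c.B h.ok₁.top e1 e2).mono
      (pow_le_pow_right₀ (by norm_num) (by omega))
  have b4 : (jB P b l v₀ v₁ v₂.c.B).le (2 ^ R) v₁.c.B := by
    have e1 := ((jB_le₁ P b l v₀ v₁ v₂.c.B).trans (jn_le₂ _ _) (by positivity)).trans
      (up_le (A₀ := b.A₀) (qq_pos h.l1 v₁.al) v₁.c.B) (by positivity)
    rw [mul_one, ← pow_add] at e1
    exact e1.mono (pow_le_pow_right₀ (by norm_num) q2)
  have b5 : (jB P b l v₀ v₁ v₂.c.B).le (2 ^ (g - 1))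
      (crB P b a c.c.B v₀.c.B (shv b l v₀ v₁)) := by
    have e1 := (jB_le₂ P b l v₀ v₁ v₂.c.B).trans hle (by positivity)
    rw [← pow_add] at e1
    exact e1.mono (pow_le_pow_right₀ (by norm_num) (by omega))
  have b6 : v₂.c.B.le (2 ^ (2 * R + nJ m E + 3)) (jB P b l v₀ v₁ v₂.c.B) := by
    have e0 := hle.trans (h.near_rg (b := b) hP).1 (by positivity)
    rw [← pow_add, ← hR] at e0
    have e1 := e0.trans hup (by positivity)
    rw [← pow_add] at e1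
    refine le_jB P b l v₀ v₁ v₂.c.B hb.top (e1.mono (pow_le_pow_right₀ (by norm_num) (by omega)))
      ((Bd.le_refl _).mono (one_le_pow₀ (by norm_num)))
  -- the size
  have s2 := hb.sz
  have s2' := hb.sz'
  have f1 := hC.sj_le (jB P b l v₀ v₁ v₂.c.B) v₂.c.B x (w + l) t₁ _ (jB_le₂ P b l v₀ v₁ v₂.c.B)
  have f2 := hC.sj_le v₂.c.B (jB P b l v₀ v₁ v₂.c.B) x (w + l) t₁ _ b6
  have hpos : 0 < SJ (jB P b l v₀ v₁ v₂.c.B) (w + l) t₁ x := by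
    have e1 := (two_zpow_pos v₂.sz).trans_le (s2.trans f1)
    exact pos_of_mul_pos_right e1 (by positivity)
  obtain ⟨s, hs, hs'⟩ := exists_mem_Ico_zpow hpos (by norm_num : (1 : ℝ) < 2)
  refine ⟨s, ?_, ?_, ?_, ?_⟩
  · have e1 : v₂.sz ≤ s + ((Cg + m * (2 * nJ m E + 7) + 1 : ℕ) : ℤ) := by
      refine zpow_lt_of (s2.trans (f1.trans ((mul_le_mul_of_nonneg_left hs'.le
        (by positivity)).trans (le_of_eq ?_))))
      rw [zpow_add_one₀ (by norm_num), pow_succ]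
      ring
    linarith
  · refine zpow_lt_of (hs.trans (f2.trans ((mul_le_mul_of_nonneg_left s2'.le
        (by positivity)).trans (le_of_eq ?_))))
    rw [zpow_add_one₀ (by norm_num), pow_succ]
    ring
  · refine h.body hP hcd n0 n1 b5 (by rw [← hR]; exact b3) (fun i => trn_r_le _ _ i)
      (h.jmem hC hP hb) hs hs'
  · rw [hR]
    exact h.sub hC hP (v := Vl.mk (jC P b J w l c k a t₀ t₁ v₀ v₁ v₂) 0 0 s)
      (by rw [← hR]; exact b4) (by rw [← hR]; exact b3) hs hs'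

/-- The gain. -/
theorem Pr.vol_j (hP : Cst P b Cg g) (h : Pr P J w l c k a x t₀ t₁ v₀ v₁) {u : ℝ}
    (hu : P.om * ∑ i, P.M i ≤ u) (B₂ : Bd (nJ m E)) :
    P.vol (jB P b l v₀ v₁ B₂) ≤ P.vol v₁.c.B - gnv P b (shv b l v₀ v₁) +
      (b.A₀ + 4 * nJ m E + 9) * u * (l + v₀.al + v₁.al) := by
  have h1 := vol_le P (jB_le₁ P b l v₀ v₁ B₂)
  obtain ⟨q, hqd⟩ : ∃ q, q = qq l v₁.al := ⟨_, rfl⟩
  have hl2 : 0 ≤ Real.log 2 := Real.log_nonneg (by norm_num)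
  have hl21 : Real.log 2 ≤ 1 := by
    have := Real.log_two_lt_d9
    linarith
  have hM0 : 0 ≤ ∑ i, P.M i := sum_nonneg fun i _ => P.M_nonneg i
  have hgn : gnv P b (shv b l v₀ v₁) =
      P.om * (Real.log 2 * ∑ i, P.M i * ((q : ℝ) * (shv b l v₀ v₁).gu i)) := by
    unfold gnv
    rw [hP.c₅, max_eq_right, hqd]
    · simp only [Nat.cast_zero, sub_zero]
      rfl
    · refine mul_nonneg P.om_nonneg (mul_nonneg hl2 (sum_nonneg fun i _ => ?_))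
      simp only [Nat.cast_zero, sub_zero]
      exact mul_nonneg (P.M_nonneg i) (by positivity)
  have h2 : P.vol (jv b l v₀ v₁) + gnv P b (shv b l v₀ v₁) ≤ P.vol v₁.c.B +
      P.om * (Real.log 2 * ((∑ i, P.M i) * (q * (2 + b.A₀) + nJ m E))) := by
    rw [hgn]
    unfold Par.vol
    rw [← mul_add, ← mul_add, ← mul_add, ← mul_add]
    refine mul_le_mul_of_nonneg_left (mul_le_mul_of_nonneg_left ?_ hl2) P.om_nonneg
    rw [← sum_add_distrib, sum_mul, ← sum_add_distrib]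
    refine sum_le_sum fun i _ => ?_
    rw [← mul_add, ← mul_add]
    refine mul_le_mul_of_nonneg_left ?_ (P.M_nonneg i)
    have e1 := gu_low b h.l1 v₀ v₁ i
    have e2 : (((jv b l v₀ v₁).r i + (qq l v₁.al : ℤ) * ((shv b l v₀ v₁).gu i : ℤ) : ℤ) : ℝ) ≤
      ((v₁.c.B.r i + (qq l v₁.al : ℤ) * (2 + b.A₀) + nJ m E : ℤ) : ℝ) := by exact_mod_cast e1
    push_cast at e2
    rw [hqd]
    linarith
  have h3 : P.om * (Real.log 2 * ((∑ i, P.M i) * (q * (2 + b.A₀) + nJ m E))) +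
      P.om * (Real.log 2 * ((∑ i, P.M i) * ((2 * nJ m E + 7 : ℕ) + nJ m E))) ≤
      (b.A₀ + 4 * nJ m E + 9) * u * (l + v₀.al + v₁.al) := by
    have hq1 : (1 : ℝ) ≤ q := by
      rw [hqd]
      exact_mod_cast qq_pos h.l1 v₁.al
    have hqL : (q : ℝ) ≤ l + v₀.al + v₁.al := by
      rw [hqd]
      have e1 : ((qq l v₁.al : ℕ) : ℝ) ≤ l + v₁.al := by exact_mod_cast qq_le h.l1 v₁.al
      have e2 : (0 : ℝ) ≤ v₀.al := Nat.cast_nonneg _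
      linarith
    have hN0 : (0 : ℝ) ≤ (nJ m E : ℕ) := Nat.cast_nonneg _
    have hA0 : (0 : ℝ) ≤ (b.A₀ : ℕ) := Nat.cast_nonneg _
    have e1 : P.om * (Real.log 2 * ((∑ i, P.M i) * (q * (2 + b.A₀) + nJ m E))) +
      P.om * (Real.log 2 * ((∑ i, P.M i) * ((2 * nJ m E + 7 : ℕ) + nJ m E))) =
      (P.om * ∑ i, P.M i) * Real.log 2 * (q * (2 + b.A₀) + 4 * nJ m E + 7) := by
      push_cast
      ring
    rw [e1]
    have hu0 : 0 ≤ P.om * ∑ i, P.M i := mul_nonneg P.om_nonneg hM0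
    have e2 : (q : ℝ) * (2 + b.A₀) + 4 * nJ m E + 7 ≤ (b.A₀ + 4 * nJ m E + 9) *
        (l + v₀.al + v₁.al) := by
      have f1 : (q : ℝ) * (2 + b.A₀) + 4 * nJ m E + 7 ≤ (b.A₀ + 4 * nJ m E + 9) * q := by
        nlinarith
      exact f1.trans (mul_le_mul_of_nonneg_left hqL (by positivity))
    have e3 : (P.om * ∑ i, P.M i) * Real.log 2 ≤ u := by
      have f1 : (P.om * ∑ i, P.M i) * Real.log 2 ≤ (P.om * ∑ i, P.M i) * 1 :=
        mul_le_mul_of_nonneg_left hl21 hu0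
      linarith
    have e4 : (0 : ℝ) ≤ (q : ℝ) * (2 + b.A₀) + 4 * nJ m E + 7 := by positivity
    calc (P.om * ∑ i, P.M i) * Real.log 2 * (q * (2 + b.A₀) + 4 * nJ m E + 7)
        ≤ u * ((b.A₀ + 4 * nJ m E + 9) * (l + v₀.al + v₁.al)) :=
          mul_le_mul e3 e2 e4 (hu0.trans hu)
      _ = _ := by ring
  linarith

end pair

end Pool.GC
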