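import Pool.Agent.H96.GEO.Tf3

/-!
# The fields of the turning step for the class
-/

set_option autoImplicit false

namespace Pool.GC

open Finset Real
open Pool.LAT
open Pool.KNH (LA LB Ln GS ndc)
open Pool.KNB (nJ)
open Pool.TRN (TD TF)

variable {m E : ℕ} {P : Par m E} {b : BP} {Cg g : ℕ}

/-- The inequalities of the weights. -/
structure Wts (P : Par m E) (b : BP) (c' a' ρ u : ℝ) : Prop where
  sum : ∀ j : Fin (nJ m E), ∑ k ∈ Ioi j, ((k : ℕ) : ℝ) * P.M k ≤ ρ * P.M j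
  tot : P.om * ∑ i, P.M i ≤ u
  H : P.cH ≤ c' * u
  a₁ : (b.A₁ : ℝ) ≤ a'
  a₂ : ∀ j, (b.A₂ : ℝ) ≤ a' * (P.om * (Real.log 2 * P.M j))

/-- The constant of the turning step. -/
noncomputable def cTF (m E Cg : ℕ) (b : BP) : ℕ :=
  2 * Cg + m * (3 * nJ m E + 12) + (nJ m E + 5) * (cN (nJ m E) + b.A₀ + 9) + 4

theorem gnv_eq (P : Par m E) {b : BP} (h5 : b.c₅ = 0) (s : ShV (nJ m E)) :
    gnv P b s = P.om * (Real.log 2 * ∑ i, P.M i * ((s.q : ℝ) * s.gu i)) := by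
  have hl2 : 0 ≤ Real.log 2 := Real.log_nonneg (by norm_num)
  unfold gnv
  rw [h5, max_eq_right]
  · simp only [Nat.cast_zero, sub_zero]
  · refine mul_nonneg P.om_nonneg (mul_nonneg hl2 (sum_nonneg fun i _ => ?_))
    simp only [Nat.cast_zero, sub_zero]
    exact mul_nonneg (P.M_nonneg i) (by positivity)

section pair

variable {J w l : ℕ} {c : Cc m E} {k a : ℕ} {x : Ln m} {t t₀ t₁ : ℕ} {v v₀ v₁ v₂ : Vl m E}

/-- The sides of the coarse body. -/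
theorem Pr.crB_r (h : Pr P J w l c k a x t₀ t₁ v₀ v₁) (j : Fin (nJ m E)) :
    (crB P b a c.c.B v₀.c.B (shv b l v₀ v₁)).r j ≤
      v₁.c.B.r j + (qq l v₁.al : ℤ) * (1 + b.A₀) +
      ((j : ℕ) : ℤ) * (cN (nJ m E) + ∑ i ∈ Iio j, (qq l v₁.al : ℤ) * ((shv b l v₀ v₁).gu i : ℤ)) +
      1 + nJ m E := by
  have h1 := crB_le₁ P b a c.c.B v₀.c.B (shv b l v₀ v₁)
  have h1' : (crB P b a c.c.B v₀.c.B (shv b l v₀ v₁)).le (2 ^ 1)
      ((upB b.A₀ (shv b l v₀ v₁).q v₀.c.B).crs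
        (grw fun j => (shv b l v₀ v₁).q * (shv b l v₀ v₁).gu j)) := by
    rw [pow_one]
    exact h1
  have h2 := s_le_r h1' j
  have h3 := Bd.crs_r_le (upB b.A₀ (shv b l v₀ v₁).q v₀.c.B)
    (grw fun j => (shv b l v₀ v₁).q * (shv b l v₀ v₁).gu j) j
  have hq : (shv b l v₀ v₁).q = qq l v₁.al := rfl
  rw [hq] at h2 h3
  rw [congrFun (h.up_r b.A₀) j] at h3
  have h4 := up_r_le (A₀ := b.A₀) (qq_pos h.l1 v₁.al) v₁.c.B j
  have h5 : ((grw (fun j => qq l v₁.al * (shv b l v₀ v₁).gu j) j : ℕ) : ℤ) =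
      ((j : ℕ) : ℤ) * (cN (nJ m E) + ∑ i ∈ Iio j, (qq l v₁.al : ℤ) *
        ((shv b l v₀ v₁).gu i : ℤ)) := by
    unfold grw
    push_cast
    rfl
  rw [h5] at h3
  push_cast at h2
  linarith

/-- **(lat)** -/
theorem Pr.lat_le (hP : Cst P b Cg g) {c' a' ρ u : ℝ} (hW : Wts P b c' a' ρ u)
    (hc : 0 ≤ c') (h : Pr P J w l c k a x t₀ t₁ v₀ v₁) :
    P.vol (crB P b a c.c.B v₀.c.B (shv b l v₀ v₁)) + P.cH - P.vol v₁.c.B ≤
      ρ * gnv P b (shv b l v₀ v₁) +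
      ((1 + b.A₀ : ℕ) + (nJ m E : ℕ) * (cN (nJ m E) : ℕ) + (nJ m E : ℕ) + 1 + c') * u *
        (l + v₀.al + v₁.al) := by
  have hl2 : 0 ≤ Real.log 2 := Real.log_nonneg (by norm_num)
  have hl21 : Real.log 2 ≤ 1 := by
    have := Real.log_two_lt_d9
    linarith
  have hM0 : 0 ≤ ∑ i, P.M i := sum_nonneg fun i _ => P.M_nonneg i
  obtain ⟨q, hqd⟩ : ∃ q, q = qq l v₁.al := ⟨_, rfl⟩
  obtain ⟨gu, hgu⟩ : ∃ gu : Fin (nJ m E) → ℕ, gu = (shv b l v₀ v₁).gu := ⟨_, rfl⟩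
  have hgn : gnv P b (shv b l v₀ v₁) = P.om * (Real.log 2 * ∑ i, P.M i * ((q : ℝ) * gu i)) := by
    rw [gnv_eq P hP.c₅, hqd, hgu]
    rfl
  have hq1 : (1 : ℝ) ≤ q := by
    rw [hqd]
    exact_mod_cast qq_pos h.l1 v₁.al
  have hqL : (q : ℝ) ≤ l + v₀.al + v₁.al := by
    rw [hqd]
    have e1 : ((qq l v₁.al : ℕ) : ℝ) ≤ l + v₁.al := by exact_mod_cast qq_le h.l1 v₁.al
    have e2 : (0 : ℝ) ≤ v₀.al := Nat.cast_nonneg _
    linarith
  obtain ⟨K, hK⟩ : ∃ K : ℝ, K = (nJ m E : ℕ) * (cN (nJ m E) : ℕ) + (nJ m E : ℕ) + 1 := ⟨_, rfl⟩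
  have hK0 : 0 ≤ K := by
    rw [hK]
    positivity
  -- the sides
  have h1 : ∀ j, P.M j * ((crB P b a c.c.B v₀.c.B (shv b l v₀ v₁)).r j : ℝ) ≤
      P.M j * (v₁.c.B.r j : ℝ) + P.M j * (q * (1 + b.A₀) + K) +
      ∑ i ∈ Iio j, (((j : ℕ) : ℝ) * P.M j) * (q * gu i) := by
    intro j
    have e1 := h.crB_r (b := b) j
    rw [← hqd, ← hgu] at e1
    have e2 : (((crB P b a c.c.B v₀.c.B (shv b l v₀ v₁)).r j : ℤ) : ℝ) ≤
        ((v₁.c.B.r j + (q : ℤ) * (1 + b.A₀) +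
      ((j : ℕ) : ℤ) * (cN (nJ m E) + ∑ i ∈ Iio j, (q : ℤ) * (gu i : ℤ)) +
      1 + nJ m E : ℤ) : ℝ) := by exact_mod_cast e1
    push_cast at e2
    have e3 : ((j : ℕ) : ℝ) * (cN (nJ m E) : ℕ) ≤ (nJ m E : ℕ) * (cN (nJ m E) : ℕ) := by
      refine mul_le_mul_of_nonneg_right ?_ (Nat.cast_nonneg _)
      exact_mod_cast j.2.le
    have e4 : ((crB P b a c.c.B v₀.c.B (shv b l v₀ v₁)).r j : ℝ) ≤
        v₁.c.B.r j + (q * (1 + b.A₀) + K) + ((j : ℕ) : ℝ) * ∑ i ∈ Iio j, (q : ℝ) * gu i := by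
      rw [hK]
      rw [mul_add] at e2
      linarith
    have e5 := mul_le_mul_of_nonneg_left e4 (P.M_nonneg j)
    refine e5.trans (le_of_eq ?_)
    rw [← mul_sum (Iio j) _ (((j : ℕ) : ℝ) * P.M j)]
    ring
  have h2 : ∑ j, P.M j * ((crB P b a c.c.B v₀.c.B (shv b l v₀ v₁)).r j : ℝ) ≤
      ∑ j, P.M j * (v₁.c.B.r j : ℝ) + (∑ j, P.M j) * (q * (1 + b.A₀) + K) +
      ρ * ∑ i, P.M i * ((q : ℝ) * gu i) := by
    refine (sum_le_sum fun j _ => h1 j).trans ?_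
    rw [sum_add_distrib, sum_add_distrib, ← sum_mul]
    refine add_le_add le_rfl ?_
    have e1 : ∑ j : Fin (nJ m E), ∑ i ∈ Iio j, (((j : ℕ) : ℝ) * P.M j) * ((q : ℝ) * gu i) =
        ∑ i : Fin (nJ m E), ∑ j ∈ Ioi i, (((j : ℕ) : ℝ) * P.M j) * ((q : ℝ) * gu i) := by
      refine sum_comm' ?_
      intro i j
      simp
    rw [e1, mul_sum]
    refine sum_le_sum fun i _ => ?_
    rw [← sum_mul]
    calc (∑ j ∈ Ioi i, ((j : ℕ) : ℝ) * P.M j) * ((q : ℝ) * gu i) ≤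
          (ρ * P.M i) * ((q : ℝ) * gu i) :=
          mul_le_mul_of_nonneg_right (hW.sum i) (by positivity)
      _ = ρ * (P.M i * ((q : ℝ) * gu i)) := by ring
  have h3 : P.vol (crB P b a c.c.B v₀.c.B (shv b l v₀ v₁)) ≤ P.vol v₁.c.B +
      (P.om * ∑ j, P.M j) * Real.log 2 * (q * (1 + b.A₀) + K) +
      ρ * gnv P b (shv b l v₀ v₁) := by
    rw [hgn]
    unfold Par.vol
    have e1 := mul_le_mul_of_nonneg_left (mul_le_mul_of_nonneg_left h2 hl2) P.om_nonneg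
    refine e1.trans (le_of_eq ?_)
    ring
  have hu0 : 0 ≤ P.om * ∑ i, P.M i := mul_nonneg P.om_nonneg hM0
  have huu : 0 ≤ u := hu0.trans hW.tot
  have h4 : (P.om * ∑ j, P.M j) * Real.log 2 * (q * (1 + b.A₀) + K) ≤
      u * ((1 + b.A₀ + K) * (l + v₀.al + v₁.al)) := by
    have e1 : (P.om * ∑ i, P.M i) * Real.log 2 ≤ u := by
      have f1 : (P.om * ∑ i, P.M i) * Real.log 2 ≤ (P.om * ∑ i, P.M i) * 1 :=
        mul_le_mul_of_nonneg_left hl21 hu0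
      linarith [hW.tot]
    refine mul_le_mul e1 ?_ (by positivity) huu
    have f1 : (q : ℝ) * (1 + b.A₀) + K ≤ (1 + b.A₀ + K) * q := by nlinarith
    exact f1.trans (mul_le_mul_of_nonneg_left hqL (by positivity))
  have h5 : P.cH ≤ c' * u * (l + v₀.al + v₁.al) := by
    refine hW.H.trans ?_
    have f1 : (1 : ℝ) ≤ l + v₀.al + v₁.al := hq1.trans hqL
    have f2 : 0 ≤ c' * u := mul_nonneg hc huu
    nlinarith
  rw [hK] at h3 h4
  push_cast at h4 ⊢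
  have e : (1 + (b.A₀ : ℝ) + (nJ m E : ℕ) * (cN (nJ m E) : ℕ) + (nJ m E : ℕ) + 1 + c') * u *
      ((l : ℝ) + v₀.al + v₁.al) = u * ((1 + b.A₀ + ((nJ m E : ℕ) * (cN (nJ m E) : ℕ) +
      (nJ m E : ℕ) + 1)) * (l + v₀.al + v₁.al)) + c' * u * (l + v₀.al + v₁.al) := by ring
  rw [e]
  linarith

/-- **(range)** -/
theorem Pr.range_le (hP : Cst P b Cg g) {c' a' ρ u : ℝ} (hW : Wts P b c' a' ρ u)
    (h : Pr P J w l c k a x t₀ t₁ v₀ v₁) :
    (rgv b (shv b l v₀ v₁) : ℝ) ≤ a' * gnv P b (shv b l v₀ v₁) + a' * (l + v₀.al + v₁.al) := by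
  obtain ⟨q, hqd⟩ : ∃ q, q = qq l v₁.al := ⟨_, rfl⟩
  obtain ⟨gu, hgu⟩ : ∃ gu : Fin (nJ m E) → ℕ, gu = (shv b l v₀ v₁).gu := ⟨_, rfl⟩
  have hgn : gnv P b (shv b l v₀ v₁) = P.om * (Real.log 2 * ∑ i, P.M i * ((q : ℝ) * gu i)) := by
    rw [gnv_eq P hP.c₅, hqd, hgu]
    rfl
  have hqL : (q : ℝ) ≤ l + v₀.al + v₁.al := by
    rw [hqd]
    have e1 : ((qq l v₁.al : ℕ) : ℝ) ≤ l + v₁.al := by exact_mod_cast qq_le h.l1 v₁.al
    have e2 : (0 : ℝ) ≤ v₀.al := Nat.cast_nonneg _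
    linarith
  have hr : (rgv b (shv b l v₀ v₁) : ℝ) = q * b.A₁ + ∑ i, b.A₂ * ((q : ℝ) * gu i) := by
    have e : rgv b (shv b l v₀ v₁) = q * (b.A₁ + b.A₂ * ∑ i, gu i) := by
      rw [hqd, hgu]
      rfl
    rw [e]
    push_cast
    rw [← mul_sum, ← mul_sum]
    ring
  rw [hr, hgn]
  have ha : 0 ≤ a' := (Nat.cast_nonneg b.A₁).trans hW.a₁
  have h1 : (q : ℝ) * b.A₁ ≤ a' * (l + v₀.al + v₁.al) := by
    rw [mul_comm]
    exact mul_le_mul hW.a₁ hqL (Nat.cast_nonneg _) ha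
  have h2 : ∑ i, (b.A₂ : ℝ) * ((q : ℝ) * gu i) ≤
      a' * (P.om * (Real.log 2 * ∑ i, P.M i * ((q : ℝ) * gu i))) := by
    rw [mul_sum, mul_sum, mul_sum]
    refine sum_le_sum fun i _ => ?_
    refine (mul_le_mul_of_nonneg_right (hW.a₂ i) (by positivity)).trans (le_of_eq ?_)
    ring
  linarith

end pair

open Pool.Agent.H49.Ent Pool.Agent.H32.Dense Pool.STK Pool.KA in
/-- The points are counted by the label of their window. -/
def Cnt1 (P : Par m E) (b : BP) (κ C : ℝ) : Prop :=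
  ∀ (J w l : ℕ), 1 ≤ l → w + l ≤ J → ∀ (F : Fam m J) (c : F.ζ → P.cls.Cx) (k a : ℕ)
    (s : (P.gs b).Sh) (t₀ : F.Ω → ℕ) (b₀ b₁ : F.Ω → P.cls.V),
    TRN.Pair (P.td b κ) F w l c k a s t₀ b₀ b₁ →
    CH (TRN.nz F.p ((P.td b κ).N J (w + l) ((P.gs b).rg s))) ((P.td b κ).Y F w l c k a s t₀ b₀)
      (fun e => (TRN.zc (P.gs b) F w l c k a s t₀ b₀ e.1,
        ((F.T e.1 / 2 ^ (J - (w + l)), b₁ e.1), F.Z e.1))) ≤
      Ex F.p ((P.td b κ).UU F w l c k a s t₀ b₀) +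
      Ex F.p (fun ω => (P.td b κ).cap J (w + l) (F.l ω) (F.T ω / 2 ^ (J - (w + l))) (b₁ ω)) +
      C * Real.log (2 + (P.gs b).rg s)

open Pool.Agent.H49.Ent Pool.Agent.H32.Dense Pool.STK Pool.KA in
/-- The points are counted by the label of another window. -/
def Cnt0 (P : Par m E) (b : BP) (κ C : ℝ) : Prop :=
  ∀ (J w l : ℕ), 1 ≤ l → w + l ≤ J → ∀ (F : Fam m J) (c : F.ζ → P.cls.Cx) (k a : ℕ)
    (s : (P.gs b).Sh) (t₀ : F.Ω → ℕ) (b₀ b₁ : F.Ω → P.cls.V),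
    TRN.Pair (P.td b κ) F w l c k a s t₀ b₀ b₁ →
    CH (TRN.nz F.p ((P.td b κ).N J (w + l) ((P.gs b).rg s))) ((P.td b κ).Y F w l c k a s t₀ b₀)
      (fun e => (TRN.zc (P.gs b) F w l c k a s t₀ b₀ e.1, ((t₀ e.1, b₀ e.1), F.Z e.1))) ≤
      Ex F.p ((P.td b κ).UU F w l c k a s t₀ b₀) +
      Ex F.p (fun ω => (P.td b κ).cap J (w + l) (F.l ω) (t₀ ω) (b₀ ω)) +
      C * (l + Ex F.p (fun ω => (P.cls.age (b₀ ω) : ℝ))) + C * Real.log (2 + (P.gs b).rg s)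

theorem vol_nonneg_sum (P : Par m E) : 0 ≤ ∑ i, P.M i := sum_nonneg fun i _ => P.M_nonneg i

/-- **(join)** -/
theorem join_td (hC : Cur m E Cg) (hP : Cst P b Cg g) {κ : ℝ} (hcd : Cdc P b κ)
    {c' a' ρ u C : ℝ} (hW : Wts P b c' a' ρ u) (hc0 : (cTF m E Cg b : ℝ) ≤ C)
    (J w l : ℕ) (c : Cc m E) (k a : ℕ) (hl : 1 ≤ l) (_ : w + l ≤ J) (t₀ t₁ : ℕ)
    (v₀ v₁ v₂ : Vl m E) : ∃ 𝒥 : Finset (Vl m E), Real.log 𝒥.card ≤
      C + C * Real.log (2 + rgv b (shv b l v₀ v₁)) ∧ ∀ x : Ln m,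
    Pr P J w l c k a x t₀ t₁ v₀ v₁ → P.cls.dp J v₀ < ndc m κ → P.cls.dp J v₁ < ndc m κ →
    bkv P b (w + l) (crv P b J w l c k a t₀ v₀ (shv b l v₀ v₁)) (rgv b (shv b l v₀ v₁)) x
      t₁ v₂ →
    ∃ v ∈ 𝒥, okv P J (w + l) c k (a + g) x t₁ v ∧
      capv J v ≤ capv J v₂ + C ∧
      P.vol v.c.B ≤ P.vol v₁.c.B - gnv P b (shv b l v₀ v₁) + C + C * u * (l + v₀.al + v₁.al) ∧
      subv P ((b.cA + 1) * rgv b (shv b l v₀ v₁)) v₁ v ∧ v.al = 0 := by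
  classical
  have hl2 : 0 ≤ Real.log 2 := Real.log_nonneg (by norm_num)
  have hl21 : Real.log 2 ≤ 1 := by
    have := Real.log_two_lt_d9
    linarith
  obtain ⟨R, hR⟩ : ∃ R, R = rgv b (shv b l v₀ v₁) := ⟨_, rfl⟩
  obtain ⟨K₁, hK₁⟩ : ∃ K₁, K₁ = Cg + m * (2 * nJ m E + 7) + 1 := ⟨_, rfl⟩
  obtain ⟨K₂, hK₂⟩ : ∃ K₂, K₂ = Cg + m * (2 * R + nJ m E + 3) + 1 := ⟨_, rfl⟩
  have hC1 : (1 : ℝ) ≤ C := by
    refine le_trans ?_ hc0
    have : 1 ≤ cTF m E Cg b := by unfold cTF; omega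
    exact_mod_cast this
  refine ⟨(Icc (v₂.sz - K₁) (v₂.sz + K₂)).image fun s =>
    Vl.mk (jC P b J w l c k a t₀ t₁ v₀ v₁ v₂) 0 0 s, ?_, ?_⟩
  · obtain ⟨K, hK⟩ : ∃ K, K = 2 * Cg + m * (3 * nJ m E + 12) + 3 := ⟨_, rfl⟩
    have h1 : ((Icc (v₂.sz - K₁) (v₂.sz + K₂)).image fun s =>
      Vl.mk (jC P b J w l c k a t₀ t₁ v₀ v₁ v₂) 0 0 s).card ≤ K * (2 + R) := by
      refine card_image_le.trans ?_
      rw [Int.card_Icc]
      have e1 : (v₂.sz + K₂ + 1 - (v₂.sz - K₁)).toNat = K₁ + K₂ + 1 := by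
        have : v₂.sz + K₂ + 1 - (v₂.sz - K₁) = ((K₁ + K₂ + 1 : ℕ) : ℤ) := by
          push_cast
          ring
        rw [this, Int.toNat_natCast]
      rw [e1, hK₁, hK₂, hK]
      have f1 : (2 * Cg + m * (3 * nJ m E + 12) + 3) * (2 + R) =
        (Cg + m * (2 * nJ m E + 7) + 1) + (Cg + m * (2 * R + nJ m E + 3) + 1) + 1 +
        (2 * Cg + 3 * (m * nJ m E) + 14 * m + 3 + 2 * (Cg * R) + 3 * (m * (nJ m E * R)) +
          10 * (m * R) + 3 * R) := by ring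
      omega
    have hK0 : (0 : ℝ) < K := by
      rw [hK]
      positivity
    have h2 : (((Icc (v₂.sz - K₁) (v₂.sz + K₂)).image fun s =>
      Vl.mk (jC P b J w l c k a t₀ t₁ v₀ v₁ v₂) 0 0 s).card : ℝ) ≤ K * (2 + R) := by
      exact_mod_cast h1
    have h3 : 0 < ((Icc (v₂.sz - K₁) (v₂.sz + K₂)).image fun s =>
      Vl.mk (jC P b J w l c k a t₀ t₁ v₀ v₁ v₂) 0 0 s).card := by
      refine card_pos.mpr (Nonempty.image ?_ _)
      refine nonempty_Icc.mpr ?_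
      linarith [Int.natCast_nonneg K₁, Int.natCast_nonneg K₂]
    have hR0 : (0 : ℝ) < 2 + R := by positivity
    have h4 := Real.log_le_log (by exact_mod_cast h3) h2
    rw [Real.log_mul hK0.ne' hR0.ne'] at h4
    have h5 : Real.log K ≤ C := by
      refine (Real.log_le_self hK0.le).trans (le_trans ?_ hc0)
      have : K ≤ cTF m E Cg b := by
        rw [hK]
        unfold cTF
        omega
      exact_mod_cast this
    have h6 : 0 ≤ Real.log (2 + R) := Real.log_nonneg (by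
      have : (0 : ℝ) ≤ R := Nat.cast_nonneg _
      linarith)
    have h7 : 1 * Real.log (2 + (R : ℝ)) ≤ C * Real.log (2 + R) :=
      mul_le_mul_of_nonneg_right hC1 h6
    rw [← hR]
    linarith
  · intro x h n0 n1 hb
    obtain ⟨s, s1, s2, s3, s4⟩ := h.join hC hP hcd n0 n1 hb
    rw [← hK₁] at s1
    rw [← hR, ← hK₂] at s2
    refine ⟨Vl.mk (jC P b J w l c k a t₀ t₁ v₀ v₁ v₂) 0 0 s, ?_, s3, ?_, ?_, s4, rfl⟩
    · rw [mem_image]
      exact ⟨s, mem_Icc.mpr ⟨s1, s2⟩, rfl⟩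
    · unfold capv
      have e1 : ((v₂.sz - K₁ : ℤ) : ℝ) ≤ s := by exact_mod_cast s1
      push_cast at e1
      have e2 : (K₁ : ℝ) ≤ C := by
        refine le_trans ?_ hc0
        have : K₁ ≤ cTF m E Cg b := by
          rw [hK₁]
          unfold cTF
          have : m * (2 * nJ m E + 7) ≤ m * (3 * nJ m E + 12) :=
            Nat.mul_le_mul_left _ (by omega)
          omega
        exact_mod_cast this
      have e3 : (0 : ℝ) ≤ m * v₂.al := by positivity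
      have e4 : ((m : ℝ) * J - s + m * ((0 : ℕ) : ℝ)) ≤ ((m : ℝ) * J - v₂.sz + m * v₂.al) + K₁ := by
        simp only [Nat.cast_zero, mul_zero]
        linarith
      have e5 := mul_le_mul_of_nonneg_right e4 hl2
      have e6 : (K₁ : ℝ) * Real.log 2 ≤ K₁ * 1 :=
        mul_le_mul_of_nonneg_left hl21 (Nat.cast_nonneg _)
      rw [add_mul _ (K₁ : ℝ)] at e5
      show ((m : ℝ) * J - s + m * ((0 : ℕ) : ℝ)) * Real.log 2 ≤ _
      linarith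
    · refine (h.vol_j hP hW.tot v₂.c.B).trans ?_
      have hu0 : 0 ≤ P.om * ∑ i, P.M i := mul_nonneg P.om_nonneg (vol_nonneg_sum P)
      have huu : 0 ≤ u := hu0.trans hW.tot
      have e1 : (b.A₀ : ℝ) + 4 * nJ m E + 9 ≤ C := by
        refine le_trans ?_ hc0
        have : b.A₀ + 4 * nJ m E + 9 ≤ cTF m E Cg b := by
          unfold cTF
          have f1 : (nJ m E + 5) * (cN (nJ m E) + b.A₀ + 9) = nJ m E * (cN (nJ m E) + b.A₀) +
            9 * nJ m E + 5 * cN (nJ m E) + 5 * b.A₀ + 45 := by ring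
          omega
        exact_mod_cast this
      have e2 : (0 : ℝ) ≤ l + v₀.al + v₁.al := by positivity
      have e3 : ((b.A₀ : ℝ) + 4 * nJ m E + 9) * u * (l + v₀.al + v₁.al) ≤
          C * u * (l + v₀.al + v₁.al) :=
        mul_le_mul_of_nonneg_right (mul_le_mul_of_nonneg_right e1 huu) e2
      linarith

/-- **The fields of the turning step.** -/
theorem tf (hC : Cur m E Cg) (hP : Cst P b Cg g) {κ : ℝ} (hcd : Cdc P b κ) (hv : Ccv P g)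
    {c' a' ρ u C : ℝ} (hW : Wts P b c' a' ρ u) (hc : 0 ≤ c')
    (hc0 : (cTF m E Cg b : ℝ) + c' ≤ C) (h1 : Cnt1 P b κ C) (h0 : Cnt0 P b κ C) :
    TF (P.td b κ) C a' ρ u g where
  pot_eq := fun _ _ _ _ _ => rfl
  N_pos := fun _ _ _ => by
    show 0 < 2 ^ _
    positivity
  cnt₁ := h1
  cnt₀ := h0
  dom_of := fun J w l c k a hl hw x t₀ t₁ v₀ v₁ h _ _ => (pr_of hl hw h).dom hC hP
  out := fun J w l c k a hl hw x t₀ t₁ v₀ v₁ v h n0 n1 hb =>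
    (pr_of hl hw h).out hC hP hcd hv n0 n1 hb
  join := fun J w l c k a hl hw _ t₀ t₁ v₀ v₁ v₂ => by
    obtain ⟨𝒥, e1, e2⟩ := join_td (b := b) hC hP hcd hW (C := C) (by linarith) J w l c k a hl hw
      t₀ t₁ v₀ v₁ v₂
    exact ⟨𝒥, e1, fun x h n0 n1 hb => e2 x (pr_of hl hw h) n0 n1 hb⟩
  gn_nonneg := fun _ _ _ _ _ _ _ _ _ _ _ _ _ _ _ _ => le_max_left _ _
  lat := fun J w l c k a hl hw x t₀ t₁ v₀ v₁ h _ _ => by
    have h2 := pr_of hl hw h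
    refine (h2.lat_le hP hW hc).trans ?_
    have hu0 : 0 ≤ P.om * ∑ i, P.M i := mul_nonneg P.om_nonneg (vol_nonneg_sum P)
    have huu : 0 ≤ u := hu0.trans hW.tot
    have e1 : ((1 + b.A₀ : ℕ) : ℝ) + (nJ m E : ℕ) * (cN (nJ m E) : ℕ) + (nJ m E : ℕ) + 1 + c' ≤
        C := by
      refine le_trans ?_ hc0
      have : 1 + b.A₀ + nJ m E * cN (nJ m E) + nJ m E + 1 ≤ cTF m E Cg b := by
        unfold cTF
        have f1 : (nJ m E + 5) * (cN (nJ m E) + b.A₀ + 9) = nJ m E * cN (nJ m E) + nJ m E * b.A₀ +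
          9 * nJ m E + 5 * cN (nJ m E) + 5 * b.A₀ + 45 := by ring
        omega
      have f2 : ((1 + b.A₀ + nJ m E * cN (nJ m E) + nJ m E + 1 : ℕ) : ℝ) ≤ cTF m E Cg b := by
        exact_mod_cast this
      push_cast at f2 ⊢
      linarith
    have e2 : (0 : ℝ) ≤ l + v₀.al + v₁.al := by positivity
    exact add_le_add le_rfl (mul_le_mul_of_nonneg_right (mul_le_mul_of_nonneg_right e1 huu) e2)
  range := fun J w l c k a hl hw x t₀ t₁ v₀ v₁ h _ _ => (pr_of hl hw h).range_le hP hW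
  rg_ge := fun J w l c k a hl hw x t₀ t₁ v₀ v₁ h _ _ => by
    have h2 := (pr_of hl hw h).al_le hP
    show l ≤ rgv b (shv b l v₀ v₁)
    omega

end Pool.GC
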